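import Pool.Agent.T2h10.E25.Chk

/-!
# The certificates (generated)

Owner helper10.
-/

set_option autoImplicit false
set_option maxRecDepth 100000

namespace Pool.Agent.T2h10.E25

open T

def t0 : T :=
  (n (n (n (c 1) (n (n (n (c 1) (n (n (n (c 1) (c 3) (c 9)) (c 2) (c 8)) (n (c 2) (c 1) (r 24 7)) (r 22 6))
  (c 6)) (n (n (n (c 1) (c 2) (c 8)) (c 2) (r 22 6)) (n (c 2) (c 1) (r 22 6)) (r 20 5)) (c 5)) (n (n (n (c 1)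
  (c 2) (c 7)) (n (c 2) (n (n (n (c 1) (c 2) (n (c 7) (r 30 3) (n (n (n (c 1) (n (r 36 16) (n (c 6) (c 1) (r
  40 4)) (r 38 3)) (c 2)) (r 34 5) (n (c 2) (r 36 6) (n (n (n (c 1) (n (r 42 19) (n (n (n (c 1) (c 2) (n (r
  50 20) (r 52 3) (n (n (n (c 1) (c 4) (c 2)) (r 56 5) (n (c 2) (r 58 6) (n (n (n (c 1) (n (c 6) (n (n (n (c
  1) (c 2) (n (r 72 31) (c 19) (n (n (n (c 1) (c 4) (c 2)) (r 78 5) (n (c 2) (r 80 6) (n (c 11) (r 82 7) (c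
  1)))) (r 76 4) (c 1)))) (n (c 2) (n (n (n (c 1) (c 2) (c 21)) (n (c 2) (c 3) (r 78 9)) (r 76 8)) (c 1) (r
  74 7)) (r 72 6)) (c 9)) (c 1) (r 68 4)) (r 66 3)) (c 2)) (c 5) (n (c 2) (r 64 9) (c 3))) (r 60 7) (c 1))))
  (r 54 4) (c 1)))) (n (c 2) (n (n (n (c 1) (c 2) (n (n (n (c 1) (c 16) (n (n (n (c 1) (n (r 68 32) (c 6) (c
  18)) (c 3)) (r 66 7) (c 2)) (r 64 6) (r 63 13))) (r 60 4) (c 7)) (r 58 3) (c 7))) (n (c 2) (c 3) (r 56 9))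
  (r 54 8)) (c 1) (r 52 7)) (r 50 6)) (r 48 5)) (c 1) (r 46 4)) (r 44 3)) (c 2)) (r 40 8) (n (c 2) (r 42 9)
  (c 3))) (r 38 7) (c 1)))) (r 32 4) (c 1)))) (n (c 2) (c 3) (r 28 9)) (r 26 8)) (c 1) (r 24 7)) (r 22 6)) (r
  20 5)) (c 1) (r 18 4)) (r 16 3)) (n (n (n (c 1) (c 6) (c 3)) (c 5) (c 2)) (r 16 6) (n (c 2) (r 18 7) (c
  1)))) (r 12 4) (n (n (n (c 1) (c 5) (c 2)) (r 16 6) (c 2)) (r 14 5) (n (c 2) (r 16 6) (c 1)))) (r 10 3) (n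
  (n (n (c 1) (n (c 5) (n (n (n (c 1) (c 2) (c 4)) (n (c 2) (n (n (n (c 1) (c 2) (n (n (n (c 1) (n (r 36 16)
  (n (n (n (c 1) (c 2) (c 6)) (n (c 2) (n (n (n (c 1) (c 2) (c 12)) (n (c 2) (c 3) (c 13)) (r 48 8)) (c 1) (r
  46 7)) (r 44 6)) (c 12)) (c 1) (r 40 4)) (c 10)) (n (c 9) (c 10) (r 37 13))) (r 34 4) (c 8)) (r 32 3) (n (c
  8) (r 34 4) (c 1)))) (n (c 2) (c 3) (r 30 9)) (r 28 8)) (c 1) (r 26 7)) (r 24 6)) (r 22 5)) (c 1) (r 20 4))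
  (r 18 3)) (c 2)) (r 14 5) (n (c 2) (r 16 6) (n (n (n (c 1) (c 6) (c 2)) (r 20 8) (n (c 2) (r 22 9) (c 3)))
  (r 18 7) (c 1)))) (r 12 4) (c 1)))

def t1 : T :=
  (n (n (n (c 1) (n (n (n (c 1) (n (c 3) (n (c 2) (c 1) (r 26 9)) (c 7)) (c 7)) (c 2) (c 7)) (n (c 2) (c 1)
  (r 20 6)) (r 18 5)) (r 16 4)) (n (n (r 17 8) (c 2) (c 6)) (n (c 2) (c 1) (r 18 5)) (r 16 4)) (c 4)) (n (n
  (r 15 7) (n (c 2) (n (n (r 21 10) (n (c 2) (c 3) (r 24 8)) (n (n (c 6) (c 7) (n (n (r 29 14) (n (r 30 13)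
  (c 5) (r 32 2)) (c 2)) (r 28 4) (n (c 2) (r 30 5) (c 1)))) (r 24 2) (n (n (r 27 13) (n (r 28 12) (n (c 5)
  (c 1) (r 32 3)) (r 30 2)) (n (c 2) (r 30 5) (n (n (r 33 16) (n (r 34 15) (n (n (r 39 19) (n (c 2) (n (n (r
  45 22) (n (c 2) (c 3) (r 48 8)) (n (n (r 49 24) (c 13) (c 6)) (r 48 2) (c 6))) (c 1) (r 44 6)) (r 42 5)) (n
  (r 40 16) (r 42 2) (n (n (r 45 22) (c 3) (n (c 2) (r 48 5) (n (n (r 51 25) (n (c 5) (n (n (r 57 28) (n (c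
  2) (n (n (r 63 31) (n (c 2) (c 3) (r 66 8)) (n (c 18) (r 66 2) (c 6))) (c 1) (r 62 6)) (r 60 5)) (n (c 8)
  (r 60 2) (n (n (r 63 31) (c 3) (n (c 2) (r 66 5) (c 9))) (r 62 3) (c 1)))) (c 1) (c 7)) (r 54 2)) (n (c 2)
  (r 54 8) (c 3))) (c 4) (c 1)))) (r 44 3) (c 1)))) (c 1) (r 38 3)) (r 36 2)) (n (c 2) (r 36 8) (c 3))) (r 32
  6) (c 1)))) (r 26 3) (c 1)))) (c 1) (r 20 6)) (r 18 5)) (n (c 6) (r 18 2) (n (n (c 8) (c 3) (n (c 2) (r 24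
  5) (n (n (r 27 13) (n (r 28 12) (n (n (r 33 16) (n (c 2) (n (n (r 39 19) (n (c 2) (c 3) (r 42 8)) (n (r 40
  16) (r 42 2) (c 6))) (c 1) (r 38 6)) (r 36 5)) (n (n (r 37 18) (c 10) (r 36 7)) (r 36 2) (n (n (r 39 19) (c
  3) (n (c 2) (r 42 5) (n (n (r 45 22) (n (c 5) (n (c 8) (c 1) (c 7)) (r 48 2)) (n (c 2) (r 48 8) (c 3))) (c
  4) (c 1)))) (r 38 3) (c 1)))) (c 1) (r 32 3)) (r 30 2)) (n (c 2) (r 30 8) (c 3))) (r 26 6) (c 1)))) (r 20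
  3) (c 1)))) (c 1) (r 14 3)) (r 12 2))

def t2 : T :=
  (n (r 56 3) (n (r 58 4) (n (n (n (c 1) (n (n (n (c 1) (n (n (c 3) (c 2) (r 74 9)) (c 10) (c 9)) (r 70 7))
  (c 2) (r 68 6)) (r 61 30) (c 6)) (r 64 4)) (n (r 62 8) (n (n (r 67 9) (n (c 2) (n (c 3) (c 1) (c 7)) (c 7))
  (c 6)) (c 1) (n (c 6) (n (c 7) (n (c 7) (c 1) (n (r 74 6) (n (c 5) (n (n (r 79 15) (n (r 80 17) (c 6) (r 82
  4)) (r 80 3)) (c 1) (c 3)) (c 2)) (r 73 29))) (r 68 28)) (r 67 26))) (r 64 4)) (r 62 3)) (c 1) (n (r 62 6)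
  (n (r 64 7) (n (n (c 6) (n (c 7) (n (c 7) (c 1) (n (r 74 3) (n (c 5) (n (r 72 18) (c 1) (n (r 80 6) (n (r
  82 7) (n (n (n (c 1) (n (c 13) (r 85 42) (r 90 5)) (r 88 4)) (n (r 86 20) (n (n (r 91 21) (n (c 2) (n (c 3)
  (c 1) (c 6)) (c 5)) (r 92 6)) (c 1) (n (r 92 3) (n (c 5) (n (c 6) (c 1) (n (r 98 6) (n (c 8) (c 9) (c 2))
  (r 97 41))) (c 8)) (r 91 38))) (r 88 4)) (r 86 3)) (c 1) (c 3)) (c 2)) (r 79 32))) (r 74 31)) (r 73 29)))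
  (r 70 4)) (r 68 3)) (c 1) (c 3)) (c 2)) (c 15))) (r 56 22)) (n (r 58 4) (n (r 60 5) (n (n (n (c 1) (c 6) (r
  66 4)) (n (c 6) (n (n (r 69 10) (n (c 2) (n (c 3) (c 1) (n (r 76 3) (r 74 19) (n (r 78 4) (n (r 80 5) (n (n
  (c 12) (c 5) (r 84 3)) (c 1) (c 2)) (c 21)) (c 1)))) (r 72 7)) (c 4)) (c 1) (n (c 4) (r 68 16) (n (r 72 4)
  (n (r 74 5) (n (n (n (c 1) (n (n (n (c 1) (n (n (c 3) (c 2) (c 24)) (n (c 2) (c 1) (c 23)) (r 88 8)) (c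
  22)) (c 2) (c 13)) (r 77 38) (c 21)) (r 80 4)) (n (r 78 16) (n (n (c 12) (n (c 2) (n (c 3) (c 1) (c 5)) (r
  86 7)) (c 4)) (c 1) (n (c 4) (r 82 23) (n (r 86 4) (n (c 6) (c 7) (r 86 37)) (c 1)))) (c 21)) (c 21)) (c 1)
  (c 2)) (c 19)) (c 1)))) (c 17)) (r 64 3)) (c 1) (c 2)) (n (c 16) (c 2) (n (r 64 7) (n (r 66 8) (n (n (n (c
  1) (n (n (n (c 1) (c 11) (r 78 7)) (c 2) (r 76 6)) (n (c 2) (c 1) (n (r 78 3) (c 21) (n (r 80 4) (n (r 82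
  5) (n (c 4) (c 1) (c 2)) (n (r 84 6) (c 2) (n (r 86 7) (n (c 5) (n (n (n (c 1) (n (n (n (c 1) (n (n (c 3)
  (c 2) (r 104 9)) (n (c 2) (c 1) (c 35)) (c 34)) (r 100 7)) (c 2) (c 18)) (c 15) (c 9)) (r 94 4)) (c 6) (r
  92 3)) (c 1) (c 2)) (n (r 90 9) (c 2) (c 3))) (c 1)))) (c 1)))) (c 20)) (r 72 4)) (n (r 70 12) (n (n (r 75
  13) (n (c 2) (n (c 3) (c 1) (c 21)) (c 21)) (r 76 6)) (c 1) (c 19)) (r 72 4)) (c 18)) (c 1) (c 2)) (n (r 68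
  9) (c 2) (c 3))) (c 1)))) (c 1)))

def t3 : T :=
  (n (n (n (c 1) (n (n (n (c 1) (n (n (c 3) (c 2) (r 34 9)) (n (c 2) (c 1) (n (r 36 3) (n (r 38 4) (n (n (n
  (c 1) (n (n (n (c 1) (n (n (c 3) (c 2) (r 54 9)) (n (c 2) (c 1) t2) (r 52 8)) (r 50 7)) (c 2) (r 48 6)) (r
  41 20) (r 46 5)) (r 44 4)) (n (r 42 8) (n (n (r 47 9) (n (c 2) (n (c 3) (c 1) (n (r 54 3) (n (r 56 4) (n (n
  (n (c 1) (n (n (n (c 1) (n (n (c 3) (c 2) (r 72 9)) (n (c 2) (c 1) (n (r 74 3) (c 7) (n (r 76 4) (n (r 78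
  5) (n (n (n (c 1) (c 6) (r 84 4)) (r 80 16) (r 82 3)) (c 1) (c 2)) (n (r 80 6) (c 2) (c 22))) (c 1)))) (r
  70 8)) (r 68 7)) (c 2) (r 66 6)) (r 59 29) (r 64 5)) (r 62 4)) (n (r 60 17) (n (n (r 65 18) (n (c 2) (n (c
  3) (c 1) (c 8)) (r 68 7)) (c 7)) (c 1) (c 6)) (c 5)) (r 60 3)) (c 1) (n (r 60 6) (n (c 5) (n (c 6) (c 1) (c
  3)) (c 2)) (r 59 22))) (r 54 21)) (r 53 19))) (r 50 7)) (c 6)) (c 1) (n (c 6) (n (r 50 4) (n (n (n (c 1) (n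
  (n (n (c 1) (n (n (c 3) (c 2) (r 66 9)) (n (c 2) (c 1) (n (r 68 3) (c 7) (n (r 70 4) (n (r 72 5) (n (n (n
  (c 1) (c 6) (r 78 4)) (r 74 16) (r 76 3)) (c 1) (c 2)) (n (r 74 6) (c 2) (c 19))) (c 1)))) (r 64 8)) (r 62
  7)) (c 2) (r 60 6)) (r 53 26) (r 58 5)) (r 56 4)) (n (r 54 14) (n (n (r 59 15) (n (c 2) (n (c 3) (c 1) (c
  6)) (c 5)) (r 60 6)) (c 1) (n (r 60 3) (n (c 5) (c 6) (r 60 24)) (r 59 22))) (c 5)) (r 54 3)) (c 1) (n (r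
  54 6) (n (c 5) (n (n (r 59 15) (n (r 60 17) (c 6) (r 62 4)) (r 60 3)) (c 1) (c 3)) (c 2)) (r 53 19))) (r 48
  18)) (r 47 16))) (r 44 4)) (r 42 3)) (c 1) (c 8)) (c 7)) (c 7))) (r 32 8)) (r 30 7)) (c 2) (r 28 6)) (n (c
  2) (c 1) (n (r 30 3) (c 10) (n (r 32 4) (c 11) (c 1)))) (c 9)) (r 24 4)) (c 6) (r 22 3)) (c 1) (c 2))

def t4 : T :=
  (n (n (n (c 1) (n (n (c 3) (c 2) (r 46 8)) (n (c 2) (c 1) (r 46 8)) (n (r 46 2) (n (n (n (c 1) (n (n (n (c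
  1) (n (n (c 3) (c 2) (c 6)) (n (c 2) (c 1) (c 7)) (n (c 6) (c 7) (r 61 20))) (r 58 6)) (c 2) (r 56 5)) (n
  (c 2) (c 1) (c 5)) (c 5)) (r 52 3)) (n (r 50 6) (n (n (r 55 7) (n (c 2) (n (n (r 61 10) (c 3) (r 62 8)) (c
  1) (r 60 7)) (n (r 60 2) (n (n (c 7) (n (r 64 13) (n (c 8) (c 1) (r 68 4)) (c 4)) (r 64 2)) (r 61 4) (r 60
  21)) (r 59 19))) (c 5)) (c 1) (r 54 4)) (n (c 5) (n (c 5) (n (r 58 4) (c 1) (n (r 60 5) (n (c 4) (n (r 64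
  7) (c 1) (n (r 66 8) (c 3) (r 65 22))) (c 2)) (r 59 19))) (c 10)) (c 10))) (r 50 2)) (n (r 50 4) (c 1) (n
  (r 52 5) (n (n (c 5) (r 54 14) (c 10)) (n (r 56 7) (c 1) (n (r 58 8) (c 3) (r 57 18))) (c 2)) (r 51 15)))
  (r 46 14)) (r 45 12))) (r 42 6)) (c 2) (r 40 5)) (n (c 2) (c 1) (r 40 5)) (n (r 40 2) (n (n (n (c 1) (n (n
  (n (c 1) (n (n (c 3) (c 2) (r 56 8)) (n (c 2) (c 1) (c 5)) (c 5)) (r 52 6)) (c 2) (r 50 5)) (n (c 2) (c 1)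
  (r 50 5)) (n (r 50 2) (n (c 5) (n (r 54 4) (c 1) (n (c 10) (n (c 4) (n (r 60 7) (c 1) (n (r 62 8) (c 3) (r
  61 20))) (c 2)) (r 55 17))) (r 50 16)) (r 49 14))) (r 46 3)) (n (n (r 47 6) (n (c 2) (n (c 2) (c 1) (r 52
  6)) (n (c 5) (n (n (c 5) (c 6) (c 10)) (n (c 6) (c 1) (n (c 4) (n (c 4) (n (r 62 7) (c 1) (n (r 64 8) (c 3)
  (r 63 21))) (c 2)) (r 57 18))) (r 52 17)) (r 51 15))) (r 48 4)) (n (n (r 49 7) (n (c 2) (n (n (r 55 10) (c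
  3) (c 6)) (c 1) (r 54 7)) (n (r 54 2) (n (c 6) (r 55 4) (r 54 18)) (r 53 16))) (r 50 5)) (c 1) (c 4)) (n (r
  48 2) (c 4) (n (r 50 3) (c 17) (c 1)))) (c 3)) (n (r 44 4) (c 1) (n (r 46 5) (n (c 4) (n (r 50 7) (c 1) (n
  (c 18) (c 3) (r 51 15))) (c 2)) (r 45 12))) (r 40 11)) (r 39 9)))

def t5 : T :=
  (n (n (n (c 1) (n (n (n (c 1) (n (n (c 3) (c 2) (c 6)) (n (c 2) (c 1) (c 5)) (c 5)) (r 18 6)) (c 2) (r 16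
  5)) (n (c 2) (c 1) (c 5)) (c 5)) (r 12 3)) (n (n (r 13 6) (n (c 2) (n (c 2) (c 1) (c 6)) (n (c 5) (c 6) (n
  (r 20 3) (c 7) (c 1)))) (c 5)) (n (n (r 15 7) (n (c 2) (n (n (r 21 10) (c 3) (c 6)) (c 1) (r 20 7)) (c 6))
  (r 16 5)) (c 1) (c 4)) (n (r 14 2) (c 4) (n (c 6) (n (n (r 19 9) (c 7) (r 20 2)) (n (r 20 5) (c 1) (c 2))
  (n (r 20 5) (c 2) (n (r 22 6) (n (n (r 25 12) (n (n (r 29 14) (n (c 2) (n (c 2) (c 1) (c 9)) (n (r 34 2) (c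
  9) (c 5))) (c 8)) (n (n (r 31 15) (n (c 2) (n (n (r 37 18) (c 3) (r 38 8)) (c 1) (r 36 7)) (c 9)) (r 32 5))
  (c 1) (r 30 4)) (n (c 8) (n (n (n (c 1) t4 (r 36 3)) (c 9) (c 5)) (n (c 9) (c 1) (n (c 5) (n (n (r 39 19)
  (n (n (r 43 21) (n (c 2) (r 45 6) (c 4)) (r 44 4)) (r 41 4) (n (r 44 2) (n (c 4) (n (r 48 4) (c 1) (c 8))
  (r 44 13)) (c 7))) (r 40 2)) (n (r 40 7) (c 1) (n (r 42 8) (c 3) (r 41 10))) (c 2)) (r 35 7))) (r 30 6)) (n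
  (r 32 3) (n (c 5) (n (c 5) (c 1) (c 2)) (n (r 36 5) (c 2) (n (r 38 6) (n (n (r 41 20) (c 7) (c 6)) (n (c 7)
  (c 1) (c 2)) (n (c 6) (c 2) (c 3))) (c 1)))) (c 1)))) (r 26 2)) (n (r 26 8) (c 1) (c 2)) (n (r 26 8) (c 2)
  (c 3))) (c 1)))) (c 1)))) (c 3)) (n (r 10 4) (c 1) (n (r 12 5) (n (c 4) (n (r 16 7) (c 1) (n (r 18 8) (c 3)
  (n (r 20 9) (c 2) (c 1)))) (c 2)) (n (r 14 6) (c 2) (c 1)))) (n (c 3) (n (n (n (c 1) (n (n (n (c 1) (n (n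
  (c 3) (c 2) (r 26 8)) (n (c 2) (c 1) (c 5)) (c 5)) (r 22 6)) (c 2) (r 20 5)) (n (c 2) (c 1) (r 20 5)) (n (r
  20 2) (c 7) (n (r 22 3) (c 7) (c 1)))) (c 6)) (c 4) (r 14 2)) (n (c 4) (c 1) (c 2)) (c 2)) (n (r 12 5) (c
  2) (c 1))))

def t6 : T :=
  (n (c 2) (n (n (r 61 10) (c 3) (r 62 8)) (c 1) (r 60 7)) (n (c 7) (n (n (c 7) (n (r 64 13) (n (n (r 69 14)
  (n (c 2) (n (n (r 75 17) (c 3) (r 76 8)) (c 1) (r 74 7)) (n (c 6) (n (n (n (c 1) (n (n (n (c 1) (n (n (c 3)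
  (c 2) (r 90 8)) (r 87 10) (n (r 90 2) (n (n (n (c 1) (n (n (n (c 1) (n (n (c 3) (c 2) (c 6)) (r 103 18) (n
  (c 6) (c 7) (n (r 108 3) (n (n (n (c 1) (c 5) (r 114 3)) (r 110 20) (r 112 2)) (r 109 21) (n (r 112 5) (c
  2) (n (r 114 6) (n (n (n (c 1) (n (n (c 9) (c 2) (r 124 5)) (r 121 27) (n (r 124 2) (r 122 16) (n (r 126 3)
  (n (c 3) (r 127 30) (n (r 130 5) (c 2) (n (c 4) (n (n (n (c 1) (n (n (n (c 1) (n (n (c 3) (c 2) (r 148 8))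
  (r 145 39) (n (r 148 2) (n (n (n (c 1) (n (n (n (c 1) (n (c 54) (c 53) (n (c 6) (n (n (n (c 1) (n (n (n (c
  1) (c 8) (r 176 6)) (c 2) (c 6)) (r 171 52) (c 5)) (r 170 3)) (n (r 168 6) (n (n (r 173 7) (n (c 2) (c 54)
  (c 59)) (c 5)) (c 1) (c 30)) (c 56)) (r 168 2)) (c 27) (r 164 18)) (n (r 166 3) (n (n (n (c 1) (c 5) (r 172
  3)) (c 56) (r 170 2)) (r 167 50) (c 12)) (c 1)))) (r 160 6)) (c 2) (r 158 5)) (r 155 44) (r 151 16)) (r 154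
  3)) (r 150 40) (r 152 2)) (r 149 41) (c 6)) (c 6))) (r 144 6)) (c 2) (r 142 5)) (r 139 36) (n (r 142 2) (c
  8) (n (r 144 3) (n (c 3) (r 145 39) (n (r 148 5) (c 2) (c 9))) (c 1)))) (c 7)) (c 5) (r 136 2)) (r 133 33)
  (n (r 136 8) (c 2) (c 3))) (c 1)))) (c 1)))) (r 120 3)) (r 116 23) (c 30)) (r 115 24) (n (c 30) (c 2) (c
  3))) (c 1)))) (c 1)))) (r 102 6)) (c 2) (r 100 5)) (r 97 15) (c 5)) (r 96 3)) (c 8) (r 94 2)) (c 6) (r 90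
  40)) (r 89 38))) (r 86 6)) (c 2) (r 84 5)) (c 7) (r 77 38)) (r 80 3)) (n (r 78 20) (c 7) (c 4)) (r 78 2))
  (r 75 4) (r 74 32)) (r 73 30))) (c 6)) (c 1) (r 68 4)) (c 4)) (r 64 2)) (r 61 4) (r 60 25)) (r 59 23)))

def t7 : T :=
  (n (c 6) (n (n (n (c 1) (n (n (n (c 1) (c 8) (r 58 6)) (c 2) (c 6)) (n (c 2) (c 1) (c 5)) (c 5)) (r 52 3))
  (n (r 50 6) (n (n (r 55 7) t6 (c 5)) (c 1) (r 54 4)) (n (c 5) (n (c 5) (n (r 58 4) (c 1) (n (r 60 5) (n (c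
  4) (n (r 64 7) (c 1) (n (r 66 8) (c 3) (r 65 26))) (c 2)) (r 59 23))) (r 54 22)) (c 14))) (r 50 2)) (n (r
  50 4) (c 1) (n (r 52 5) (n (n (c 5) (n (r 56 9) (r 57 4) (n (r 60 2) (n (c 4) (n (r 64 4) (c 1) (n (r 66 5)
  (n (n (n (c 1) (n (n (n (c 1) (n (n (c 3) (c 2) (r 82 8)) (r 79 8) (n (r 82 2) (n (n (n (c 1) (n (n (n (c
  1) (n (n (c 3) (c 2) (c 6)) (r 95 16) (n (c 6) (c 11) (c 25))) (r 94 6)) (c 2) (r 92 5)) (r 89 13) (c 5))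
  (r 88 3)) (r 84 14) (r 86 2)) (n (r 86 4) (c 1) (c 8)) (r 82 36)) (r 81 34))) (r 78 6)) (c 2) (r 76 5)) (r
  73 5) (r 69 34)) (r 72 3)) (n (r 70 16) (r 71 4) (n (r 74 2) (n (c 4) (n (r 78 4) (c 1) (n (r 80 5) (c 7)
  (r 79 33))) (r 74 32)) (r 73 30))) (r 70 2)) (n (r 70 7) (c 1) (n (r 72 8) (c 3) (r 71 29))) (c 2)) (r 65
  26))) (r 60 25)) (r 59 23))) (r 56 2)) (n (r 56 7) (c 1) (n (r 58 8) (c 3) (r 57 22))) (c 2)) (r 51 19)))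
  (r 46 18)) (n (r 48 3) (n (n (n (c 1) (c 5) (r 54 3)) (n (c 5) (n (n (r 57 8) (n (c 2) (n (n (r 63 11) (c
  3) (r 64 8)) (c 1) (r 62 7)) (n (r 62 2) (r 60 15) (n (r 64 3) (n (n (n (c 1) (n (n (n (c 1) (n (n (c 3) (c
  2) (r 80 8)) (r 77 11) (n (r 80 2) (n (n (n (c 1) (n (n (n (c 1) (n (n (c 3) (c 2) (c 6)) (r 93 19) (n (c
  6) (c 10) (c 27))) (r 92 6)) (c 2) (r 90 5)) (r 87 16) (c 10)) (r 86 3)) (r 82 12) (c 8)) (r 81 13) (r 80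
  35)) (c 22))) (c 20)) (c 2) (c 19)) (r 71 8) (c 3)) (c 11)) (c 4) (r 68 2)) (r 65 5) (r 64 27)) (c 1)))) (r
  58 5)) (c 1) (r 56 4)) (c 14)) (r 52 2)) (n (r 52 5) (c 1) (c 2)) (c 12)) (c 1)))

def t8 : T :=
  (n (n (n (c 1) (n (n (c 3) (c 2) (r 74 8)) (r 71 10) (n (r 74 2) (n (n (n (c 1) (n (n (n (c 1) (n (n (c 3)
  (c 2) (c 6)) (r 87 18) (n (c 6) (c 7) (r 89 38))) (r 86 6)) (c 2) (r 84 5)) (r 81 15) (c 5)) (r 80 3)) (c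
  8) (r 78 2)) (c 6) (r 74 32)) (n (r 76 3) (n (n (n (c 1) (c 5) (r 82 3)) (r 78 12) (r 80 2)) (r 77 13) (n
  (r 80 5) (c 2) (n (r 82 6) (n (n (n (c 1) (n (n (n (c 1) (n (n (c 3) (c 2) (r 98 8)) (r 95 22) (n (r 98 2)
  (n (n (n (c 1) (n (n (n (c 1) (n (n (c 3) (c 2) (c 6)) (r 111 30) (c 9)) (c 9)) (c 2) (r 108 5)) (c 16) (r
  101 50)) (r 104 3)) (n (r 102 6) (n (c 16) (c 1) (r 106 4)) (n (r 106 2) (n (c 5) (r 107 28) (r 106 14)) (r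
  105 12))) (r 102 2)) (r 99 24) (c 6)) (c 6))) (r 94 6)) (c 2) (r 92 5)) (r 89 19) (n (r 92 2) (r 90 16) (n
  (r 94 3) (n (c 3) (r 95 22) (n (r 98 5) (c 2) (n (c 4) (n (n (n (c 1) (n (n (n (c 1) (n (c 38) (c 37) (n (r
  116 2) (n (n (n (c 1) (n (n (n (c 1) (n (n (c 3) (c 2) (c 6)) (r 129 39) (n (c 6) (n (n (n (c 1) (n (n (n
  (c 1) (c 8) (r 144 6)) (c 2) (c 6)) (r 139 44) (c 5)) (r 138 3)) (r 134 40) (r 136 2)) (r 133 41) (r 132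
  18)) (n (r 134 3) (n (n (n (c 1) (c 5) (r 140 3)) (r 136 41) (r 138 2)) (r 135 42) (c 12)) (c 1)))) (r 128
  6)) (c 2) (r 126 5)) (r 123 36) (r 119 16)) (r 122 3)) (n (r 120 6) (n (n (r 125 7) (n (c 2) (c 38) (c 43))
  (c 5)) (c 1) (c 22)) (c 40)) (r 120 2)) (c 19) (c 6)) (c 6))) (r 112 6)) (c 2) (r 110 5)) (r 107 28) (n (r
  110 2) (c 8) (n (r 112 3) (n (c 3) (r 113 31) (n (r 116 5) (c 2) (c 9))) (c 1)))) (c 7)) (c 5) (r 104 2))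
  (r 101 25) (n (r 104 8) (c 2) (c 3))) (c 1)))) (c 1)))) (r 88 3)) (r 84 15) (c 22)) (r 83 16) (n (c 22) (c
  2) (c 3))) (c 1)))) (c 1)))) (r 70 6)) (c 2) (r 68 5)) (c 7) (r 61 30))

def t9 : T :=
  (n (n (n (c 1) (n (n (n (c 1) (n (n (c 3) (c 2) (c 6)) (n (c 2) (c 1) (r 46 8)) t7) (r 42 6)) (c 2) (r 40
  5)) (n (c 2) (c 1) (c 5)) (r 33 16)) (r 36 3)) (n (r 34 6) (n (n (r 39 7) (n (c 2) (n (n (r 45 10) (c 3) (r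
  46 8)) (c 1) (r 44 7)) (n (r 44 2) (n (n (n (c 1) (n (n (n (c 1) (n (n (c 3) (c 2) (r 60 8)) (r 57 10) (n
  (r 60 2) (n (c 7) (c 6) (r 60 25)) (n (r 62 3) (n (n (n (c 1) (c 5) (r 68 3)) (r 64 12) (r 66 2)) (r 63 13)
  (n (r 66 5) (c 2) (c 18))) (c 1)))) (r 56 6)) (c 2) (r 54 5)) (r 51 7) (r 47 23)) (r 50 3)) (n (r 48 13) (n
  (n (r 53 14) (n (c 2) (n (n (r 59 17) (c 3) (r 60 8)) (c 1) (r 58 7)) (n (c 6) (n (n (n (c 1) t8 (r 64 3))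
  (n (r 62 20) (c 7) (c 4)) (r 62 2)) (r 59 4) (r 58 24)) (r 57 22))) (c 6)) (c 1) (r 52 4)) (c 4)) (r 48 2))
  (r 45 4) (r 44 17)) (r 43 15))) (c 5)) (c 1) (r 38 4)) (n (r 38 2) (n (c 5) (n (r 42 4) (c 1) (n (r 44 5)
  (n (c 4) (n (r 48 7) (c 1) (n (r 50 8) (c 3) (r 49 18))) (c 2)) (r 43 15))) (r 38 14)) (r 37 12))) (r 34
  2)) (n (r 34 4) (c 1) (n (r 36 5) (n (n (c 5) (n (r 40 9) (r 41 4) (n (r 44 2) (n (c 4) (n (r 48 4) (c 1)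
  (n (r 50 5) (n (n (n (c 1) (n (n (n (c 1) (n (n (c 3) (c 2) (r 66 8)) (r 63 8) (n (r 66 2) (n (n (n (c 1)
  (n (n (n (c 1) (n (n (c 3) (c 2) (c 6)) (r 79 16) (n (c 6) (c 11) (r 81 34))) (r 78 6)) (c 2) (r 76 5)) (r
  73 13) (c 5)) (r 72 3)) (r 68 14) (r 70 2)) (n (r 70 4) (c 1) (c 8)) (r 66 28)) (c 17))) (r 62 6)) (c 2) (r
  60 5)) (r 57 5) (r 53 26)) (r 56 3)) (n (r 54 16) (r 55 4) (n (r 58 2) (n (c 4) (n (r 62 4) (c 1) (n (r 64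
  5) (c 7) (r 63 25))) (r 58 24)) (r 57 22))) (r 54 2)) (n (r 54 7) (c 1) (n (r 56 8) (c 3) (r 55 21))) (c
  2)) (r 49 18))) (r 44 17)) (r 43 15))) (r 40 2)) (n (r 40 7) (c 1) (n (r 42 8) (c 3) (r 41 14))) (c 2)) (c
  8))) (c 6))

def t10 : T :=
  (n (n (n (c 1) (c 3) t0) (c 2) (n (n (r 9 4) t1 (n (n (r 13 6) (c 4) (c 2)) (r 12 4) (n (c 2) (r 14 5) (c
  1)))) (r 8 2) (n (n (r 11 5) (n (c 4) (n (n (r 17 8) (n (c 2) (n (n (r 23 11) (n (c 2) (c 3) (r 26 8)) (n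
  (n (r 27 13) (n (r 28 12) (n (n (r 33 16) (n (c 2) (n (n (r 39 19) (n (c 2) (c 3) (c 6)) (n (c 10) (c 6) (n
  (n (r 45 22) (n (n (n (c 1) (n (n (n (c 1) (n (c 3) (r 59 11) (r 60 8)) (r 58 7)) (c 2) (n (r 56 15) (c 15)
  (n (n (r 61 5) (n (c 4) (n (n (r 67 8) (n (c 2) (n (n (r 73 11) (n (c 2) (c 3) (c 23)) (c 25)) (c 1) (r 72
  6)) (c 23)) (c 3)) (c 1) (r 66 3)) (r 64 2)) (n (c 2) (r 64 5) (n (n (r 67 8) (c 5) (n (c 2) (r 70 8) (c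
  3))) (r 66 6) (c 1)))) (r 60 3) (c 1)))) (r 53 8) (c 15)) (r 52 4)) (c 5) (c 13)) (n (c 5) (c 1) (r 50 3))
  (r 48 2)) (c 16)) (r 44 3) (c 1)))) (c 1) (r 38 6)) (r 36 5)) (c 10)) (c 1) (r 32 3)) (c 8)) (n (c 7) (c 8)
  (r 29 10))) (r 26 2) (n (n (c 7) (c 8) (n (c 2) (r 32 5) (n (n (r 35 17) (n (r 36 16) (c 6) (r 38 2)) (n (c
  2) (r 38 8) (c 3))) (r 34 6) (c 1)))) (r 28 3) (c 1)))) (c 1) (r 22 6)) (r 20 5)) (c 3)) (c 1) (r 16 3)) (r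
  14 2)) (n (c 2) (r 14 5) (n (n (r 17 8) (c 5) (n (c 2) (r 20 8) (c 3))) (r 16 6) (c 1)))) (r 10 3) (c 1))))
  (n (c 2) (c 1) (n (r 8 3) (n (r 10 4) (n (n (n (c 1) (n (n (n (c 1) (n (n (c 3) (c 2) (r 26 9)) (n (c 2) (c
  1) (c 6)) (r 24 8)) (r 22 7)) (c 2) (r 20 6)) (n (c 2) (c 1) (c 7)) (c 6)) (r 16 4)) (n (n (r 17 8) (n (c
  2) (n (c 2) (c 1) (c 7)) (c 7)) (r 18 5)) (n (n (r 19 9) (n (c 2) (n (c 3) (c 1) (c 8)) (r 22 7)) (c 7)) (c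
  1) (c 5)) (r 16 4)) (c 4)) (c 1) (n (c 4) (n (r 16 7) (n (c 5) (c 1) (c 3)) (c 2)) (n (r 16 7) (c 2) (c
  1)))) (n (r 12 5) (n (c 4) (n (n (n (c 1) (n (n (n (c 1) (n (n (c 3) (c 2) (r 30 9)) (n (c 2) (c 1) (c 6))
  (r 28 8)) (r 26 7)) (c 2) (r 24 6)) (n (c 2) (c 1) (n (r 26 3) (c 9) (c 8))) (c 8)) (r 20 4)) (c 5) (r 18
  3)) (c 1) (c 2)) (c 2)) (n (r 14 6) (c 2) (c 1)))) (n (r 10 4) (n (r 12 5) (n (c 4) (c 1) (c 2)) (n (r 14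
  6) (c 2) (n (r 16 7) (n (c 5) t3 (n (r 20 9) (c 2) (c 3))) (c 1)))) (c 1)))) (n (r 6 2) t5 (n (r 8 3) (n (c
  3) (n (r 12 5) (c 1) (c 2)) (n (r 12 5) (c 2) (n (c 4) (n (n (n (c 1) (n (n (n (c 1) (n (n (c 3) (c 2) (r
  30 8)) (n (c 2) (c 1) (r 30 8)) (n (r 30 2) t9 (c 6))) (r 26 6)) (c 2) (r 24 5)) (n (c 2) (c 1) (c 8)) (n
  (r 24 2) (c 8) (n (r 26 3) (c 9) (c 1)))) (c 7)) (c 5) (r 18 2)) (n (c 5) (c 1) (c 2)) (n (r 18 8) (c 2) (c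
  3))) (c 1)))) (c 1))))

def tE : T :=
  (n (c 1) t10 e)

def tO0 : T :=
  (c 1)

def t13 : T :=
  (n (n (c 1) (c 2) (n (n (n (c 1) (n (n (n (c 1) (n (n (n (c 1) (c 3) (c 8)) (c 2) (c 8)) (n (c 2) (c 1) (r
  23 7)) (r 21 6)) (c 5)) (n (n (n (c 1) (c 2) (c 8)) (c 2) (c 7)) (n (c 2) (c 1) (r 21 6)) (r 19 5)) (c 5))
  (n (n (n (c 1) (c 2) (c 7)) (r 17 8) (r 19 5)) (c 1) (r 17 4)) (r 15 3)) (n (n (n (c 1) (c 5) (c 3)) (c 5)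
  (c 2)) (r 15 6) (n (c 2) (r 17 7) (c 1)))) (r 11 4) (n (n (n (c 1) (c 5) (c 2)) (r 15 6) (c 2)) (r 13 5) (n
  (c 2) (r 15 6) (c 1)))) (r 9 3) (n (n (n (c 1) (n (n (n (c 1) (n (n (n (c 1) (c 3) (c 5)) (c 2) (c 9)) (n
  (c 2) (c 1) (r 25 7)) (c 4)) (n (n (n (c 1) (c 5) (c 7)) (c 9) (c 7)) (c 4) (c 6))) (n (n (n (c 1) (c 2) (c
  9)) (c 2) (c 4)) (n (c 2) (c 1) (r 23 6)) (r 21 5)) (r 19 4)) (n (n (n (c 1) (c 2) (c 4)) (r 19 9) (r 21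
  5)) (c 1) (r 19 4)) (r 17 3)) (c 2)) (r 13 5) (n (c 2) (r 15 6) (n (n (n (c 1) (c 6) (c 2)) (r 19 8) (n (c
  2) (r 21 9) (c 3))) (r 17 7) (c 1)))) (r 11 4) (c 1)))) (c 2) (n (n (n (c 1) (r 11 4) (n (n (n (c 1) (c 5)
  (n (c 3) (r 19 8) (n (c 2) (r 21 9) (c 1)))) (c 4) (c 2)) (c 4) (n (c 2) (r 15 6) (c 1)))) (n (n (n (c 1)
  (n (n (n (c 1) (n (c 3) (n (c 2) (c 1) (r 25 9)) (c 6)) (c 7)) (c 2) (n (c 7) (c 6) (n (c 8) (r 23 3) (c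
  1)))) (n (c 2) (c 1) (r 19 6)) (c 6)) (c 4)) (n (n (n (c 1) (c 2) (c 6)) (c 2) (c 6)) (n (c 2) (c 1) (r 17
  5)) (r 15 4)) (c 4)) (n (n (n (c 1) (c 2) (c 6)) (r 13 6) (c 5)) (c 1) (r 13 3)) (r 11 2)) (n (n (n (c 1)
  (c 4) (c 2)) (c 4) (c 2)) (r 11 4) (n (c 2) (r 13 5) (c 1)))) (r 7 2) (n (n (n (c 1) (r 13 5) (c 2)) (n (n
  (n (c 1) (n (n (n (c 1) (n (c 3) (n (c 2) (c 1) (r 27 9)) (r 25 8)) (r 23 7)) (c 2) (c 4)) (n (c 2) (c 1)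
  (r 21 6)) (c 7)) (r 17 4)) (n (n (n (c 1) (c 2) (c 4)) (c 2) (c 7)) (n (c 2) (c 1) (r 19 5)) (c 3)) (n (n
  (n (c 1) (c 4) (n (n (n (c 1) (r 27 7) (n (c 3) (r 29 8) (r 28 10))) (n (n (r 28 4) (r 27 13) (n (n (n (c
  1) (r 35 4) (n (n (n (c 1) (r 41 7) (n (c 3) (r 43 8) (r 42 17))) (c 10) (c 2)) (c 6) (r 36 14))) (c 4) (c
  6)) (r 31 2) (c 11))) (c 7) (r 27 2)) (c 2)) (r 23 5) (r 22 7))) (c 7) (c 5)) (c 3) (c 5))) (n (n (n (c 1)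
  (c 2) (c 7)) (r 15 7) (c 3)) (c 1) (r 15 3)) (r 13 2)) (n (c 2) (r 13 5) (n (n (n (c 1) (c 5) (c 2)) (c 5)
  (n (c 2) (r 19 8) (c 3))) (r 15 6) (c 1)))) (r 9 3) (c 1))))

def t14 : T :=
  (n (c 1) (n (n (n (c 1) (n (n (n (c 1) (c 3) (c 7)) (c 2) (c 7)) (r 22 9) (c 6)) (n (n (n (c 1) (c 7) (n (n
  (n (c 1) (n (n (c 6) (r 35 17) (r 37 4)) (r 34 15) (r 35 3)) (c 3)) (c 5) (c 2)) (r 29 6) (n (c 2) (r 31 7)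
  (c 1)))) (c 7) (n (n (n (c 1) (c 5) (c 2)) (r 29 6) (c 2)) (r 27 5) (n (c 2) (r 29 6) (c 1)))) (c 6) (n (n
  (n (c 1) (n (c 5) (r 30 13) (r 31 3)) (c 2)) (r 27 5) (n (c 2) (r 29 6) (n (n (n (c 1) (n (n (n (c 1) (n (n
  (n (c 1) (c 3) (n (r 47 18) (c 13) (c 6))) (c 2) (r 45 7)) (r 42 19) (r 43 6)) (n (n (n (c 1) (n (n (n (c
  1) (n (n (n (c 1) (c 3) (n (n (c 6) (r 63 4) (r 61 17)) (r 61 3) (r 60 15))) (c 2) (c 5)) (r 54 25) (r 55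
  6)) (c 7)) (c 13) (c 7)) (c 13) (c 6)) (n (n (n (c 1) (c 7) (c 3)) (c 7) (c 2)) (c 6) (r 48 9))) (r 45 4)
  (r 43 8)) (r 43 3) (n (n (n (c 1) (c 6) (c 2)) (c 6) (n (c 2) (r 49 6) (n (n (n (c 1) (n (n (c 9) (r 57 28)
  (c 8)) (r 56 26) (r 57 3)) (c 2)) (r 53 8) (n (c 2) (r 55 9) (c 3))) (r 51 7) (c 1)))) (r 45 4) (c 1)))) (r
  37 18) (r 39 4)) (r 36 16) (r 37 3)) (c 2)) (r 33 8) (n (c 2) (r 35 9) (c 3))) (r 31 7) (c 1)))) (r 25 4)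
  (c 1)))) (r 17 8) (r 19 4)) (n (n (n (c 1) (c 2) (c 6)) (n (c 2) (n (n (n (c 1) (c 2) (c 10)) (n (c 2) (c
  3) (r 29 9)) (c 9)) (c 1) (r 25 7)) (r 23 6)) (c 6)) (c 1) (r 19 4)) (r 17 3)) (n (n (n (c 1) (n (n (n (c
  1) (c 7) (n (n (n (c 1) (n (n (c 6) (r 35 17) (c 10)) (r 34 15) (c 9)) (n (n (n (c 1) (c 10) (c 3)) (c 10)
  (c 2)) (c 9) (n (c 2) (r 37 7) (c 1)))) (c 5) (n (n (n (c 1) (c 10) (c 2)) (c 9) (c 2)) (c 9) (n (c 2) (r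
  35 6) (c 1)))) (r 29 3) (n (n (n (c 1) (c 9) (c 2)) (c 9) (n (c 2) (r 35 6) (n (n (n (c 1) (n (c 7) (r 42
  19) (r 43 3)) (c 2)) (r 39 8) (n (c 2) (r 41 9) (c 3))) (r 37 7) (c 1)))) (r 31 4) (c 1)))) (c 7) (r 25 4))
  (c 6) (r 23 3)) (c 3)) (r 19 7) (c 2)) (r 17 6) (n (c 2) (r 19 7) (c 1))))

def t15 : T :=
  (n (n (c 1) (n (c 5) (n (n (n (c 1) (c 2) (c 4)) (n (c 2) (n (n (n (c 1) (c 2) (n (r 69 19) (c 24) (n (n (n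
  (c 1) (n (n (n (c 1) (n (n (n (c 1) (c 3) (c 30)) (c 2) (c 29)) (r 84 10) (c 4)) (c 27)) (r 79 9) (c 26))
  (n (n (n (c 1) (c 2) (c 4)) (n (c 2) (n (n (n (c 1) (c 2) (n (c 6) (r 93 3) (n (n (c 10) (c 9) (n (c 2) (r
  99 6) (n (n (n (c 1) (n (r 105 31) (c 7) (r 107 3)) (c 2)) (r 103 8) (n (c 2) (r 105 9) (c 3))) (r 101 7)
  (c 1)))) (r 95 4) (c 1)))) (n (c 2) (c 3) (r 91 9)) (c 5)) (c 1) (r 87 7)) (r 85 6)) (r 83 5)) (c 1) (r 81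
  4)) (r 79 3)) (c 2)) (r 75 5) (n (c 2) (r 77 6) (n (n (n (c 1) (n (r 83 20) (c 7) (r 85 3)) (c 2)) (r 81 8)
  (n (c 2) (r 83 9) (c 3))) (r 79 7) (c 1)))) (r 73 4) (c 1)))) (n (c 2) (c 3) (r 69 9)) (r 67 8)) (c 1) (r
  65 7)) (r 63 6)) (c 16)) (c 1) (r 59 4)) (r 57 3)) (c 2)) (r 53 5) (n (c 2) (r 55 6) (n (n (n (c 1) (n (n
  (n (c 1) (n (c 10) (r 68 32) (r 69 6)) (n (r 67 18) (r 69 3) (n (n (r 68 28) (c 6) (n (c 2) (r 75 6) (n (n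
  (n (c 1) (n (n (n (c 1) (n (n (n (c 1) (c 3) (n (n (n (c 1) (n (n (n (c 1) (n (n (n (c 1) (c 3) (n (n (n (c
  1) (n (n (n (c 1) (n (n (c 9) (c 2) (c 8)) (r 124 60) (r 125 6)) (c 6)) (c 8) (c 5)) (r 118 57) (c 30)) (n
  (n (n (c 1) (c 6) (c 3)) (c 5) (c 2)) (c 30) (c 14))) (r 115 4) (r 113 20)) (r 113 3) (n (n (n (c 1) (c 30)
  (c 2)) (c 30) (c 13)) (c 29) (c 1)))) (c 2) (r 109 7)) (r 106 51) (r 107 6)) (r 99 18)) (r 101 50) (c 5))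
  (r 100 48) (r 101 3)) (c 7)) (r 97 4) (c 7)) (r 95 3) (c 6))) (c 2) (r 91 7)) (r 88 42) (r 89 6)) (n (c 9)
  (r 89 3) (n (n (r 88 38) (c 6) (n (c 2) (r 95 6) (c 10))) (r 91 4) (c 1)))) (r 83 41) (c 8)) (r 82 39) (r
  83 3)) (c 2)) (r 79 8) (n (c 2) (r 81 9) (c 3))) (r 77 7) (c 1)))) (r 71 4) (c 1)))) (r 63 31) (r 65 4)) (r
  62 29) (r 63 3)) (c 2)) (r 59 8) (n (c 2) (r 61 9) (c 3))) (r 57 7) (c 1))))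

def t16 : T :=
  (n (c 1) (n (n (n (c 1) (n (n (n (c 1) (c 3) (n (n (c 6) (r 45 4) (n (n (n (c 1) (c 5) (c 2)) (r 49 6) (c
  2)) (r 47 5) (r 46 17))) (c 11) (r 42 15))) (c 2) (c 5)) (r 36 16) (r 37 6)) (n (n (n (c 1) (n (n (c 6) (r
  43 21) (c 5)) (c 11) (r 43 3)) (n (n (n (c 1) (c 6) (c 3)) (c 5) (c 2)) (r 43 6) (r 42 15))) (c 5) (n (n (n
  (c 1) (c 5) (c 2)) (r 43 6) (c 2)) (r 41 5) (r 40 14))) (r 37 3) (n (n (n (c 1) (n (c 5) (n (n (n (c 1) (c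
  2) (c 4)) (n (c 2) (n (n (n (c 1) (c 2) (n (r 57 16) (r 59 3) (n (n (n (c 1) (n (n (n (c 1) (c 21) (c 24))
  (r 67 9) (c 23)) (n (n (c 21) (n (c 2) (n (n (n (c 1) (c 2) (n (c 6) (r 81 3) (n (n (c 10) (c 9) (n (c 2)
  (r 87 6) (n (n (n (c 1) (n (c 18) (c 7) (r 95 3)) (c 2)) (r 91 8) (n (c 2) (r 93 9) (c 3))) (r 89 7) (c
  1)))) (r 83 4) (c 1)))) (n (c 2) (c 3) (r 79 9)) (c 5)) (c 1) (r 75 7)) (r 73 6)) (r 71 5)) (c 1) (r 69 4))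
  (r 67 3)) (c 2)) (r 63 5) (n (c 2) (r 65 6) (n (n (n (c 1) (n (c 25) (c 7) (r 73 3)) (c 2)) (r 69 8) (n (c
  2) (r 71 9) (c 3))) (r 67 7) (c 1)))) (r 61 4) (c 1)))) (n (c 2) (c 3) (r 57 9)) (r 55 8)) (c 1) (r 53 7))
  (r 51 6)) (c 13)) (c 1) (r 47 4)) (r 45 3)) (c 2)) (r 41 5) (n (c 2) (r 43 6) (n (n (n (c 1) (n (c 7) (r 50
  23) (r 51 3)) (c 2)) (r 47 8) (n (c 2) (r 49 9) (c 3))) (r 45 7) (c 1)))) (r 39 4) (c 1)))) (r 31 15) (r 33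
  4)) (r 30 13) (c 8)) (n (n (n (c 1) (n (n (n (c 1) (n (n (n (c 1) (c 3) (c 6)) (c 2) (c 5)) (c 11) (r 43
  6)) (n (n (n (c 1) (c 6) (n (n (n (c 1) (c 8) (c 3)) (c 8) (c 2)) (c 7) (r 48 18))) (c 5) (n (n (n (c 1) (c
  8) (c 2)) (c 7) (c 2)) (r 47 5) (r 46 17))) (r 43 3) (c 7))) (r 37 18) (r 39 4)) (r 36 16) (r 37 3)) (c 3))
  (r 33 7) (c 2)) (c 8) (r 30 9)))

def t17 : T :=
  (n (c 1) (n (n (n (c 1) (n (n (n (c 1) (c 3) (n (n (c 6) (r 51 4) (r 49 17)) (r 49 3) (r 48 15))) (c 2) (c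
  5)) (r 42 19) (r 43 6)) (n (n (n (c 1) (n (n (c 6) (r 49 24) (c 5)) (r 48 22) (r 49 3)) (n (n (n (c 1) (c
  6) (c 3)) (c 5) (c 2)) (r 49 6) (r 48 15))) (c 5) (r 43 14)) (r 43 3) (n (n (n (c 1) (n (c 5) (r 50 23) (r
  51 3)) (c 2)) (r 47 5) (n (c 2) (r 49 6) (n (n (n (c 1) (n (c 7) (n (n (n (c 1) (c 2) (c 16)) (n (c 2) (n
  (n (n (c 1) (c 2) (n (r 69 19) (r 71 3) (n (n (n (c 1) (n (r 77 20) (n (n (n (c 1) (c 2) (c 4)) (n (c 2) (n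
  (n (n (c 1) (c 2) (n (c 6) (r 93 3) (n (n (n (c 1) (n (r 99 31) (n (n (n (c 1) (c 2) (c 4)) (n (c 2) (n (c
  11) (c 1) (r 109 7)) (r 107 6)) (r 105 5)) (c 1) (r 103 4)) (c 19)) (c 2)) (c 9) (n (c 2) (r 99 6) (n (n (n
  (c 1) (n (c 19) (c 7) (r 107 3)) (c 2)) (r 103 8) (n (c 2) (r 105 9) (c 3))) (r 101 7) (c 1)))) (r 95 4) (c
  1)))) (n (c 2) (c 3) (r 91 9)) (c 5)) (c 1) (r 87 7)) (r 85 6)) (r 83 5)) (c 1) (r 81 4)) (c 27)) (c 2)) (r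
  75 5) (n (c 2) (r 77 6) (n (n (n (c 1) (n (n (n (c 1) (n (n (c 28) (c 2) (c 29)) (r 90 13) (r 91 6)) (c
  30)) (c 7) (c 29)) (c 7) (r 85 3)) (c 2)) (r 81 8) (n (c 2) (r 83 9) (c 3))) (r 79 7) (c 1)))) (r 73 4) (c
  1)))) (n (c 2) (c 3) (r 69 9)) (r 67 8)) (c 1) (r 65 7)) (r 63 6)) (c 16)) (c 1) (r 59 4)) (r 57 3)) (c 2))
  (r 53 8) (n (c 2) (r 55 9) (c 3))) (r 51 7) (c 1)))) (r 45 4) (c 1)))) (r 37 18) (r 39 4)) (r 36 16) (c 6))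
  (n (n (n (c 1) (n (n (n (c 1) (n (n (n (c 1) (c 3) (c 6)) (c 2) (c 5)) (r 48 22) (r 49 6)) (n (n (n (c 1)
  (c 6) (n (n (n (c 1) (c 8) (c 3)) (r 57 7) (c 2)) (c 7) (r 54 18))) (c 5) (r 49 17)) (r 49 3) (n (n (n (c
  1) (c 7) (c 2)) (r 53 5) (n (c 2) (r 55 6) (n (n (n (c 1) (n (c 7) (c 16) (r 63 3)) (c 2)) (r 59 8) (n (c
  2) (r 61 9) (c 3))) (r 57 7) (c 1)))) (r 51 4) (c 1)))) (r 43 21) (r 45 4)) (r 42 19) (r 43 3)) (c 3)) (r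
  39 7) (c 2)) (c 6) (r 36 9)))

def t18 : T :=
  (n (c 1) (n (n (n (c 1) (c 3) (n (n (n (c 1) (n (n (n (c 1) (n (n (n (c 1) (c 3) (n (n (n (c 1) (n (n (n (c
  1) (n (n (c 9) (c 2) (c 8)) (r 66 31) (r 67 6)) (c 6)) (c 8) (c 5)) (r 60 28) (r 61 3)) (n (n (n (c 1) (c
  6) (c 3)) (c 5) (c 2)) (r 61 6) (r 60 21))) (r 57 4) (r 55 20)) (r 55 3) (n (n (n (c 1) (n (c 5) (r 62 29)
  (r 63 3)) (c 2)) (r 59 5) (n (c 2) (r 61 6) (n (n (n (c 1) (n (n (n (c 1) (n (c 10) (r 74 35) (c 19)) (n (r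
  73 18) (c 19) (n (n (n (c 1) (c 6) (c 2)) (c 6) (n (c 2) (r 81 6) (n (n (n (c 1) (c 13) (c 2)) (r 85 8) (n
  (c 2) (r 87 9) (c 3))) (r 83 7) (c 1)))) (r 77 4) (c 1)))) (r 69 34) (r 71 4)) (n (n (n (c 1) (c 2) (c 19))
  (n (c 2) (n (n (n (c 1) (c 2) (n (r 81 22) (r 83 3) (n (n (c 8) (r 87 5) (n (c 2) (c 30) (n (n (n (c 1) (n
  (n (n (c 1) (n (n (n (c 1) (c 3) (c 36)) (c 2) (c 35)) (r 102 13) (r 103 6)) (c 33)) (c 7) (c 32)) (c 7) (r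
  97 3)) (c 2)) (r 93 8) (n (c 2) (r 95 9) (c 3))) (r 91 7) (c 1)))) (r 85 4) (c 1)))) (n (c 2) (c 3) (r 81
  9)) (r 79 8)) (c 1) (r 77 7)) (r 75 6)) (c 19)) (c 1) (r 71 4)) (r 69 3)) (c 2)) (r 65 8) (n (c 2) (r 67 9)
  (c 3))) (r 63 7) (c 1)))) (r 57 4) (c 1)))) (c 2) (r 51 7)) (r 48 22) (r 49 6)) (n (n (c 6) (r 51 4) (r 49
  17)) (r 49 3) (r 48 15))) (r 43 21) (c 5)) (r 42 19) (r 43 3)) (n (n (n (c 1) (n (n (c 6) (r 49 24) (r 51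
  4)) (r 48 22) (r 49 3)) (c 3)) (c 5) (c 2)) (r 43 6) (r 42 12))) (r 39 4) (r 37 11)) (r 37 3) (c 6))) (c 2)
  (r 33 7)) (r 30 13) (r 31 6)) (n (n t17 (r 33 4) (r 31 8)) (r 31 3) (n (n (n (c 1) (c 6) (c 2)) (r 35 5) (n
  (c 2) (r 37 6) (n (n (n (c 1) (c 11) (c 2)) (c 11) (n (c 2) (r 43 9) (c 3))) (c 10) (c 1)))) (r 33 4) (c
  1))))

def t19 : T :=
  (n (n (c 1) (n (n (n (c 1) (n (n (n (c 1) (c 3) (n (n (n (c 1) (n (n (n (c 1) (n (n (n (c 1) (c 3) (n (n (n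
  (c 1) (n (n (n (c 1) (n (n (c 9) (c 2) (c 8)) (r 60 28) (r 61 6)) (c 6)) (c 8) (c 5)) (c 14) (r 55 3)) (n
  (n (n (c 1) (c 6) (c 3)) (c 5) (c 2)) (r 55 6) (r 54 21))) (r 51 4) (n (n (n (c 1) (c 5) (c 2)) (r 55 6) (c
  2)) (r 53 5) (r 52 20))) (r 49 3) (n t15 (r 51 4) (c 1)))) (c 2) (r 45 7)) (r 42 19) (c 11)) (n (n (c 6) (r
  45 4) (n (n (n (c 1) (c 5) (c 2)) (r 49 6) (c 2)) (r 47 5) (r 46 17))) (c 11) (r 42 15))) (r 37 18) (c 5))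
  (r 36 16) (r 37 3)) (n (n (n (c 1) (n (n (c 6) (r 43 21) (r 45 4)) (c 11) (r 43 3)) (c 3)) (c 5) (c 2)) (r
  37 6) (r 36 12))) (r 33 4) (n (n (n (c 1) (c 5) (c 2)) (r 37 6) (c 2)) (r 35 5) (r 34 11))) (r 31 3) (c
  8))) (c 2) (r 27 7)) (r 24 10) (c 4)) (n (n t16 (r 27 4) (n (n (n (c 1) (n (n (n (c 1) (n (n (n (c 1) (c 3)
  (c 5)) (c 2) (c 5)) (c 11) (r 41 6)) (n (n (n (c 1) (c 5) (n (n (n (c 1) (c 8) (c 3)) (c 7) (c 2)) (c 7) (r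
  46 17))) (c 5) (c 7)) (r 41 3) (n (c 7) (r 43 4) (c 1)))) (r 35 17) (r 37 4)) (r 34 15) (r 35 3)) (c 2)) (c
  8) (c 2)) (c 8) (r 28 8))) (c 4) (n (n (n (c 1) (c 8) (c 2)) (c 8) (n (c 2) (r 31 6) (n (n (n (c 1) (c 6)
  (c 2)) (r 35 8) (n (c 2) (r 37 9) (c 3))) (r 33 7) (c 1)))) (c 7) (c 1)))) (r 19 9) (r 21 4)) (n (n (n (c
  1) (c 2) (c 4)) (n (c 2) (n (n (n (c 1) (c 2) (c 11)) (n (c 2) (c 3) (r 31 9)) (c 5)) (c 1) (r 27 7)) (r 25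
  6)) (r 23 5)) (c 1) (r 21 4)) (r 19 3)) (c 2)) (r 15 5) (n (c 2) (r 17 6) (n (n (n (c 1) (n (n t18 (c 7) (r
  27 4)) (c 7) (r 25 3)) (c 2)) (r 21 8) (n (c 2) (r 23 9) (c 3))) (r 19 7) (c 1))))

def t20 : T :=
  (n (n (n (c 1) (c 4) (n (n (n (c 1) (r 37 7) (n (c 3) (c 6) (r 38 10))) (n (n (r 38 4) (r 37 18) (c 6)) (r
  36 16) (r 37 2)) (c 2)) (r 33 5) (r 32 7))) (n (c 4) (n (n (n (c 1) (c 2) (r 37 5)) (n (c 2) (n (n (n (c 1)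
  (c 2) (r 43 8)) (n (c 2) (c 3) (r 43 8)) (n (n (n (c 1) (r 47 4) (c 12)) (n (n (n (c 1) (n (n (n (c 1) (n
  (c 3) (r 58 10) (r 59 8)) (r 57 7)) (c 2) (n (n (r 58 4) (n (n (n (c 1) (c 8) (r 65 4)) (r 61 13) (c 4)) (c
  7) (r 61 2)) (n (n (r 62 6) (c 4) (c 2)) (r 61 4) (c 17))) (r 57 2) (c 17))) (r 52 7) (c 5)) (c 9)) (r 47
  6) (c 17)) (n (n (n (c 1) (c 2) (c 5)) (n (c 2) (n (n (n (c 1) (c 2) (c 7)) (n (c 2) (c 3) (c 6)) (n (c 7)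
  (c 6) (r 58 20))) (c 1) (r 55 6)) (r 53 5)) (c 5)) (c 1) (r 49 3)) (c 8)) (c 12)) (r 43 2) (r 42 12))) (c
  1) (r 39 6)) (r 37 5)) (n (n (n (c 1) (r 41 4) (n (n (n (c 1) (r 47 7) (n (c 3) (r 49 8) (r 48 15))) (c 4)
  (c 2)) (c 7) (r 42 12))) (n (n (n (c 1) (n (n (n (c 1) (n (c 3) (r 52 10) (c 6)) (r 51 7)) (c 2) (n (n (r
  52 4) (c 6) (n (n (r 56 6) (c 4) (c 2)) (r 55 4) (c 14))) (c 9) (c 7))) (r 46 7) (c 12)) (c 4)) (r 41 20)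
  (c 7)) (n (n (n (c 1) (c 2) (c 12)) (r 43 21) (c 12)) (c 1) (r 43 3)) (c 3)) (c 10)) (r 37 2) (c 10))) (c
  1) (r 33 3)) (r 31 2)) (n (n (n (c 1) (r 35 6) (c 2)) (n (n (n (c 1) (n (n (n (c 1) (n (c 3) (r 46 21) (r
  47 8)) (r 45 7)) (c 2) (c 4)) (r 40 18) (c 4)) (c 6)) (r 35 17) (n (c 6) (c 10) (c 5))) (r 34 15) (c 5)) (c
  2)) (r 31 4) (r 30 6))) (c 3) (n (n (n (c 1) (r 33 5) (c 2)) (n (n (n (c 1) (n (n (n (c 1) (n (c 3) (r 44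
  20) (r 45 8)) (r 43 7)) (c 2) (c 4)) (r 38 17) (c 10)) (r 37 4)) (r 33 16) (c 5)) (r 32 14) (r 33 2)) (n (c
  2) (r 33 5) (n (n (n (c 1) (c 5) (c 2)) (c 5) (n (c 2) (r 39 8) (c 3))) (r 35 6) (c 1)))) (r 29 3) (c 1)))

def t21 : T :=
  (n (n (c 1) (n (n (n (c 1) (n (c 3) (r 24 10) (r 25 8)) (r 23 7)) (c 2) (n (n (r 24 4) (n (n (n (c 1) (c 8)
  (r 31 4)) (c 8) (c 4)) (c 7) (r 27 2)) (n (n (r 28 6) (c 4) (c 2)) (r 27 4) (n (c 2) (r 29 5) (c 1)))) (r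
  23 2) (n (n (r 26 5) (n (c 4) (r 28 12) (r 29 2)) (n (c 2) (r 29 5) (n (n (r 32 8) (n (n (n (c 1) (n (n (n
  (c 1) (n (c 3) (r 46 21) (r 47 8)) (r 45 7)) (c 2) (n (n (r 46 4) (n (n (n (c 1) (n (n (n (c 1) (n (c 3) (r
  60 28) (r 61 8)) (r 59 7)) (c 2) (c 8)) (r 54 25) (c 8)) (r 53 4)) (c 13) (c 4)) (c 13) (r 49 2)) (c 6)) (r
  45 2) (c 5))) (r 40 18) (r 41 5)) (r 39 4)) (r 35 17) (n (r 37 14) (r 39 2) (n (n (r 42 13) (c 5) (n (c 2)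
  (r 45 5) (n (n (r 48 16) (n (n (n (c 1) (n (n (n (c 1) (n (c 3) (r 62 29) (c 16)) (r 61 7)) (c 2) (n (n (r
  62 4) (c 16) (r 61 9)) (c 16) (c 5))) (r 56 26) (r 57 5)) (c 7)) (r 51 25) (n (c 7) (r 55 2) (n (n (r 58
  21) (c 5) (n (c 2) (c 6) (c 8))) (r 57 3) (c 1)))) (r 50 23) (c 6)) (n (c 2) (c 6) (c 3))) (r 47 6) (c
  1)))) (r 41 3) (c 1)))) (r 34 15) (r 35 2)) (n (c 2) (r 35 8) (c 3))) (r 31 6) (c 1)))) (r 25 3) (c 1))))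
  (r 18 7) (c 5)) (r 17 4)) (r 13 6) (n (n (n (c 1) (r 21 4) (n (n (n (c 1) (r 27 7) (n (c 3) (r 29 8) (n (c
  2) (r 31 9) (c 1)))) (c 4) (c 2)) (r 23 5) (n (c 2) (r 25 6) (c 1)))) (c 5) (n (n (n (c 1) (c 4) (c 2)) (n
  (c 4) (r 24 10) (r 25 2)) (c 2)) (r 21 4) (n (c 2) (r 23 5) (c 1)))) (c 5) (n (n (n (c 1) (r 23 5) (c 2))
  (n (n (n (c 1) (n (n (n (c 1) (n (c 3) (r 34 15) (r 35 8)) (r 33 7)) (c 2) (c 4)) (r 28 12) (r 29 5)) (r 27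
  4)) (r 23 11) t20) (r 22 9) (r 23 2)) (n (c 2) (r 23 5) (n (n (n (c 1) (r 29 8) (c 2)) (n (n (n (c 1) (n (n
  (n (c 1) (n (c 3) (r 40 18) (r 41 8)) (r 39 7)) (c 2) (n (r 37 14) (c 10) (c 5))) (r 34 15) (r 35 5)) (r 33
  4)) (r 29 14) (n (n (n (c 1) (r 37 4) (n (n (n (c 1) (r 43 7) (n (c 3) (r 45 8) (r 44 10))) (n (n (r 44 4)
  (r 43 21) (n (n (n (c 1) (r 51 4) (c 8)) (c 4) (r 47 13)) (r 47 2) (c 7))) (r 42 19) (r 43 2)) (c 2)) (c 5)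
  (r 38 7))) (n (n (n (c 1) (n (n (n (c 1) (n (c 3) (r 48 22) (r 49 8)) (r 47 7)) (c 2) (c 4)) (r 42 19) (r
  43 5)) (r 41 4)) (c 10) (c 5)) (c 10) (c 5)) (r 33 6)) (r 33 2) (n (n (n (c 1) (c 5) (c 2)) (c 5) (n (c 2)
  (r 39 5) (n (n (n (c 1) (c 7) (c 2)) (n (c 7) (r 44 20) (c 6)) (n (c 2) (c 6) (c 3))) (r 41 6) (c 1)))) (r
  35 3) (c 1)))) (r 28 12) (r 29 2)) (n (c 2) (r 29 8) (c 3))) (r 25 6) (c 1)))) (r 19 3) (c 1))))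

def t22 : T :=
  (n (n (c 1) (r 13 4) (n (n (n (c 1) (r 19 7) (n (c 3) (r 21 8) (n (c 2) (r 23 9) (c 1)))) (n (n (r 20 4) (c
  6) (n (n (n (c 1) (r 27 4) (n (n (n (c 1) (r 33 7) (n (c 3) (r 35 8) (n (c 2) (r 37 9) (c 1)))) (c 8) (c
  2)) (c 8) (n (c 2) (r 31 6) (c 1)))) (c 4) (n (n (r 28 8) (c 8) (c 2)) (r 27 4) (n (c 2) (r 29 5) (c 1))))
  (r 23 2) (n (n (r 26 7) (n (c 8) (r 28 12) (r 29 2)) (n (c 2) (r 29 5) (n (n (r 32 10) (n (n (c 6) (r 35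
  17) (n (n (n (c 1) (r 43 4) (n (n (n (c 1) (r 49 7) (n (c 3) (r 51 8) (r 50 10))) (n (n (r 50 4) (c 13) (n
  (n (n (c 1) (r 57 4) (c 8)) (c 4) (c 8)) (r 53 2) (c 7))) (c 13) (r 49 2)) (c 2)) (c 5) (r 44 7))) (n (n (r
  44 16) (r 43 21) (c 5)) (r 42 19) (c 5)) (r 39 6)) (r 39 2) (n (n (r 42 15) (c 5) (n (c 2) (r 45 5) (n (n
  (r 48 18) (n (c 7) (r 50 23) (c 6)) (n (c 2) (c 6) (c 3))) (r 47 6) (c 1)))) (r 41 3) (c 1)))) (r 34 15) (r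
  35 2)) (n (c 2) (r 35 8) (c 3))) (r 31 6) (c 1)))) (r 25 3) (c 1)))) (c 5) (r 19 2)) (c 2)) (r 15 5) (n (c
  2) (r 17 6) (c 1)))) (n t21 (n (n (n (c 1) (c 2) (c 5)) (n (c 2) (n (n (n (c 1) (c 2) (c 8)) (n (c 2) (c 3)
  (c 6)) (c 8)) (c 1) (r 21 6)) (c 6)) (c 5)) (c 1) (r 15 3)) (r 13 2)) (n (n (n (c 1) (r 17 6) (c 2)) (n (n
  (n (c 1) (n (n (n (c 1) (n (c 3) (r 28 12) (r 29 8)) (r 27 7)) (c 2) (c 4)) (r 22 9) (r 23 5)) (r 21 4)) (c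
  5) (n (n (n (c 1) (c 4) (n (n (n (c 1) (r 31 7) (n (c 3) (r 33 8) (n (c 2) (r 35 9) (c 1)))) (n (n (r 32 4)
  (r 31 15) (n (n (n (c 1) (r 39 4) (n (n (n (c 1) (c 7) (n (c 3) (r 47 8) (n (c 2) (r 49 9) (c 1)))) (n (c
  7) (c 8) (c 6)) (c 2)) (c 6) (n (c 2) (r 43 6) (c 1)))) (c 4) (c 6)) (r 35 2) (n (c 6) (r 37 3) (c 1)))) (r
  30 13) (r 31 2)) (c 2)) (c 7) (n (c 2) (r 29 6) (c 1)))) (n (c 4) (r 24 10) (c 7)) (n (n (n (c 1) (r 29 6)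
  (c 2)) (c 7) (c 2)) (c 7) (n (c 2) (r 27 5) (c 1)))) (r 21 2) (n (n (n (c 1) (c 7) (c 2)) (c 7) (r 23 6))
  (r 23 3) (c 1)))) (c 5) (r 17 2)) (c 2)) (r 13 4) (n (c 2) (r 15 5) (c 1))))

def t23 : T :=
  (n (n (c 1) (n (c 3) (r 40 18) (r 41 8)) (r 39 7)) (c 2) (n (n (r 40 4) (n (n (n (c 1) (n (c 7) (r 48 22)
  (r 49 5)) (r 47 4)) (r 43 21) (c 4)) (c 11) (r 43 2)) (n (n (r 44 6) (c 4) (c 2)) (r 43 4) (r 42 16))) (r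
  39 2) (n (n (r 42 5) (n (c 4) (n (n (r 48 8) (n (c 2) (n (n (r 54 11) (n (c 2) (c 3) (r 57 8)) (n (c 15) (r
  57 2) (n (n (r 60 14) (n (n (n (c 1) (n (n (n (c 1) (n (c 3) (r 74 11) (c 24)) (c 24)) (c 2) (c 24)) (r 68
  8) (r 69 5)) (r 67 4)) (r 63 7) (c 21)) (n (n (r 66 17) (n (c 2) (n (n (r 72 20) (n (c 2) (c 3) (r 75 8))
  (n (c 5) (r 75 2) (n (c 8) (c 7) (c 1)))) (c 1) (c 4)) (r 69 5)) (c 3)) (c 1) (r 65 3)) (r 63 2)) (n (c 2)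
  (r 63 5) (n (n (r 66 17) (n (r 67 16) (c 6) (r 69 2)) (n (c 2) (r 69 8) (c 3))) (r 65 6) (c 1)))) (r 59 3)
  (c 1)))) (c 1) (r 53 6)) (r 51 5)) (c 3)) (c 1) (r 47 3)) (r 45 2)) (n (c 2) (r 45 5) (n (n (r 48 8) (n (n
  (n (c 1) (c 8) (r 55 4)) (r 51 25) (n (r 53 14) (r 55 2) (n (n (r 58 13) (c 5) (n (c 2) (r 61 5) (n (n (r
  64 16) (n (n (n (c 1) (n (n (n (c 1) (n (c 3) (r 78 37) (r 79 8)) (r 77 7)) (c 2) (n (n (r 78 4) (n (n (n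
  (c 1) (n (n (n (c 1) (n (c 3) (r 92 44) (r 93 8)) (r 91 7)) (c 2) (n (n (r 92 4) (n (n (n (c 1) (n (c 7) (r
  100 48) (r 101 5)) (r 99 4)) (r 95 47) (c 4)) (r 94 45) (c 24)) (r 91 16)) (r 91 2) (n (n (r 94 5) (c 24)
  (c 11)) (c 24) (c 1)))) (r 86 41) (r 87 5)) (r 85 4)) (r 81 40) (c 4)) (r 80 38) (r 81 2)) (r 77 9)) (r 77
  2) (c 5))) (r 72 34) (r 73 5)) (c 7)) (r 67 33) (n (c 7) (r 71 2) (n (n (r 74 21) (c 5) (n (c 2) (c 6) (c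
  8))) (r 73 3) (c 1)))) (r 66 31) (c 6)) (n (c 2) (c 6) (c 3))) (r 63 6) (c 1)))) (r 57 3) (c 1)))) (r 50
  23) (r 51 2)) (n (c 2) (r 51 8) (c 3))) (r 47 6) (c 1)))) (r 41 3) (c 1))))

def t24 : T :=
  (n (n (c 1) (r 23 4) (n (n (n (c 1) (r 29 7) (n (c 3) (r 31 8) (r 30 10))) (n (n (r 30 4) (r 29 14) (n (n
  (n (c 1) (r 37 4) (n (n (n (c 1) (r 43 7) (n (c 3) (r 45 8) (r 44 17))) (n (n (r 44 4) (r 43 21) (n (n (c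
  7) (c 4) (n (c 7) (c 13) (r 50 20))) (r 47 2) (n (n (c 7) (c 13) (n (c 2) (r 53 5) (n (n (r 56 10) (n (n (c
  6) (r 59 29) (n (c 8) (r 63 2) (n (n (r 66 15) (c 5) (n (c 2) (r 69 5) (n (n (r 72 18) (n (c 7) (r 74 35)
  (c 6)) (n (c 2) (c 6) (c 3))) (r 71 6) (c 1)))) (r 65 3) (c 1)))) (r 58 27) (r 59 2)) (n (c 2) (r 59 8) (c
  3))) (r 55 6) (c 1)))) (c 13) (c 1)))) (c 11) (c 6)) (c 2)) (c 6) (r 38 14))) (c 4) (n (n (r 38 8) (c 6) (c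
  2)) (r 37 4) (r 36 13))) (r 33 2) (n (n (r 36 7) (n (c 6) (c 10) (r 39 2)) (n (c 2) (r 39 5) (n (n (r 42
  10) (n (n (c 6) (r 45 22) (c 7)) (r 44 20) (r 45 2)) (n (c 2) (r 45 8) (c 3))) (r 41 6) (c 1)))) (r 35 3)
  (c 1)))) (r 28 12) (r 29 2)) (c 2)) (r 25 5) (r 24 7))) (n (n (n (c 1) (n (n (n (c 1) (n (c 3) (r 34 15) (r
  35 8)) (r 33 7)) (c 2) (c 4)) (r 28 12) (r 29 5)) (r 27 4)) (r 23 11) (n (n (n (c 1) (c 4) (n (n (n (c 1)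
  (r 37 7) (n (c 3) (c 6) (r 38 14))) (c 4) (c 2)) (c 4) (r 32 11))) (n (c 4) (c 8) (r 31 2)) (n (n (n (c 1)
  (c 4) (c 2)) (c 4) (c 2)) (r 31 4) (r 30 10))) (r 27 2) (n (n (n (c 1) (c 4) (c 2)) (n (c 4) (n (n (n (c 1)
  (c 2) (c 7)) (n (c 2) (n (n (n (c 1) (c 2) (c 12)) (n (c 2) (c 3) (r 45 8)) (n (c 12) (r 45 2) (n (n (c 7)
  (n (n (n (c 1) (n (c 17) (r 56 8) (c 18)) (c 18)) (c 16) (c 18)) (n (c 16) (c 1) (r 53 3)) (r 51 2)) (n (c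
  2) (r 51 5) (n (n (n (c 1) (r 57 8) (c 2)) (c 19) (n (c 2) (r 57 8) (c 3))) (r 53 6) (c 1)))) (r 47 3) (c
  1)))) (c 1) (r 41 6)) (r 39 5)) (c 3)) (c 1) (r 35 3)) (r 33 2)) (n (c 2) (r 33 5) (n (n (n (c 1) (r 39 8)
  (c 2)) (c 5) (n (c 2) (r 39 8) (c 3))) (r 35 6) (c 1)))) (r 29 3) (c 1)))) (r 22 9) (c 6)) (n (n (n (c 1)
  (r 27 6) (c 2)) (n (n (n (c 1) (n (n (n (c 1) (n (c 3) (r 38 17) (r 39 8)) (r 37 7)) (c 2) (c 4)) (r 32 14)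
  (c 4)) (r 31 4)) (r 27 13) (n (n (n (c 1) (c 4) (n (n (n (c 1) (r 41 7) (n (c 3) (c 6) (r 42 16))) (c 6) (c
  2)) (r 37 5) (r 36 13))) (c 4) (n (n (n (c 1) (c 6) (c 2)) (n (c 6) (c 7) (r 39 2)) (c 2)) (c 5) (r 34
  12))) (r 31 2) (c 5))) (r 26 11) (r 27 2)) (c 2)) (c 6) (r 22 6)))

def t25 : T :=
  (n (n (c 1) (n (c 3) (r 46 21) (r 47 8)) (r 45 7)) (c 2) (n (n (r 46 4) (n (n (n (c 1) (n (c 7) (r 54 25)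
  (r 55 5)) (r 53 4)) (r 49 24) (c 4)) (r 48 22) (r 49 2)) (r 45 16)) (r 45 2) (n (n (r 48 5) (n (c 4) (r 50
  23) (r 51 2)) (n (c 2) (r 51 5) (n (n (r 54 8) (n (n (n (c 1) (c 8) (r 61 4)) (r 57 28) (n (r 59 14) (c 16)
  (n (n (r 64 13) (c 5) (n (c 2) (r 67 5) (n (n (r 70 16) (n (c 11) (r 72 34) (c 6)) (n (c 2) (c 6) (c 3)))
  (r 69 6) (c 1)))) (r 63 3) (c 1)))) (n (n (c 8) (n (c 2) (n (n (r 66 14) (n (c 2) (c 3) (r 69 8)) (n (c 18)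
  (r 69 2) (n (n (c 7) (n (r 73 16) (n (n (r 78 20) (n (c 2) (n (n (r 84 23) (n (c 2) (c 3) (r 87 8)) (n (c
  5) (r 87 2) (n (n (r 90 26) (n (c 8) (n (n (r 96 29) (n (c 2) (c 9) (r 99 5)) (c 3)) (c 1) (r 95 3)) (r 93
  2)) (n (c 2) (r 93 5) (n (n (r 96 29) (n (n (c 17) (c 6) (n (r 101 35) (r 103 2) (n (n (r 106 34) (r 102
  16) (n (c 2) (r 109 5) (n (n (r 112 37) (n (n (r 116 39) (r 115 18) (n (r 117 43) (r 119 2) (n (n (r 122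
  42) (c 5) (n (c 2) (c 6) (n (c 8) (r 127 6) (c 1)))) (r 121 3) (c 1)))) (n (n (r 118 40) (c 12) (n (r 119
  44) (r 121 2) (n (c 5) (r 123 3) (c 1)))) (c 1) (r 117 3)) (c 6)) (n (c 2) (c 6) (c 3))) (r 111 6) (c 1))))
  (r 105 3) (c 1)))) (c 6) (r 99 2)) (n (c 2) (r 99 8) (c 3))) (r 95 6) (c 1)))) (c 7) (c 1)))) (c 1) (c 4))
  (r 81 5)) (c 3)) (c 1) (r 77 3)) (r 75 2)) (n (c 2) (r 75 5) (n (n (r 78 20) (n (n (n (c 1) (n (n (n (c 1)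
  (n (c 3) (r 92 14) (c 30)) (c 30)) (c 2) (c 30)) (r 86 11) (r 87 5)) (r 85 4)) (c 6) (c 27)) (c 6) (r 81
  2)) (n (c 2) (r 81 8) (c 3))) (r 77 6) (c 1)))) (r 71 3) (c 1)))) (c 1) (r 65 6)) (r 63 5)) (c 16)) (c 1)
  (r 59 3)) (r 57 2)) (n (c 2) (r 57 8) (c 3))) (r 53 6) (c 1)))) (r 47 3) (c 1))))

def t26 : T :=
  (n (n (c 1) (r 15 5) (c 2)) (n (n (n (c 1) (n (n (n (c 1) (n (c 3) (r 26 11) (r 27 8)) (r 25 7)) (c 2) (n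
  (n (r 26 4) (n (n (n (c 1) (n t23 (r 34 15) (c 9)) (r 33 4)) (r 29 14) (c 4)) (r 28 12) (r 29 2)) (n (n (r
  30 6) (c 4) (c 2)) (r 29 4) (r 28 9))) (r 25 2) (n (n (r 28 5) (n (c 4) (c 8) (r 31 2)) (n (c 2) (r 31 5)
  (n (n (r 34 8) (c 5) (n (c 2) (r 37 8) (c 3))) (r 33 6) (c 1)))) (r 27 3) (c 1)))) (r 20 8) (r 21 5)) (r 19
  4)) (r 15 7) (n t24 (c 3) (n (n (n (c 1) (r 25 5) (c 2)) (c 6) (n (c 2) (r 25 5) (n (n (n (c 1) (c 5) (c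
  2)) (n (c 5) (r 30 13) (r 31 2)) (n (c 2) (r 31 8) (c 3))) (r 27 6) (c 1)))) (c 6) (c 1)))) (n (n (n (c 1)
  (c 2) (r 21 5)) (n (c 2) (n (n (n (c 1) (c 2) (c 5)) (n (c 2) (c 3) (r 27 8)) (c 9)) (c 1) (c 4)) (r 21 5))
  (c 3)) (c 1) (r 17 3)) (r 15 2)) (n (c 2) (r 15 5) (n (n (n (c 1) (r 21 8) (c 2)) (n (n (n (c 1) (n (n (n
  (c 1) (n (c 3) (r 32 14) (r 33 8)) (r 31 7)) (c 2) (n (n (r 32 4) (n (n (n (c 1) (n t25 (r 40 18) (r 41 5))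
  (r 39 4)) (r 35 17) (c 4)) (r 34 15) (r 35 2)) (r 31 9)) (r 31 2) (c 5))) (r 26 11) (r 27 5)) (r 25 4)) (c
  6) (n (n (n (c 1) (r 29 4) (n (n (n (c 1) (r 35 7) (n (c 3) (r 37 8) (r 36 10))) (n (n (r 36 4) (r 35 17)
  (n (n (n (c 1) (r 43 4) (n (n (n (c 1) (r 49 7) (n (c 3) (r 51 8) (r 50 17))) (n (n (r 50 4) (r 49 24) (n
  (n (c 7) (c 4) (r 53 20)) (r 53 2) (n (n (c 7) (n (n (c 7) (r 59 29) (n (c 6) (c 3) (c 16))) (r 58 27) (r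
  59 2)) (n (c 2) (r 59 5) (n (n (r 62 10) (c 16) (n (c 2) (r 65 8) (c 3))) (c 16) (c 1)))) (c 14) (c 1))))
  (r 48 22) (c 6)) (c 2)) (c 6) (r 44 14))) (c 4) (r 39 13)) (r 39 2) (n (n (r 42 7) (n (c 6) (r 44 20) (r 45
  2)) (n (c 2) (r 45 5) (n (n (r 48 10) (n (n (c 6) (c 14) (c 7)) (c 13) (r 51 2)) (n (c 2) (r 51 8) (c 3)))
  (r 47 6) (c 1)))) (r 41 3) (c 1)))) (r 34 15) (r 35 2)) (c 2)) (c 5) (r 30 7))) (n (n (n (c 1) (n (n (n (c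
  1) (n (c 3) (r 40 18) (r 41 8)) (r 39 7)) (c 2) (c 4)) (r 34 15) (r 35 5)) (r 33 4)) (r 29 14) (c 5)) (r 28
  12) (r 29 2)) (r 25 6)) (r 25 2) (n (n (n (c 1) (c 5) (c 2)) (n (c 5) (r 30 13) (r 31 2)) (n (c 2) (r 31 5)
  (n (n (n (c 1) (r 37 8) (c 2)) (c 9) (n (c 2) (c 6) (c 3))) (c 9) (c 1)))) (r 27 3) (c 1)))) (c 6) (r 21
  2)) (n (c 2) (r 21 8) (c 3))) (r 17 6) (c 1))))

def t27 : T :=
  (n (n (n (c 1) (n (n (c 3) (c 2) (r 53 9)) (n (c 2) (c 1) (n (r 55 3) (n (r 57 4) (n (n (n (c 1) (n (n (n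
  (c 1) (n (n (c 3) (c 2) (r 73 9)) (n (c 2) (c 1) (c 11)) (c 11)) (c 10)) (c 2) (r 67 6)) (n (c 2) (c 1) (c
  6)) (r 65 5)) (r 63 4)) (n (r 61 8) (n (n (r 66 9) (n (c 2) (n (c 3) (c 1) (n (r 73 3) (n (r 75 4) (n (n (n
  (c 1) (n (n (n (c 1) (n (n (c 3) (c 2) (r 91 9)) (n (c 2) (c 1) (n (r 93 3) (c 7) (c 16))) (r 89 8)) (r 87
  7)) (c 2) (r 85 6)) (n (c 2) (c 1) (c 7)) (r 83 5)) (r 81 4)) (n (r 79 17) (n (n (r 84 18) (n (c 2) (n (c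
  3) (c 1) (c 8)) (r 87 7)) (c 7)) (c 1) (c 6)) (c 5)) (r 79 3)) (c 1) (n (r 79 6) (n (c 5) (n (c 6) (c 1) (c
  3)) (c 2)) (r 78 22))) (r 73 21)) (r 72 19))) (r 69 7)) (c 6)) (c 1) (n (c 6) (n (r 69 4) (n (n (n (c 1) (n
  (n (n (c 1) (n (n (c 3) (c 2) (r 85 9)) (n (c 2) (c 1) (n (r 87 3) (c 7) (n (r 89 4) (c 30) (c 1)))) (c
  28)) (r 81 7)) (c 2) (r 79 6)) (n (c 2) (c 1) (n (r 81 3) (c 5) (r 80 23))) (r 77 5)) (r 75 4)) (n (r 73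
  14) (n (n (r 78 15) (n (c 2) (n (c 3) (c 1) (c 6)) (c 5)) (r 79 6)) (c 1) (n (r 79 3) (n (c 5) (c 6) (r 79
  24)) (r 78 22))) (c 5)) (r 73 3)) (c 1) (n (r 73 6) (n (c 5) (n (n (r 78 15) (n (r 79 17) (c 6) (r 81 4))
  (r 79 3)) (c 1) (c 3)) (c 2)) (r 72 19))) (r 67 18)) (r 66 16))) (r 63 4)) (r 61 3)) (c 1) (n (r 61 6) (n
  (r 63 7) (n (n (c 6) (r 65 32) (r 67 3)) (c 1) (c 3)) (c 2)) (r 60 13))) (c 7)) (c 7))) (r 51 8)) (r 49 7))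
  (c 2) (r 47 6)) (n (c 2) (c 1) (n (r 49 3) (r 47 20) (n (r 51 4) (n (r 53 5) (n (c 4) (c 1) (c 2)) (n (r 55
  6) (c 2) (n (r 57 7) (n (c 5) (n (n (n (c 1) (n (n (n (c 1) (n (n (c 3) (c 2) (r 75 9)) (n (c 2) (c 1) (n
  (r 77 3) (c 19) (c 7))) (r 73 8)) (r 71 7)) (c 2) (r 69 6)) (n (c 2) (c 1) (n (c 19) (r 69 31) (n (r 73 4)
  (n (r 75 5) (n (c 4) (c 1) (c 2)) (n (r 77 6) (c 2) (n (r 79 7) (c 11) (c 1)))) (c 1)))) (c 9)) (r 65 4))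
  (c 6) (r 63 3)) (c 1) (c 2)) (n (r 61 9) (c 2) (c 3))) (c 1)))) (c 1)))) (r 45 5))

def t28 : T :=
  (n (r 43 3) (n (r 45 4) (n (n (n (c 1) (n (n (n (c 1) (n (n (c 3) (c 2) (r 61 9)) (n (c 2) (c 1) (c 6)) (r
  59 8)) (r 57 7)) (c 2) (r 55 6)) (n (c 2) (c 1) (c 8)) (c 8)) (c 7)) (n (n (r 52 8) (n (c 2) (n (c 2) (c 1)
  (n (r 59 3) (n (r 61 4) (n (n (n (c 1) (c 7) (r 67 4)) (n (c 7) (r 63 31) (c 5)) (c 22)) (c 1) (n (r 65 6)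
  (n (c 5) (n (c 5) (c 1) (c 3)) (c 2)) (c 11))) (r 59 17)) (r 58 15))) (c 8)) (c 8)) (n (n (r 54 9) (n (c 2)
  (n (c 3) (c 1) (n (r 61 3) (n (r 63 4) (n (n (c 7) (n (n (r 70 17) (n (c 2) (n (c 2) (c 1) (c 8)) (c 7)) (r
  71 5)) (n (n (r 72 18) (n (c 2) (n (c 3) (c 1) (c 8)) (c 8)) (c 7)) (c 1) (c 6)) (c 5)) (r 67 3)) (c 1) (n
  (r 67 6) (n (c 5) (n (c 6) (c 1) (c 3)) (c 2)) (c 11))) (r 61 18)) (r 60 16))) (r 57 7)) (c 8)) (c 1) (n (c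
  8) (n (r 57 4) (n (n (n (c 1) (n (n (n (c 1) (n (n (c 3) (c 2) (r 73 9)) (n (c 2) (c 1) (n (r 75 3) (c 7)
  (r 74 23))) (r 71 8)) (r 69 7)) (c 2) (r 67 6)) (n (c 2) (c 1) (n (r 69 3) (c 5) (n (r 71 4) (c 24) (c
  1)))) (c 22)) (r 63 4)) (n (n (r 64 14) (n (c 2) (n (c 2) (c 1) (c 5)) (r 67 6)) (c 22)) (n (n (r 66 15) (n
  (c 2) (n (c 3) (c 1) (c 6)) (c 5)) (r 67 6)) (c 1) (n (r 67 3) (n (c 5) (c 6) (r 67 21)) (c 11))) (c 5)) (r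
  61 3)) (c 1) (n (r 61 6) (n (c 5) (n (n (r 66 15) (n (n (r 70 17) (n (c 2) (n (c 2) (c 1) (c 5)) (c 25)) (r
  71 5)) (c 6) (r 69 4)) (c 11)) (c 1) (c 3)) (c 2)) (r 60 16))) (r 55 15)) (r 54 13))) (r 51 4)) (c 4)) (c
  1) (n (c 4) (n (r 51 7) (n (n (c 8) (r 53 26) (r 55 3)) (c 1) (c 3)) (c 2)) (r 48 10))) (r 43 9)) (n (r 45
  4) (n (r 47 5) (n (c 4) (c 1) (c 2)) (n (r 49 6) (c 2) (n (r 51 7) (n (c 5) (n (n (n (c 1) (n (n (n (c 1)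
  (n (n (c 3) (c 2) (r 69 9)) (n (c 2) (c 1) (n (r 71 3) (c 18) (c 7))) (r 67 8)) (r 65 7)) (c 2) (r 63 6))
  (c 10) (c 9)) (r 59 4)) (c 6) (r 57 3)) (c 1) (c 2)) (n (r 55 9) (c 2) (c 3))) (c 1)))) (c 1)))

def t29 : T :=
  (n (r 33 3) (n (r 35 4) (n (n (n (c 1) (n (n (n (c 1) (n (n (c 3) (c 2) (r 51 9)) (n (c 2) (c 1) (c 13)) (r
  49 8)) (r 47 7)) (c 2) (r 45 6)) (n (c 2) (c 1) (c 6)) (c 6)) (r 41 4)) (r 37 18) (r 39 3)) (c 1) (n (r 39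
  6) (c 10) (n (r 41 7) (c 2) (c 1)))) (n (r 37 5) (n (r 39 6) (c 10) (c 2)) (n (r 39 6) (c 2) (c 1)))) (n (r
  35 4) (n (r 37 5) (n (n (n (c 1) (c 6) (r 43 4)) (r 39 19) (r 41 3)) (c 1) (c 2)) (n (r 39 6) (c 2) (n (r
  41 7) (n (r 43 8) (n (n (n (c 1) (n (n (n (c 1) (n (n (c 3) (c 2) (r 59 9)) (n (c 2) (c 1) (n (r 61 3) (n
  (r 63 4) (n (n (n (c 1) (n (n (n (c 1) (n (n (c 3) (c 2) (r 79 9)) (n (c 2) (c 1) (c 11)) (c 11)) (c 10))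
  (c 2) (r 73 6)) (n (c 2) (c 1) (c 6)) (r 71 5)) (r 69 4)) (r 65 32) (r 67 3)) (c 1) (n (r 67 6) (n (r 69 7)
  (n (n (c 6) (n (r 73 11) (n (n (r 78 12) (n (c 2) (n (c 3) (c 1) (n (r 85 3) (n (r 87 4) (c 6) (r 85 24))
  (r 84 22))) (c 5)) (r 79 6)) (c 1) (n (r 79 3) (n (c 5) (n (n (r 84 15) (n (r 85 17) (c 6) (r 87 4)) (r 85
  3)) (c 1) (n (r 85 6) (n (r 87 7) (n (n (n (c 1) (n (n (n (c 1) (n (n (c 3) (c 2) (r 103 9)) (n (c 2) (c 1)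
  (n (r 105 3) (c 35) (n (r 107 4) (c 36) (c 1)))) (c 34)) (r 99 7)) (c 2) (r 97 6)) (n (c 2) (c 1) (n (r 99
  3) (c 5) (r 98 29))) (r 95 5)) (r 93 4)) (n (r 91 20) (n (n (r 96 21) (n (c 2) (n (c 3) (c 1) (c 6)) (c 5))
  (r 97 6)) (c 1) (n (r 97 3) (n (c 5) (n (c 6) (c 1) (n (r 103 6) (n (c 8) (c 9) (c 2)) (r 102 31))) (c 8))
  (r 96 28))) (r 93 4)) (r 91 3)) (c 1) (c 3)) (c 2)) (r 84 22))) (r 79 21)) (r 78 19))) (r 75 4)) (r 73 3))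
  (c 1) (c 3)) (c 2)) (r 66 13))) (c 7)) (c 7))) (r 57 8)) (r 55 7)) (c 2) (r 53 6)) (c 8) (r 51 5)) (r 49
  4)) (r 45 22) (r 47 3)) (c 1) (c 2)) (n (r 45 9) (c 2) (c 3))) (c 1)))) (c 1)))

def t30 : T :=
  (n (n (r 66 12) (n (c 2) (n (c 3) (c 1) (n (r 73 3) (n (r 75 4) (c 6) (r 73 21)) (c 11))) (c 5)) (r 67 6))
  (c 1) (n (r 67 3) (n (c 5) (n (n (r 72 15) (n (n (r 76 17) (n (c 2) (c 27) (r 79 6)) (r 77 5)) (c 6) (r 75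
  4)) (c 11)) (c 1) (n (c 11) (n (r 75 7) (n (n (n (c 1) (n (n (n (c 1) (n (n (c 3) (c 2) (r 91 9)) (n (c 2)
  (c 1) (n (r 93 3) (n (r 95 4) (n (n (n (c 1) (n (n (n (c 1) (n (n (c 3) (c 2) (r 111 9)) (n (c 2) (c 1) (n
  (r 113 3) (n (c 8) (n (n (n (c 1) (n (n (c 10) (c 2) (r 125 6)) (r 118 38) (c 6)) (r 121 4)) (c 9) (r 119
  3)) (c 1) (n (r 119 6) (n (r 121 7) (n (n (c 6) (n (c 7) (n (c 7) (c 1) (n (r 131 3) (n (c 5) (n (r 129 18)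
  (c 1) (n (r 137 6) (n (r 139 7) (n (n (n (c 1) (n (c 13) (n (c 2) (c 1) (n (r 151 3) (c 5) (n (r 153 4) (n
  (r 155 5) (n (c 4) (c 1) (c 2)) (c 34)) (c 1)))) (r 147 5)) (r 145 4)) (n (r 143 20) (n (n (c 14) (n (c 2)
  (n (c 3) (c 1) (c 6)) (c 5)) (r 149 6)) (c 1) (n (r 149 3) (n (c 5) (n (c 6) (c 1) (n (r 155 6) (n (c 8) (c
  9) (c 2)) (r 154 60))) (c 8)) (r 148 57))) (r 145 4)) (r 143 3)) (c 1) (c 3)) (c 2)) (r 136 51))) (r 131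
  50)) (r 130 48))) (r 127 4)) (r 125 3)) (c 1) (c 3)) (c 2)) (r 118 42))) (r 113 41)) (r 112 39))) (r 109
  8)) (r 107 7)) (c 2) (r 105 6)) (r 98 28) (c 6)) (r 101 4)) (r 97 18) (r 99 3)) (c 1) (n (r 99 6) (c 10) (c
  27))) (r 93 31)) (r 92 29))) (r 89 8)) (r 87 7)) (c 2) (r 85 6)) (n (c 2) (c 1) (n (r 87 3) (c 5) (n (c 22)
  (c 30) (c 1)))) (c 28)) (r 81 4)) (n (n (r 82 20) (n (c 2) (n (c 2) (c 1) (c 5)) (r 85 6)) (c 28)) (n (n (r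
  84 21) (n (c 2) (n (c 3) (c 1) (c 6)) (c 5)) (r 85 6)) (c 1) (n (r 85 3) (n (c 5) (n (c 6) (c 1) (n (c 31)
  (n (c 8) (c 9) (c 2)) (r 90 28))) (c 8)) (c 14))) (r 81 4)) (r 79 3)) (c 1) (c 3)) (c 2)) (r 72 19))) (r 67
  18)) (r 66 16)))

def t31 : T :=
  (n (n (n (c 1) (n (n (n (c 1) (n (n (c 3) (c 2) (r 25 9)) (n (c 2) (c 1) (n (r 27 3) (c 7) (n (r 29 4) (n
  (r 31 5) (n (n (n (c 1) (c 6) (r 37 4)) (r 33 16) (r 35 3)) (c 1) (c 2)) (n (r 33 6) (c 2) (n (r 35 7) (n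
  (r 37 8) (n (n (n (c 1) t27 (r 43 4)) (r 39 19) (r 41 3)) (c 1) (c 2)) (n (r 39 9) (c 2) (c 3))) (c 1))))
  (c 1)))) (r 23 8)) (r 21 7)) (c 2) (r 19 6)) (n (c 2) (c 1) (n (r 21 3) (c 5) (n (r 23 4) (n (r 25 5) (n (c
  4) (c 1) (c 2)) (n (r 27 6) (c 2) (n (r 29 7) (n (r 31 8) (n (n (n (c 1) (n (n (n (c 1) (n (n (c 3) (c 2)
  (r 47 9)) (n (c 2) (c 1) (n (r 49 3) (r 47 20) (c 7))) (r 45 8)) (r 43 7)) (c 2) (r 41 6)) (n (c 2) (c 1)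
  t28) (r 39 5)) (r 37 4)) (r 33 16) (r 35 3)) (c 1) (c 2)) (n (r 33 9) (c 2) (c 3))) (c 1)))) (c 1)))) (r 17
  5)) (r 15 4)) (n (n (n (c 1) (c 2) (r 19 6)) (n (c 2) (n (c 2) (c 1) (c 5)) (r 19 6)) (r 17 5)) (n (n (n (c
  1) (c 2) (r 21 7)) (n (c 2) (n (c 3) (c 1) (c 6)) (c 5)) (r 19 6)) (c 1) (c 6)) (c 5)) (r 13 3)) (c 1) (n
  (r 13 6) (n (r 15 7) (n (n (n (c 1) (n (n (n (c 1) (n (n (c 3) (c 2) (r 31 9)) (n (c 2) (c 1) t29) (r 29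
  8)) (r 27 7)) (c 2) (r 25 6)) (n (c 2) (c 1) (n (r 27 3) (c 5) (n (r 29 4) (n (r 31 5) (n (c 4) (c 1) (c
  2)) (n (r 33 6) (c 2) (n (r 35 7) (n (r 37 8) (n (n (n (c 1) (n (n (n (c 1) (n (n (c 3) (c 2) (r 53 9)) (n
  (c 2) (c 1) (n (r 55 3) (r 53 20) (c 7))) (r 51 8)) (r 49 7)) (c 2) (r 47 6)) (n (c 2) (c 1) (n (r 49 3) (n
  (r 51 4) (n (n (n (c 1) (n (n (n (c 1) (n (n (c 3) (c 2) (r 67 9)) (n (c 2) (c 1) (c 6)) (r 65 8)) (r 63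
  7)) (c 2) (r 61 6)) (n (c 2) (c 1) (c 8)) (c 8)) (c 7)) (r 53 26) (c 4)) (c 1) (n (c 4) (n (r 57 7) (n (n
  (c 8) (n (n (r 64 11) (n (c 2) (n (c 2) (c 1) (c 5)) (r 67 6)) (r 65 5)) t30 (r 63 4)) (r 61 3)) (c 1) (c
  3)) (c 2)) (r 54 10))) (r 49 9)) (n (r 51 4) (n (r 53 5) (n (c 4) (c 1) (c 2)) (n (r 55 6) (c 2) (n (r 57
  7) (n (c 5) (n (n (n (c 1) (n (n (n (c 1) (n (n (c 3) (c 2) (r 75 9)) (n (c 2) (c 1) (n (r 77 3) (r 75 31)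
  (c 7))) (r 73 8)) (r 71 7)) (c 2) (r 69 6)) (c 10) (c 9)) (r 65 4)) (c 6) (r 63 3)) (c 1) (c 2)) (n (r 61
  9) (c 2) (c 3))) (c 1)))) (c 1)))) (r 45 5)) (r 43 4)) (r 39 19) (r 41 3)) (c 1) (c 2)) (n (r 39 9) (c 2)
  (c 3))) (c 1)))) (c 1)))) (r 23 5)) (r 21 4)) (n (n (n (c 1) (c 2) (r 25 6)) (n (c 2) (n (c 2) (c 1) (c 5))
  (r 25 6)) (r 23 5)) (n (n (n (c 1) (c 2) (r 27 7)) (n (c 2) (n (c 3) (c 1) (c 6)) (c 5)) (r 25 6)) (c 1) (n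
  (r 25 3) (c 9) (n (r 27 4) (c 8) (c 1)))) (r 21 4)) (c 7)) (c 1) (c 3)) (c 2)) (n (r 15 7) (c 2) (c 1))))

def t32 : T :=
  (n (n (c 1) (n (n (n (c 1) (n (n (c 3) (c 2) (r 29 9)) (n (c 2) (c 1) (n (r 31 3) (n (r 33 4) (n (n (n (c
  1) (n (n (n (c 1) (n (n (c 3) (c 2) (r 49 9)) (n (c 2) (c 1) (n (r 51 3) (n (c 8) (c 13) (n (r 55 5) (n (r
  57 6) (n (n (c 6) (n (c 6) (n (c 7) (c 1) (n (c 23) (n (c 17) (c 18) (n (r 71 5) (n (r 73 6) (n (n (n (c 1)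
  (n (n (n (c 1) (n (n (c 3) (c 2) (r 89 9)) (n (c 2) (c 1) (c 30)) (c 29)) (r 85 7)) (c 2) (r 83 6)) (n (c
  2) (c 1) (c 26)) (c 26)) (r 79 4)) (n (r 77 18) (n (n (c 13) (n (c 2) (n (c 3) (c 1) (c 5)) (c 5)) (c 26))
  (c 1) (n (c 26) (n (c 5) (r 81 25) (n (r 87 5) (n (c 7) (c 8) (c 2)) (n (r 89 6) (c 2) (c 1)))) (c 7))) (r
  79 4)) (r 77 3)) (c 1) (c 2)) (c 2)) (n (r 73 6) (c 2) (c 1)))) (n (r 69 4) (n (r 71 5) (n (n (r 74 15) (n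
  (r 75 17) (n (n (r 80 18) (n (c 2) (n (c 3) (c 1) (c 5)) (c 26)) (c 4)) (c 1) (n (c 4) (n (c 26) (r 79 24)
  (c 7)) (n (r 83 4) (c 7) (c 1)))) (r 77 4)) (r 75 3)) (c 1) (c 2)) (r 69 8)) (c 1)))) (c 17)) (r 61 3)) (c
  1) (c 2)) (c 2)) (n (r 57 6) (c 2) (c 1)))) (n (r 53 4) (n (r 55 5) (n (n (n (c 1) (c 6) (r 61 4)) (r 57
  28) (r 59 3)) (c 1) (c 2)) (r 53 22)) (c 1)))) (c 12)) (r 45 7)) (c 2) (r 43 6)) (n (c 2) (c 1) (c 6)) (c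
  6)) (r 39 4)) (r 35 17) (r 37 3)) (c 1) (c 9)) (n (r 35 5) (c 9) (n (r 37 6) (c 2) (c 1)))) (n (r 33 4) (n
  (r 35 5) (c 9) (r 33 12)) (c 1)))) (r 27 8)) (r 25 7)) (c 2) (r 23 6)) (n (c 2) (c 1) (n (r 25 3) (c 5) (n
  (r 27 4) (n (r 29 5) (c 7) (r 27 9)) (c 1)))) (r 21 5)) (r 19 4)) (n (n (n (c 1) (c 2) (r 23 6)) (n (c 2)
  (n (c 2) (c 1) (c 5)) (r 23 6)) (r 21 5)) (n (n (n (c 1) (c 2) (r 25 7)) (n (c 2) (n (c 3) (c 1) (c 5)) (c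
  5)) (r 23 6)) (c 1) (n (r 23 3) (c 8) (c 7))) (c 7)) (r 17 3))

def t33 : T :=
  (n (c 1) (n (n (c 3) (c 2) (r 47 9)) (n (c 2) (c 1) (n (r 49 3) (c 12) (n (r 51 4) (n (r 53 5) (n (n (n (c
  1) (c 6) (r 59 4)) (n (c 6) (n (n (r 62 10) (n (c 2) (n (c 3) (c 1) (c 17)) (c 16)) (c 4)) (c 1) (n (c 4)
  (r 61 16) (n (r 65 4) (n (r 67 5) (n (n (n (c 1) (n (n (n (c 1) (n (n (c 3) (c 2) (r 83 9)) (n (c 2) (c 1)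
  (c 28)) (c 27)) (r 79 7)) (c 2) (r 77 6)) (n (c 2) (c 1) (c 4)) (c 24)) (r 73 4)) (n (r 71 16) (n (n (c 12)
  (n (c 2) (n (c 3) (c 1) (c 5)) (c 25)) (c 4)) (c 1) (n (c 4) (r 75 23) (n (r 79 4) (n (c 6) (c 7) (n (r 83
  6) (c 2) (n (r 85 7) (n (r 87 8) (n (c 6) (c 1) (c 2)) (n (r 89 9) (c 2) (c 3))) (c 1)))) (c 1)))) (r 73
  4)) (r 71 3)) (c 1) (c 2)) (n (r 69 6) (c 2) (n (r 71 7) (n (r 73 8) (n (c 6) (c 1) (c 2)) (n (r 75 9) (c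
  2) (c 3))) (c 1)))) (c 1)))) (c 16)) (r 57 3)) (c 1) (c 2)) (n (r 55 6) (c 2) (n (r 57 7) (n (r 59 8) (n (n
  (n (c 1) (n (n (n (c 1) (c 11) (r 71 7)) (c 2) (r 69 6)) (n (c 2) (c 1) (n (r 71 3) (r 69 20) (n (r 73 4)
  (n (r 75 5) (r 70 31) (n (r 77 6) (c 2) (n (r 79 7) (n (c 5) (n (n (n (c 1) (n (n (n (c 1) (n (n (c 3) (c
  2) (r 97 9)) (n (c 2) (c 1) (n (r 99 3) (n (r 101 4) (n (n (n (c 1) (c 23) (r 107 4)) (r 103 51) (r 105 3))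
  (c 1) (c 8)) (c 7)) (c 7))) (r 95 8)) (r 93 7)) (c 2) (r 91 6)) (n (c 2) (c 1) (n (r 93 3) (r 91 31) (n (r
  95 4) (n (r 97 5) (r 92 42) (n (r 99 6) (c 2) (n (r 101 7) (c 11) (c 1)))) (c 1)))) (c 9)) (r 87 4)) (c 6)
  (r 85 3)) (c 1) (c 2)) (n (r 83 9) (c 2) (c 3))) (c 1)))) (c 1)))) (r 67 5)) (r 65 4)) (r 61 30) (r 63 3))
  (c 1) (c 2)) (n (r 61 9) (c 2) (c 3))) (c 1)))) (c 1)))) (r 45 8)) (c 11))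

def t34 : T :=
  (n (r 55 3) (n (r 57 4) (n (n (n (c 1) (n (n (n (c 1) (n (n (c 3) (c 2) (r 73 9)) (c 10) (c 9)) (r 69 7))
  (c 2) (r 67 6)) (n (c 2) (c 1) (c 6)) (c 6)) (r 63 4)) (r 59 29) (r 61 3)) (c 1) (n (r 61 6) (n (r 63 7) (n
  (n (c 6) (r 65 32) (r 67 3)) (c 1) (c 3)) (c 2)) (c 15))) (r 55 22)) (n (r 57 4) (n (r 59 5) (n (n (n (c 1)
  (c 6) (r 65 4)) (r 61 30) (r 63 3)) (c 1) (c 2)) (n (r 61 6) (c 2) (n (r 63 7) (n (r 65 8) (n (n (n (c 1)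
  (n (n (n (c 1) (c 11) (r 77 7)) (c 2) (r 75 6)) (n (c 2) (c 1) (n (r 77 3) (c 19) (n (r 79 4) (n (r 81 5)
  (n (c 4) (c 1) (c 2)) (n (r 83 6) (c 2) (n (r 85 7) (n (c 5) (n (n (n (c 1) (n (n (n (c 1) (n (n (c 3) (c
  2) (r 103 9)) (n (c 2) (c 1) (n (r 105 3) (c 19) (c 7))) (r 101 8)) (r 99 7)) (c 2) (r 97 6)) (c 15) (c 9))
  (r 93 4)) (c 6) (r 91 3)) (c 1) (c 2)) (n (r 89 9) (c 2) (c 3))) (c 1)))) (c 1)))) (r 73 5)) (r 71 4)) (n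
  (r 69 12) (n (n (r 74 13) (n (c 2) (n (c 3) (c 1) (c 20)) (c 19)) (r 75 6)) (c 1) (n (r 75 3) (r 73 19) (n
  (r 77 4) (n (r 79 5) (n (c 6) (c 1) (c 2)) (n (r 81 6) (c 2) (n (r 83 7) (n (r 85 8) (n (n (n (c 1) (n (n
  (n (c 1) (n (n (c 3) (c 2) (r 101 9)) (n (c 2) (c 1) (c 34)) (c 33)) (r 97 7)) (c 2) (r 95 6)) (n (c 2) (c
  1) (c 30)) (c 30)) (r 91 4)) (n (r 89 22) (n (n (c 15) (n (c 2) (n (c 3) (c 1) (c 31)) (c 31)) (c 30)) (c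
  1) (n (c 30) (r 93 29) (n (r 97 4) (n (c 6) (n (c 6) (c 1) (c 2)) (n (r 101 6) (c 2) (n (r 103 7) (n (c 9)
  (c 10) (n (r 107 9) (c 2) (c 3))) (c 1)))) (c 1)))) (r 91 4)) (r 89 3)) (c 1) (c 2)) (n (r 87 9) (c 2) (c
  3))) (c 1)))) (c 1)))) (c 19)) (r 69 3)) (c 1) (c 2)) (n (r 67 9) (c 2) (c 3))) (c 1)))) (c 1)))

def t35 : T :=
  (n (r 83 6) (c 2) (n (r 85 7) (n (r 87 8) (n (n (n (c 1) (n (n (n (c 1) (n (n (c 3) (c 2) (r 103 9)) (n (c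
  2) (c 1) (c 35)) (r 101 8)) (r 99 7)) (c 2) (c 16)) (n (c 2) (c 1) (n (r 99 3) (n (c 17) (n (n (n (c 1) (n
  (c 19) (n (c 2) (c 1) (n (c 21) (n (c 21) (n (n (n (c 1) (n (r 121 37) (c 7) (c 6)) (r 121 4)) (r 117 23)
  (c 4)) (c 1) (n (c 4) (n (r 121 7) (n (c 5) (c 1) (c 3)) (c 2)) (c 12))) (r 113 16)) (n (r 115 4) (n (c 21)
  (r 112 38) (n (c 13) (c 2) (n (c 22) (n (r 123 8) (n (c 23) (c 1) (c 2)) (n (c 24) (c 2) (c 3))) (c 1))))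
  (c 1)))) (r 109 5)) (r 107 4)) (r 103 16) (c 4)) (c 1) (c 32)) (c 6)) (c 31))) (r 95 5)) (r 93 4)) (n (r 91
  22) (n (n (c 15) (n (c 2) (n (c 3) (c 1) (n (r 103 3) (n (r 105 4) (n (n (r 108 29) (n (r 109 31) (n (n (r
  114 32) (n (c 2) (n (c 3) (c 1) (n (r 121 3) (n (r 123 4) (n (n (r 126 38) (n (c 8) (n (n (r 132 41) (n (c
  2) (c 9) (c 8)) (r 133 6)) (c 1) (c 6)) (c 5)) (r 127 3)) (c 1) (n (r 127 6) (n (c 5) (n (c 6) (c 1) (c 3))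
  (c 2)) (r 126 21))) (r 121 20)) (n (r 123 4) (n (r 125 5) (r 120 42) (c 13)) (c 1)))) (r 117 7)) (r 115 6))
  (c 1) (r 107 18)) (c 5)) (r 109 3)) (c 1) (c 7)) (c 7)) (c 6))) (r 99 7)) (r 97 6)) (c 1) (n (r 97 3) (n (r
  99 4) (n (n (r 102 26) (n (r 103 28) (n (n (r 108 29) (n (c 2) (n (c 3) (c 1) (n (r 115 3) (n (r 117 4) (c
  6) (r 115 17)) (r 114 15))) (c 5)) (r 109 6)) (c 1) (c 7)) (c 7)) (c 6)) (c 1) (n (c 6) (n (c 7) (n (c 7)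
  (c 1) (c 3)) (c 2)) (r 102 9))) (r 97 8)) (n (c 31) (n (c 6) (r 96 30) (n (r 103 6) (c 2) (n (r 105 7) (n
  (c 9) (c 10) (n (r 109 9) (c 2) (c 3))) (c 1)))) (c 1)))) (r 93 4)) (r 91 3)) (c 1) (c 2)) (n (r 89 9) (c
  2) (c 3))) (c 1)))

def t36 : T :=
  (n (n (n (c 1) (n (n (c 3) (c 2) (r 33 9)) (n (c 2) (c 1) (n (r 35 3) (n (r 37 4) (n (n (n (c 1) (n (n (n
  (c 1) (n (n (c 3) (c 2) (r 53 9)) (n (c 2) (c 1) t34) (r 51 8)) (r 49 7)) (c 2) (r 47 6)) (n (c 2) (c 1) (c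
  6)) (r 45 5)) (r 43 4)) (r 39 19) (r 41 3)) (c 1) (n (r 41 6) (n (r 43 7) (n (n (c 6) (r 45 22) (r 47 3))
  (c 1) (c 3)) (c 2)) (r 40 13))) (r 35 12)) (n (r 37 4) (n (r 39 5) (n (n (n (c 1) (n (n (n (c 1) (n (n (c
  3) (c 2) (r 55 9)) (n (c 2) (c 1) (n (r 57 3) (c 6) (n (r 59 4) (n (c 9) (c 15) (n (c 18) (c 2) (n (r 65 7)
  (n (r 67 8) (n (n (c 7) (n (c 7) (n (c 8) (c 1) (n (c 18) (n (r 79 4) (n (n (r 82 16) (n (r 83 18) (n (n (r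
  88 19) (n (c 2) (n (c 3) (c 1) (n (r 95 3) (n (r 97 4) (c 6) (r 95 17)) (r 94 15))) (c 5)) (r 89 6)) (c 1)
  (n (r 89 3) (n (c 5) (n (n (r 94 22) (n (r 95 24) (c 6) (c 5)) (r 95 3)) (c 1) (n (r 95 6) (n (c 5) (n (c
  6) (c 1) (c 3)) (c 2)) (r 94 15))) (r 89 14)) (n (r 91 4) (n (r 93 5) (r 88 26) (n (r 95 6) (c 2) (n (r 97
  7) (n (r 99 8) (n (n (n (c 1) (n (n (c 19) (c 2) (r 109 6)) (n (c 2) (c 1) (n (r 111 3) (r 109 16) (n (r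
  113 4) (c 6) (c 1)))) (r 107 5)) (r 105 4)) (c 7) (r 103 3)) (c 1) (c 2)) (n (r 101 9) (c 2) (c 3))) (c
  1)))) (c 1)))) (r 85 4)) (c 6)) (c 1) (c 21)) (r 77 8)) (n (c 27) (n (c 20) (c 21) t35) (c 1)))) (r 73 4))
  (r 71 3)) (c 1) (c 2)) (n (r 69 9) (c 2) (c 3))) (c 1)))) (c 1)))) (c 5)) (r 51 7)) (c 2) (r 49 6)) (n (c
  2) (c 1) (c 4)) (r 47 5)) (r 45 4)) (r 41 20) (r 43 3)) (c 1) (c 2)) (n (r 41 6) (c 2) (n (r 43 7) (c 11)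
  (c 1)))) (c 1)))) (r 31 8)) (r 29 7)) (c 2) (r 27 6)) (n (c 2) (c 1) (n (r 29 3) (n (r 31 4) (n (n (n (c 1)
  (n (n (n (c 1) (n (n (c 3) (c 2) (r 47 9)) (n (c 2) (c 1) (c 6)) (r 45 8)) (r 43 7)) (c 2) (r 41 6)) (n (c
  2) (c 1) (n (r 43 3) (n (r 45 4) (n (n (n (c 1) (n (n (n (c 1) (n (n (c 3) (c 2) (r 61 9)) (n (c 2) (c 1)
  (c 6)) (r 59 8)) (r 57 7)) (c 2) (r 55 6)) (c 7) (c 6)) (r 51 4)) (r 47 23) (c 4)) (c 1) (n (c 4) (n (r 51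
  7) (n (c 5) (c 1) (c 3)) (c 2)) (c 12))) (r 43 16)) (n (r 45 4) (n (r 47 5) (n (c 4) (c 1) (c 2)) (n (r 49
  6) (c 2) (n (r 51 7) (n (r 53 8) (n (n (n (c 1) (c 8) (r 59 4)) (n (c 8) (n (n (r 62 13) (n (c 2) (n (c 3)
  (c 1) (c 17)) (c 10)) (r 63 6)) (c 1) (n (r 63 3) (r 61 16) (n (r 65 4) (n (c 10) (n (c 6) (c 1) (c 2)) (n
  (c 11) (c 2) (n (c 11) (n (r 73 8) (n (n (n (c 1) (n (n (n (c 1) (n (n (c 3) (c 2) (r 89 9)) (n (c 2) (c 1)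
  (c 27)) (r 87 8)) (r 85 7)) (c 2) (r 83 6)) (n (c 2) (c 1) (c 28)) (c 27)) (r 79 4)) (c 12) (c 25)) (c 1)
  (c 2)) (n (r 75 9) (c 2) (c 3))) (c 1)))) (c 1)))) (c 16)) (r 57 3)) (c 1) (c 2)) (n (r 55 9) (c 2) (c 3)))
  (c 1)))) (c 1)))) (r 39 5)) (r 37 4)) (r 33 16) (c 4)) (c 1) (n (c 4) (n (r 37 7) (n (n (n (c 1) (n (n (n
  (c 1) (n (n (c 3) (c 2) (r 53 9)) (n (c 2) (c 1) (c 6)) (r 51 8)) (r 49 7)) (c 2) (r 47 6)) (n (c 2) (c 1)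
  (n (r 49 3) (c 5) (c 12))) (r 45 5)) (r 43 4)) (r 39 19) (r 41 3)) (c 1) (c 3)) (c 2)) (r 34 10))) (c 6))
  (n (r 31 4) (c 6) (c 1)))) (r 25 5))

def t37 : T :=
  (n (r 51 3) (n (r 53 4) (n (n (n (c 1) (c 8) (r 59 4)) (n (c 8) (n (n (n (c 1) (c 2) (r 65 7)) (n (c 2) (c
  9) (c 8)) (r 63 6)) (c 1) (c 6)) (c 5)) (r 57 3)) (c 1) (n (r 57 6) (n (c 5) (n (c 6) (c 1) (c 3)) (c 2))
  (c 14))) (r 51 20)) (n (r 53 4) (n (r 55 5) (n (n (n (c 1) (n (n (n (c 1) (n (n (c 3) (c 2) (r 71 9)) (n (c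
  2) (c 1) (n (r 73 3) (r 71 19) (n (r 75 4) (n (r 77 5) (n (n (n (c 1) (n (n (n (c 1) (n (n (c 3) (c 2) (r
  93 9)) (n (c 2) (c 1) (n (r 95 3) (c 6) (n (r 97 4) (n (c 9) (c 10) (r 97 43)) (c 1)))) (c 5)) (r 89 7)) (c
  2) (r 87 6)) (n (c 2) (c 1) (c 4)) (r 85 5)) (r 83 4)) (n (r 81 9) (n (n (r 86 10) (n (c 2) (n (c 3) (c 1)
  (n (r 93 3) (n (r 95 4) (n (n (r 98 16) (n (r 99 18) (n (n (r 104 19) (n (c 2) (n (c 3) (c 1) (n (r 111 3)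
  (n (r 113 4) (n (n (c 14) (n (c 8) (n (n (r 122 28) (n (c 2) (c 9) (c 8)) (r 123 6)) (c 1) (c 6)) (c 5)) (r
  117 3)) (c 1) (n (r 117 6) (n (c 5) (n (c 6) (c 1) (c 3)) (c 2)) (r 116 21))) (r 111 50)) (n (r 113 4) (n
  (r 115 5) (n (n (n (c 1) (n (n (n (c 1) (n (n (c 3) (c 2) (r 131 9)) (n (c 2) (c 1) (n (r 133 3) (r 131 19)
  (n (r 135 4) (n (r 137 5) (c 34) (r 135 62)) (c 1)))) (r 129 8)) (r 127 7)) (c 2) (r 125 6)) (n (c 2) (c 1)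
  (c 4)) (c 16)) (r 121 4)) (c 5) (r 119 3)) (c 1) (c 2)) (n (r 117 6) (c 2) (n (r 119 7) (c 30) (c 1)))) (c
  1)))) (r 107 7)) (c 11)) (c 1) (r 97 48)) (c 5)) (r 99 3)) (c 1) (n (r 99 6) (n (c 5) (n (n (c 11) (n (r
  105 21) (c 6) (r 107 4)) (r 105 3)) (c 1) (c 3)) (c 2)) (r 98 12))) (r 93 41)) (c 8))) (r 89 7)) (c 4)) (c
  1) (r 79 39)) (r 83 4)) (r 81 3)) (c 1) (c 2)) (r 75 32)) (c 1)))) (r 69 8)) (r 67 7)) (c 2) (r 65 6)) (n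
  (c 2) (c 1) (c 4)) (r 63 5)) (r 61 4)) (c 5) (r 59 3)) (c 1) (c 2)) (c 13)) (c 1)))

def t38 : T :=
  (n (n (n (c 1) (c 2) (r 27 6)) (n (c 2) (n (c 2) (c 1) (n (r 31 3) (n (r 33 4) (n (n (n (c 1) (n (r 39 8)
  (n (c 2) (c 1) (n (r 45 3) (n (r 47 4) (n (n (n (c 1) (c 7) (r 53 4)) (n (c 7) (r 49 24) (r 53 4)) (c 4))
  (c 1) (n (c 4) (n (r 53 7) (n (c 5) (c 1) (c 3)) (c 2)) (r 50 18))) (r 45 17)) (r 44 15))) (r 41 5)) (r 39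
  4)) (n (n (n (c 1) (c 2) (r 43 6)) (n (c 2) (n (c 2) (c 1) (n (r 47 3) (n (r 49 4) (n (n (c 7) (n (n (n (c
  1) (c 2) (r 59 6)) (n (c 2) (c 8) (c 7)) (r 57 5)) (r 51 25) (c 5)) (r 53 3)) (c 1) (n (r 53 6) (n (c 5) (n
  (c 5) (c 1) (c 3)) (c 2)) (c 13))) (r 47 18)) (n (r 49 4) (n (r 51 5) (n (n (n (c 1) (n (r 57 9) (c 7) (r
  59 5)) (r 57 4)) (c 5) (r 55 3)) (c 1) (c 2)) (n (r 53 6) (c 2) (n (r 55 7) (n (r 57 8) (n (n (n (c 1) (n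
  (r 63 12) (c 9) (r 65 5)) (r 63 4)) (n (n (n (c 1) (c 2) (r 67 6)) (c 9) (r 65 5)) (n (c 9) (c 1) (n (r 67
  3) (c 18) (n (r 69 4) (n (c 6) (n (c 6) (c 1) (c 2)) (n (r 73 6) (c 2) (n (r 75 7) (n (c 12) (n (n (n (c 1)
  (n (r 83 22) (n (c 2) (c 1) (c 29)) (r 85 5)) (r 83 4)) (n (n (n (c 1) (c 2) (r 87 6)) (n (c 2) (n (c 2) (c
  1) (c 30)) (c 29)) (r 85 5)) (c 13) (c 8)) (r 81 3)) (c 1) (c 2)) (n (r 79 9) (c 2) (c 3))) (c 1)))) (c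
  1)))) (c 17)) (r 61 3)) (c 1) (c 2)) (n (r 59 9) (c 2) (c 3))) (c 1)))) (c 1)))) (r 43 6)) (r 41 5)) (r 35
  17) (r 39 4)) (r 37 3)) (c 1) (c 7)) (c 6)) (c 6))) (r 27 6)) (r 25 5)) (n (n (n (c 1) (c 2) (r 29 7)) (n
  (c 2) (n (c 3) (c 1) (n (r 33 3) (n (r 35 4) (n (n (n (c 1) (n (n (n (c 1) (n (n (c 3) (c 2) (r 51 9)) (n
  (c 2) (c 1) (n (r 53 3) (c 7) (r 52 19))) (r 49 8)) (r 47 7)) (c 2) (r 45 6)) (n (c 2) (c 1) (n (r 47 3) (n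
  (r 49 4) (n (n (c 7) (n (n (r 56 8) (n (c 2) (c 8) (c 7)) (r 57 5)) (n (n (r 58 9) (c 8) (c 7)) (c 1) (c
  5)) (r 55 4)) (c 4)) (c 1) (n (c 4) (n (r 55 7) (n (c 5) (c 1) (c 3)) (c 2)) (c 13))) (r 47 18)) (r 46
  16))) (r 43 5)) (r 41 4)) (n (n (n (c 1) (c 2) (r 45 6)) (n (c 2) (n (c 2) (c 1) (n (r 49 3) (n (r 51 4) (n
  (n (n (c 1) (n (r 57 8) (c 8) (r 59 5)) (r 57 4)) (n (n (n (c 1) (c 2) (r 61 6)) (c 8) (r 59 5)) (n (c 8)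
  (c 1) (c 5)) (c 5)) (r 55 3)) (c 1) (n (r 55 6) (n (c 5) (n (c 5) (c 1) (c 3)) (c 2)) (c 13))) (r 49 19))
  (r 48 17))) (r 45 6)) (r 43 5)) (n (n (n (c 1) (c 2) (r 47 7)) (n (c 2) (n (c 3) (c 1) t37) (r 47 7)) (r 45
  6)) (c 1) (r 37 18)) (c 5)) (r 39 3)) (c 1) (c 7)) (c 7)) (c 6))) (r 29 7)) (r 27 6)) (c 1) (n (r 27 3) (c
  9) (n (r 29 4) (c 10) (c 1)))) (c 8))

def t39 : T :=
  (n (n (n (c 1) (c 2) (n (n t14 (r 13 4) (n (n (n (c 1) (n (n (n (c 1) (n (n (n (c 1) (c 3) (c 5)) (c 2) (r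
  29 7)) (r 26 11) (r 27 6)) (n (n (n (c 1) (c 5) (n (n (n (c 1) (n (n (n (c 1) (n (n (n (c 1) (c 3) (c 6))
  (c 2) (c 5)) (c 12) (r 45 6)) (n (n (n (c 1) (c 6) (c 8)) (c 5) (n (c 8) (r 49 5) (n (c 2) (r 51 6) (c
  1)))) (r 45 3) (n (n (c 8) (r 49 5) (r 47 17)) (r 47 4) (c 1)))) (r 39 19) (r 41 4)) (r 38 17) (r 39 3)) (c
  3)) (c 9) (c 2)) (c 9) (n (c 2) (r 35 7) (c 1)))) (r 29 4) (n (n (n (c 1) (c 9) (c 2)) (c 9) (c 2)) (c 8)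
  (n (c 2) (r 33 6) (c 1)))) (r 27 3) (n (n (n (c 1) (c 9) (c 2)) (c 8) (r 29 8)) (c 8) (c 1)))) (c 6) (r 23
  4)) (c 6) (r 21 3)) (c 2)) (r 17 6) (c 2)) (r 15 5) (n (c 2) (r 17 6) (c 1)))) (r 11 3) (n t19 (r 13 4) (c
  1)))) (c 3) (n t22 (r 9 2) (n t26 (r 11 3) (c 1)))) (c 1) (n (r 7 3) (n (r 9 4) t31 (n (r 11 5) (n (r 13 6)
  (n t32 (c 1) (c 2)) (c 2)) (n (r 13 6) (c 2) (c 1)))) (n (r 9 4) (n (r 11 5) (n (n (n (c 1) (n (n (n (c 1)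
  (n (n (c 3) (c 2) (r 27 9)) (n (c 2) (c 1) (n (r 29 3) (n (r 31 4) (n (n (n (c 1) (n (n t33 (c 2) (c 11))
  (n (c 2) (c 1) (c 6)) (c 10)) (r 37 4)) (r 33 16) (r 35 3)) (c 1) (n (r 35 6) (n (c 10) (n (n (c 6) (r 39
  19) (r 41 3)) (c 1) (c 3)) (c 2)) (r 34 13))) (c 8)) (n (r 31 4) (c 8) (c 1)))) (r 25 8)) (r 23 7)) (c 2)
  (r 21 6)) (n (c 2) (c 1) (c 4)) (r 19 5)) (r 17 4)) (n (n (n (c 1) (c 2) (r 21 6)) (n (c 2) (n (c 2) (c 1)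
  (n (r 25 3) (c 5) (c 6))) (c 4)) (r 19 5)) (n (n (n (c 1) (c 2) (r 23 7)) (n (c 2) (n (c 3) (c 1) (c 5)) (r
  23 7)) (c 4)) (c 1) (c 7)) (r 17 4)) (r 15 3)) (c 1) (c 2)) (n (r 13 6) (c 2) (n (r 15 7) (n (r 17 8) (n (n
  (n (c 1) t36 (r 23 4)) t38 (r 21 3)) (c 1) (c 2)) (n (r 19 9) (c 2) (c 3))) (c 1)))) (c 1))))

def t40 : T :=
  (n (n (r 40 6) (n (c 2) (n (c 2) (c 1) (r 45 6)) (n (r 45 2) (n (n (c 5) (n (n (r 52 12) (n (c 2) (n (c 2)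
  (c 1) (c 6)) (n (r 57 2) (c 6) (c 7))) (c 5)) (n (n (r 54 13) (n (c 2) (n (n (r 60 16) (c 3) (c 6)) (c 1)
  (r 59 7)) (c 6)) (r 55 5)) (c 1) (c 4)) (c 4)) (r 49 2)) (n (r 49 4) (c 1) (n (c 4) (n (c 4) (n (r 55 7) (c
  1) (n (r 57 8) (c 3) (r 56 17))) (c 2)) (r 50 14))) (r 45 13)) (r 44 11))) (c 6)) (n (n (c 15) (n (c 2) (n
  (n (r 48 10) (c 3) (r 49 8)) (c 1) (r 47 7)) (n (r 47 2) (n (n (n (c 1) (n (n (n (c 1) (n (n (c 3) (c 2) (r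
  63 8)) (r 60 10) (n (r 63 2) (n (c 7) (c 6) (r 63 22)) (r 62 20))) (r 59 6)) (c 2) (r 57 5)) (r 54 7) (n (r
  57 2) (c 6) (c 10))) (r 53 3)) (n (n (r 54 13) (n (c 2) (r 56 8) (c 6)) (r 55 4)) (n (n (r 56 14) (n (c 2)
  (n (n (r 62 17) (c 3) (r 63 8)) (c 1) (r 61 7)) (n (c 6) (n (n (n (c 1) (n (n (n (c 1) (n (n (c 3) (c 2) (r
  77 8)) (r 74 10) (n (r 77 2) (n (n (n (c 1) (n (n (n (c 1) (n (n (c 3) (c 2) (c 6)) (r 90 18) (n (c 6) (c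
  7) (r 92 35))) (r 89 6)) (c 2) (r 87 5)) (r 84 15) (c 5)) (r 83 3)) (c 8) (r 81 2)) (c 6) (r 77 29)) (r 76
  27))) (r 73 6)) (c 2) (r 71 5)) (c 7) (n (r 71 2) (n (n (n (c 1) (n (n (n (c 1) (n (n (c 3) (c 2) (r 87 8))
  (r 84 15) (c 5)) (r 83 6)) (c 2) (r 81 5)) (c 6) (n (r 81 2) (n (c 5) (c 6) (r 81 31)) (c 16))) (r 77 3))
  (c 6) (c 3)) (c 7) (r 71 26)) (n (r 73 3) (n (c 3) (r 74 10) (n (r 77 5) (c 2) (c 19))) (c 1)))) (r 67 3))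
  (n (n (r 68 20) (c 7) (r 69 4)) (c 7) (c 4)) (r 65 2)) (r 62 4) (r 61 21)) (c 11))) (c 6)) (c 1) (r 55 4))
  (c 4)) (r 51 2)) (r 48 4) (r 47 14)) (r 46 12))) (r 43 5)) (c 1) (r 41 4)) (n (c 6) (n (n (n (c 1) (n (n (n
  (c 1) (n (n (c 3) (c 2) (r 57 8)) (n (c 2) (c 1) (r 57 8)) (c 5)) (r 53 6)) (c 2) (r 51 5)) (n (c 2) (c 1)
  (c 4)) (n (r 51 2) (c 4) (n (r 53 3) (c 18) (c 1)))) (c 16)) (n (n (r 48 10) (n (c 2) (n (c 2) (c 1) (c 4))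
  (c 4)) (r 49 4)) (n (n (r 50 11) (n (c 2) (n (n (r 56 14) (c 3) (c 6)) (c 1) (r 55 7)) (c 4)) (c 4)) (c 1)
  (c 4)) (n (r 49 2) (c 4) (c 8))) (r 45 2)) (n (r 45 4) (c 1) (n (r 47 5) (n (c 4) (n (r 51 7) (c 1) (n (r
  53 8) (c 3) (r 52 15))) (c 2)) (r 46 12))) (r 41 11)) (r 40 9)))

def t41 : T :=
  (n (n (c 1) (n (n (n (c 1) (n (n (c 3) (c 2) (r 51 8)) (r 48 20) (n (r 51 2) (n (n (n (c 1) (n (n (n (c 1)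
  (n (n (c 3) (c 2) (c 6)) (r 64 28) (c 9)) (c 9)) (c 2) (r 61 5)) (r 58 25) (n (r 61 2) (c 5) (r 60 13))) (r
  57 3)) (r 53 26) (r 55 2)) (n (r 55 4) (c 1) (n (r 57 5) (n (n (c 5) (n (r 61 9) (r 62 4) (n (r 65 2) (n (c
  4) (n (r 69 4) (c 1) (n (r 71 5) (n (n (n (c 1) (n (n (n (c 1) (n (n (c 3) (c 2) (r 87 8)) (r 84 8) (n (r
  87 2) (c 29) (n (r 89 3) (c 30) (c 1)))) (c 28)) (c 2) (r 81 5)) (r 78 5) (n (r 81 2) (c 4) (c 25))) (r 77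
  3)) (n (r 75 16) (r 76 4) (n (r 79 2) (n (c 4) (n (r 83 4) (c 1) (n (r 85 5) (c 7) (r 84 25))) (r 79 24))
  (r 78 22))) (r 75 2)) (n (r 75 7) (c 1) (n (r 77 8) (c 3) (r 76 21))) (c 2)) (r 70 18))) (r 65 17)) (r 64
  15))) (c 17)) (n (r 61 7) (c 1) (n (r 63 8) (c 3) (r 62 14))) (c 2)) (r 56 11))) (c 6)) (c 6))) (r 47 6))
  (c 2) (r 45 5)) (c 7) (n (r 45 2) (r 43 16) (n (r 47 3) (n (c 3) (r 48 20) (n (r 51 5) (c 2) (n (c 4) (n (n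
  (n (c 1) (n (n (n (c 1) (n (n (c 3) (c 2) (r 69 8)) (r 66 29) (n (r 69 2) (n (n (n (c 1) (n (n (n (c 1) (n
  (n (c 3) (c 2) (c 6)) (r 82 37) (n (c 6) (n (n (n (c 1) (n (n (n (c 1) (c 8) (r 97 6)) (c 2) (c 6)) (r 92
  42) (c 5)) (r 91 3)) (r 87 43) (r 89 2)) (r 86 39) (r 85 18)) (n (r 87 3) (n (n (n (c 1) (c 5) (r 93 3)) (r
  89 44) (r 91 2)) (r 88 40) (c 12)) (c 1)))) (r 81 6)) (c 2) (r 79 5)) (r 76 34) (r 72 16)) (r 75 3)) (r 71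
  35) (r 73 2)) (c 17) (c 6)) (c 6))) (r 65 6)) (c 2) (r 63 5)) (r 60 26) (n (r 63 2) (c 8) (n (r 65 3) (n (c
  3) (r 66 29) (n (r 69 5) (c 2) (c 9))) (c 1)))) (c 7)) (c 5) (r 57 2)) (r 54 23) (n (r 57 8) (c 2) (c 3)))
  (c 1)))) (c 1)))) (r 41 3)) (r 37 18) (r 39 2))

def t42 : T :=
  (n (n (n (c 1) (n (n (n (c 1) (n (n (c 3) (c 2) (r 55 8)) (r 52 22) (n (r 55 2) (c 5) (r 54 13))) (r 51 6))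
  (c 2) (r 49 5)) (r 46 19) (c 6)) (c 6)) (r 41 20) (c 3)) (n (r 43 4) (c 1) (n (r 45 5) (n (n (n (c 1) (n (n
  (n (c 1) (n (n (c 3) (c 2) (r 61 8)) (r 58 8) (c 5)) (r 57 6)) (c 2) (r 55 5)) (r 52 5) (n (r 55 2) (c 4)
  (c 8))) (r 51 3)) (n (n (r 52 9) (n (c 2) (r 54 6) (c 4)) (r 53 4)) (r 50 4) (n (r 53 2) (n (c 4) (n (r 57
  4) (c 1) (n (c 9) (n (n (n (c 1) (n (n (n (c 1) (n (n (c 3) (c 2) (r 75 8)) (r 72 8) (n (r 75 2) (n (n (n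
  (c 1) (n (n (n (c 1) (n (n (c 3) (c 2) (c 6)) (r 88 16) (n (c 6) (n (n (n (c 1) (n (n (c 8) (c 2) (c 6)) (r
  98 21) (c 5)) (r 97 3)) (c 7) (r 95 2)) (n (c 7) (c 1) (n (r 97 5) (n (n (c 5) (n (r 101 9) (r 102 4) (n (r
  105 2) (n (c 4) (n (r 109 4) (c 1) (n (r 111 5) (n (n (n (c 1) (n (c 11) (r 118 5) (n (r 121 2) (c 4) (n (r
  123 3) (n (c 3) (r 124 8) (c 27)) (c 1)))) (r 117 3)) (n (r 115 16) (r 116 4) (n (r 119 2) (n (c 4) (n (r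
  123 4) (c 1) (n (r 125 5) (c 7) (r 124 48))) (r 119 47)) (r 118 45))) (r 115 2)) (n (r 115 7) (c 1) (n (r
  117 8) (c 3) (r 116 44))) (c 2)) (r 110 41))) (r 105 40)) (r 104 38))) (r 101 2)) (n (r 101 7) (c 1) (n (r
  103 8) (c 3) (r 102 37))) (c 2)) (r 96 34))) (r 91 33)) (r 90 31))) (r 87 6)) (c 2) (r 85 5)) (r 82 13) (c
  5)) (r 81 3)) (r 77 14) (r 79 2)) (n (r 79 4) (c 1) (c 8)) (r 75 25)) (r 74 23))) (r 71 6)) (c 2) (r 69 5))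
  (r 66 5) (n (r 69 2) (c 4) (n (r 71 3) (c 24) (c 1)))) (c 22)) (n (n (r 66 16) (n (c 2) (r 68 6) (c 4)) (r
  67 4)) (r 64 4) (n (r 67 2) (n (c 4) (n (r 71 4) (c 1) (n (c 25) (c 7) (r 72 22))) (r 67 21)) (c 11))) (r
  63 2)) (n (r 63 7) (c 1) (n (r 65 8) (c 3) (r 64 18))) (c 2)) (r 58 15))) (r 53 14)) (r 52 12))) (c 14)) (n
  (r 49 7) (c 1) (n (r 51 8) (c 3) (r 50 11))) (c 2)) (r 44 8))) (r 39 7))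

def t43 : T :=
  (n (n (n (c 1) (n (n (c 3) (c 2) (r 27 8)) (r 24 8) (n (r 27 2) (n (n (n (c 1) (n (n (n (c 1) (n (n (c 3)
  (c 2) (c 6)) (r 40 16) (n (c 6) (c 11) (n (r 45 3) (n (n (n (c 1) (c 5) (r 51 3)) (r 47 23) (r 49 2)) (r 46
  19) (n (r 49 5) (c 2) (n (r 51 6) (n (n (n (c 1) (n (n (c 9) (c 2) (r 61 5)) (r 58 25) (n (r 61 2) (r 59
  16) (n (r 63 3) (n (c 3) (r 64 28) (n (r 67 5) (c 2) (n (c 4) (n (n (n (c 1) (n (n (n (c 1) (n (n (c 3) (c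
  2) (r 85 8)) (r 82 37) (n (r 85 2) (n (n (n (c 1) (n (n (n (c 1) (n (n (c 3) (c 2) (c 6)) (r 98 45) (n (c
  6) (n (n (n (c 1) (n (n (n (c 1) (c 8) (r 113 6)) (c 2) (c 6)) (r 108 50) (c 5)) (r 107 3)) (r 103 51) (r
  105 2)) (c 25) (r 101 18)) (n (r 103 3) (n (n (n (c 1) (c 5) (r 109 3)) (r 105 52) (r 107 2)) (r 104 48) (c
  12)) (c 1)))) (r 97 6)) (c 2) (r 95 5)) (r 92 42) (r 88 16)) (r 91 3)) (r 87 43) (r 89 2)) (r 86 39) (c 6))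
  (c 6))) (r 81 6)) (c 2) (r 79 5)) (r 76 34) (n (r 79 2) (c 8) (n (r 81 3) (n (c 3) (r 82 37) (n (r 85 5) (c
  2) (c 9))) (c 1)))) (c 7)) (c 5) (r 73 2)) (r 70 31) (n (r 73 8) (c 2) (c 3))) (c 1)))) (c 1)))) (r 57 3))
  (r 53 26) (r 55 2)) (r 52 22) (n (r 55 8) (c 2) (c 3))) (c 1)))) (c 1)))) (r 39 6)) (c 2) (r 37 5)) (r 34
  13) (c 5)) (r 33 3)) (r 29 14) (r 31 2)) (n (r 31 4) (c 1) (c 8)) (n (r 31 4) (c 8) (n (r 33 5) (c 2) (c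
  1)))) (n (r 29 3) (n (n (n (c 1) (c 5) (r 35 3)) (r 31 15) (r 33 2)) (c 8) (n (r 33 5) (c 2) (n (r 35 6) (n
  t41 (r 36 14) (n (r 39 8) (c 2) (c 3))) (c 1)))) (c 1)))) (r 23 6)) (c 2) (r 21 5)) (r 18 5) (n (r 21 2) (c
  4) (n (r 23 3) (n (c 3) (r 24 8) (n (r 27 5) (c 2) (n (r 29 6) (n (n (n (c 1) (n (n (n (c 1) (n (n (c 3) (c
  2) (r 45 8)) (r 42 17) (n (r 45 2) (r 43 16) (c 6))) (r 41 6)) (c 2) (r 39 5)) (r 36 14) (n (r 39 2) t42 (n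
  (r 41 3) (n (c 3) (r 42 17) (n (r 45 5) (c 2) (n (c 4) (n (n (n (c 1) (c 8) (c 7)) (c 5) (r 51 2)) (r 48
  20) (n (r 51 8) (c 2) (c 3))) (c 1)))) (c 1)))) (r 35 3)) (r 31 15) (r 33 2)) (r 30 11) (n (r 33 8) (c 2)
  (c 3))) (c 1)))) (c 1))))

def t44 : T :=
  (n (n (c 1) (n (n (n (c 1) (n (n (c 3) (c 2) (r 37 8)) (r 34 13) (n (r 37 2) (r 35 12) (n (r 39 3) (n (n (n
  (c 1) (n (n (n (c 1) (n (n (c 3) (c 2) (r 55 8)) (r 52 22) (n (r 55 2) (c 5) (n (c 7) (c 8) (c 1)))) (c 4))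
  (c 2) (r 49 5)) (r 46 19) (c 3)) (r 45 3)) (n (r 43 7) (r 44 18) (n (c 3) (n (n (r 50 9) (n (r 51 11) (r 52
  22) (n (r 55 2) (r 49 24) (n (r 57 3) (n (n (n (c 1) (n (n (n (c 1) (c 19) (r 69 6)) (c 2) (r 67 5)) (c 18)
  (c 3)) (r 63 3)) (c 4) (r 61 2)) (r 58 25) (n (r 61 5) (c 2) (n (r 63 6) (n (c 5) (r 64 28) (n (r 67 8) (c
  2) (c 3))) (c 1)))) (c 1)))) (c 6)) (n (r 51 4) (c 1) (c 13)) (n (c 6) (c 13) (r 50 6))) (n (c 6) (n (c 6)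
  (c 13) (n (r 53 5) (c 2) (n (r 55 6) (n (n (r 58 13) (c 5) (r 59 2)) (r 56 24) (n (r 59 8) (c 2) (c 3))) (c
  1)))) (c 1)))) (r 43 2)) (r 40 16) (n (r 43 5) (c 2) (n (r 45 6) (n (n (c 6) (r 47 16) (r 49 2)) (r 46 19)
  (n (r 49 8) (c 2) (c 3))) (c 1)))) (c 1)))) (r 33 6)) (c 2) (r 31 5)) (r 28 10) (c 3)) (r 27 3)) (n (n (n
  (c 1) (c 2) (r 31 5)) (n (c 2) (r 30 11) (n (r 33 2) (c 4) (n (r 35 3) (n (n (n (c 1) (n (r 41 7) (r 42 17)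
  (c 3)) (r 41 3)) (n (n (n (c 1) (c 2) (r 45 5)) (n (c 2) (c 8) (n (r 47 2) (c 4) (n (r 49 3) (n (c 7) (c
  14) (n (r 53 5) (c 2) (n (r 55 6) (n (c 5) (r 56 24) (n (r 59 8) (c 2) (c 3))) (c 1)))) (c 1)))) (c 3)) (r
  40 16) (n (c 3) (c 10) (c 5))) (r 39 2)) (c 6) (n (r 39 5) (c 2) (n (r 41 6) (n (c 5) (c 12) (n (r 45 8) (c
  2) (c 3))) (c 1)))) (c 1)))) (c 3)) (c 7) (n (c 3) (c 6) (n (r 31 3) (n (n (n (c 1) (n (n (n (c 1) (n (n (c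
  3) (c 2) (r 47 8)) (r 44 18) (n (r 47 2) (r 45 17) (c 6))) (r 43 6)) (c 2) (r 41 5)) (r 38 15) (c 3)) (r 37
  3)) (n (n (n (c 1) (c 2) (r 41 5)) (n (c 2) (r 40 16) (n (r 43 2) (c 4) (c 5))) (c 3)) (c 6) (c 5)) (r 35
  2)) (c 6) (n (r 35 5) (c 2) (n (r 37 6) (n (c 5) (r 38 15) (n (r 41 8) (c 2) (c 3))) (c 1)))) (c 1)))) (r
  25 2))

def t45 : T :=
  (n (n (n (c 1) (n (n (n (c 1) (n (n (c 3) (c 2) (r 61 8)) (r 58 25) (n (r 61 2) (c 5) (n (c 7) (n (n (n (c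
  1) (n (n (c 9) (c 2) (r 73 5)) (r 70 31) (c 3)) (r 69 3)) (c 8) (r 67 2)) (r 64 28) (n (r 67 5) (c 2) (n (r
  69 6) (n (n (c 6) (n (c 6) (c 19) (n (r 77 2) (n (n (r 80 12) (c 22) (r 81 2)) (n (c 22) (c 1) (n (c 5) (n
  (n (r 86 15) (n (r 87 17) (r 88 4) (n (c 22) (n (c 4) (n (r 95 4) (c 1) (n (c 6) (n (n (r 100 22) (n (r 101
  24) (r 102 4) (n (r 105 2) (n (c 4) (c 7) (r 105 20)) (n (r 107 3) (n (c 37) (c 7) (n (r 111 5) (c 2) (n (r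
  113 6) (n (n (n (c 1) (n (n (n (c 1) (n (n (c 3) (c 2) (c 22)) (r 126 16) (c 43)) (r 125 6)) (c 2) (r 123
  5)) (r 120 13) (n (r 123 2) (r 121 12) (c 40))) (r 119 3)) (n (r 117 32) (c 6) (n (r 121 2) (c 8) (n (c 40)
  (n (c 5) (r 124 15) (n (r 127 5) (c 2) (n (r 129 6) (n (n (r 132 38) (c 7) (c 6)) (r 130 18) (n (c 6) (c 2)
  (c 3))) (c 1)))) (c 1)))) (r 117 2)) (r 114 10) (n (r 117 8) (c 2) (c 3))) (c 1)))) (c 1)))) (c 6)) (n (r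
  101 7) (c 1) (n (r 103 8) (c 3) (r 102 17))) (c 2)) (r 96 14))) (c 24)) (n (r 93 3) (c 24) (c 1)))) (r 87
  2)) (n (r 87 7) (c 1) (c 21)) (c 2)) (r 82 7))) (r 77 6)) (n (r 79 3) (n (r 76 16) (r 80 36) (n (r 83 5) (c
  2) (n (r 85 6) (n (n (n (c 1) (n (c 12) (r 92 42) (n (r 95 2) (r 93 41) (n (r 97 3) (c 5) (c 1)))) (r 91
  3)) (n (r 89 18) (r 90 41) (n (r 93 2) (r 91 40) (n (r 95 3) (n (c 5) (r 96 44) (n (c 6) (c 2) (n (r 101 6)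
  (c 8) (c 1)))) (c 1)))) (c 6)) (r 86 39) (n (c 6) (c 2) (c 3))) (c 1)))) (c 1)))) (r 73 2)) (r 70 31) (n (r
  73 8) (c 2) (c 3))) (c 1)))) (c 1)))) (c 4)) (c 2) (r 55 5)) (r 52 22) (c 3)) (r 51 3)) (r 47 16) (r 49 2))
  (r 46 19) (n (r 49 5) (c 2) (n (r 51 6) (n (n (c 6) (n (c 6) (r 56 24) (n (r 59 2) (n (n (r 62 12) (n (r 63
  14) (r 64 28) (c 5)) (r 63 2)) (n (r 63 4) (c 1) (c 16)) (r 59 6)) (n (r 61 3) (n (n (r 64 13) (c 5) (r 65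
  2)) (c 16) (n (r 65 5) (c 2) (n (c 9) (n (c 9) (r 68 30) (n (c 6) (c 2) (c 3))) (c 1)))) (c 1)))) (r 55 2))
  (r 52 22) (n (r 55 8) (c 2) (c 3))) (c 1))))

def t46 : T :=
  (n (r 59 2) (r 57 23) (n (r 61 3) (n (n (n (c 1) (n (n (n (c 1) (n (n (c 3) (c 2) (r 77 8)) (r 74 33) (n (r
  77 2) (c 5) (n (c 7) (n (n (n (c 1) (n (n (c 9) (c 2) (r 89 5)) (r 86 39) (c 3)) (r 85 3)) (c 8) (r 83 2))
  (r 80 36) (n (r 83 5) (c 2) (n (r 85 6) (n (n (c 6) (n (c 6) (r 90 41) (n (r 93 2) (r 91 40) (n (r 95 3) (n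
  (r 92 16) (r 96 44) (n (r 99 5) (c 2) (n (r 101 6) (n (n (n (c 1) (n (c 12) (r 108 50) (n (r 111 2) (r 109
  49) (n (r 113 3) (c 5) (c 1)))) (r 107 3)) (n (r 105 18) (c 27) (n (r 109 2) (n (n (c 14) (c 30) (c 5)) (n
  (c 30) (c 1) (n (c 5) (n (n (r 118 23) (n (r 119 25) (r 120 4) (n (c 30) (n (c 4) (n (r 127 4) (c 1) (n (c
  6) (n (n (r 132 30) (n (r 133 32) (r 134 4) (n (r 137 2) (n (c 4) (c 7) (r 137 20)) (n (r 139 3) (n (r 136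
  38) (c 7) (n (r 143 5) (c 2) (n (r 145 6) (n (n (r 148 38) (n (r 149 40) (c 6) (n (r 153 2) (c 8) (n (r 155
  3) (n (c 5) (r 156 15) (n (r 159 5) (c 2) (n (r 161 6) (n (n (n (c 1) (n (n (n (c 1) (n (n (c 3) (c 2) (c
  30)) (r 174 24) (c 59)) (r 173 6)) (c 2) (r 171 5)) (r 168 21) (n (r 171 2) (r 169 20) (c 56))) (r 167 3))
  (c 7) (c 6)) (r 162 18) (n (c 6) (c 2) (c 3))) (c 1)))) (c 1)))) (r 149 2)) (r 146 10) (n (r 149 8) (c 2)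
  (c 3))) (c 1)))) (c 1)))) (c 6)) (n (r 133 7) (c 1) (n (r 135 8) (c 3) (r 134 17))) (c 2)) (r 128 14))) (c
  32)) (c 7))) (c 7)) (n (r 119 7) (c 1) (c 29)) (c 2)) (r 114 7))) (r 109 6)) (n (r 111 3) (n (c 5) (r 112
  52) (n (c 6) (c 2) (n (r 117 6) (c 8) (c 1)))) (c 1)))) (c 6)) (r 102 47) (n (c 6) (c 2) (c 3))) (c 1))))
  (c 1)))) (r 89 2)) (r 86 39) (n (r 89 8) (c 2) (c 3))) (c 1)))) (c 1)))) (c 4)) (c 2) (r 71 5)) (r 68 30)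
  (c 3)) (r 67 3)) (r 63 16) (r 65 2)) (r 62 27) (n (r 65 5) (c 2) (c 9))) (c 1)))

def t47 : T :=
  (n (n (n (c 1) (n (n (n (c 1) (n (n (c 3) (c 2) (r 21 8)) (n (c 2) (c 1) (r 21 8)) (c 5)) (r 17 6)) (c 2)
  (r 15 5)) (n (c 2) (c 1) (c 4)) (n (r 15 2) (c 4) (n (r 17 3) (n (c 3) (n (c 7) (c 1) (c 2)) (n (r 21 5) (c
  2) (n (r 23 6) (n (n (n (c 1) (n (n (n (c 1) (n (n (c 3) (c 2) (r 39 8)) (n (c 2) (c 1) (r 39 8)) (n (r 39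
  2) (r 37 16) (c 6))) (r 35 6)) (c 2) (r 33 5)) (c 7) (n (r 33 2) (n (n (n (c 1) (n (n (n (c 1) (n (n (c 3)
  (c 2) (r 49 8)) (n (c 2) (c 1) (c 5)) (n (r 49 2) (c 5) (r 48 13))) (r 45 6)) (c 2) (r 43 5)) (n (c 2) (c
  1) (r 43 5)) (c 6)) (c 6)) t40 (c 3)) (n (r 37 4) (c 1) (n (r 39 5) (n (n (n (c 1) (n (n (n (c 1) (n (n (c
  3) (c 2) (r 55 8)) (r 52 8) (c 5)) (r 51 6)) (c 2) (r 49 5)) (r 46 5) (n (r 49 2) (c 4) (c 8))) (r 45 3))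
  (r 41 20) (r 43 2)) (n (r 43 7) (c 1) (n (r 45 8) (c 3) (r 44 11))) (c 2)) (r 38 8))) (r 33 7)) (n (r 35 3)
  (n (c 3) (n (r 39 5) (c 1) (c 2)) (n (r 39 5) (c 2) (n (c 4) (n (n (n (c 1) (c 8) (c 7)) (c 5) (r 45 2)) (n
  (c 5) (c 1) (c 2)) (n (r 45 8) (c 2) (c 3))) (c 1)))) (c 1)))) (r 29 3)) (r 25 12) (r 27 2)) (n (r 27 8) (c
  1) (c 2)) (n (r 27 8) (c 2) (c 3))) (c 1)))) (c 1)))) (r 11 3)) (n (n (n (c 1) (c 2) (r 15 5)) (n (c 2) (n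
  (c 2) (c 1) (c 4)) (c 4)) (r 13 4)) (n (n (n (c 1) (c 2) (r 17 6)) (n (c 2) (n (n (n (c 1) (c 2) (r 23 9))
  (c 3) (r 21 8)) (c 1) (r 19 7)) (c 4)) (c 4)) (c 1) (c 4)) (c 4)) (r 9 2)) (n (r 9 4) (c 1) (n (r 11 5) (n
  (n (n (c 1) t43 (r 17 3)) (n (n (n (c 1) (c 2) (r 21 5)) (n (c 2) (r 20 6) (c 4)) (r 19 4)) (r 16 4) (n (r
  19 2) (c 7) (n (r 21 3) (n t44 (c 7) (n (r 25 5) (c 2) (n (r 27 6) (n (n (n (c 1) (n (n (n (c 1) (n (n (c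
  3) (c 2) (r 43 8)) (r 40 16) (n (r 43 2) (r 41 15) (n (r 45 3) t45 (c 1)))) (r 39 6)) (c 2) (r 37 5)) (r 34
  13) (n (r 37 2) (r 35 12) (n (r 39 3) (c 5) (c 1)))) (r 33 3)) (n (n (n (c 1) (c 2) (r 37 5)) (n (c 2) (r
  36 14) (n (r 39 2) (r 37 13) (c 5))) (r 35 4)) (c 6) (n (r 35 2) (c 8) (n (r 37 3) (n (c 5) (r 38 15) (n (r
  41 5) (c 2) (n (r 43 6) (n (n (n (c 1) (n (n (n (c 1) (n (n (c 3) (c 2) (r 59 8)) (r 56 24) t46) (r 55 6))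
  (c 2) (r 53 5)) (r 50 21) (n (r 53 2) (r 51 20) (n (r 55 3) (c 5) (c 1)))) (r 49 3)) (c 7) (c 6)) (r 44 18)
  (n (c 6) (c 2) (c 3))) (c 1)))) (c 1)))) (r 31 2)) (r 28 10) (n (r 31 8) (c 2) (c 3))) (c 1)))) (c 1)))) (r
  15 2)) (n (r 15 7) (c 1) (n (r 17 8) (c 3) (n (r 19 9) (c 2) (c 1)))) (c 2)) (n (c 5) (c 2) (c 1)))) (n (r
  9 4) (n (n (n (c 1) (n (n (n (c 1) (n (n (c 3) (c 2) (r 25 8)) (n (c 2) (c 1) (r 25 8)) (n (r 25 2) (n (n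
  (n (c 1) (n (n (n (c 1) (n (n (c 3) (c 2) (c 6)) (n (c 2) (c 1) (r 41 8)) (c 10)) (r 37 6)) (c 2) (r 35 5))
  (n (c 2) (c 1) (c 5)) (c 5)) (r 31 3)) (r 27 13) (r 29 2)) (n (r 29 4) (c 1) (n (r 31 5) (n (c 9) (n (r 35
  7) (c 1) (n (r 37 8) (c 3) (c 13))) (c 2)) (n (r 33 6) (c 2) (c 1)))) (c 7)) (n (r 27 3) (c 7) (c 1)))) (r
  21 6)) (c 2) (r 19 5)) (n (c 2) (c 1) (c 4)) (n (r 19 2) (c 4) (n (r 21 3) (n (c 3) (c 6) (r 21 7)) (c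
  1)))) (r 15 3)) (n (n (n (c 1) (c 2) (r 19 5)) (n (c 2) (n (c 2) (c 1) (c 4)) (c 4)) (r 17 4)) (n (n (n (c
  1) (c 2) (r 21 6)) (n (c 2) (n (n (n (c 1) (c 2) (r 27 9)) (c 3) (r 25 8)) (c 1) (r 23 7)) (c 4)) (c 4)) (c
  1) (r 17 4)) (n (r 17 2) (c 6) (n (r 19 3) (c 6) (c 1)))) (c 5)) (n (r 13 6) (c 1) (c 2)) (c 2)) (n (r 11
  5) (c 2) (c 1))))

def t48 : T :=
  (n (c 6) (n (n (n (c 1) (n (n (n (c 1) (c 8) (r 51 6)) (c 2) (c 6)) (n (c 2) (c 1) (c 5)) (c 5)) (r 45 3))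
  (r 41 20) (r 43 2)) (n (r 43 4) (c 1) (n (r 45 5) (n (n (c 5) (r 47 23) (c 13)) (n (r 49 7) (c 1) (n (r 51
  8) (c 3) (r 50 22))) (c 2)) (r 44 19))) (n (r 43 4) (n (n (c 5) (r 45 22) (r 47 2)) (n (r 47 6) (c 1) (c
  2)) (c 2)) (r 42 18))) (n (r 41 3) (n (n (n (c 1) (c 5) (r 47 3)) (n (c 5) (n (n (r 50 8) (n (c 2) (n (n (r
  56 11) (c 3) (r 57 8)) (c 1) (r 55 7)) (n (r 55 2) (r 53 15) (n (r 57 3) (n (n (n (c 1) (n (n (n (c 1) (n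
  (n (c 3) (c 2) (c 24)) (r 70 11) (c 13)) (r 69 6)) (c 2) (c 21)) (r 64 8) (c 3)) (r 63 3)) (c 4) (r 61 2))
  (r 58 5) (n (r 61 5) (c 2) (n (r 63 6) (n (c 5) (r 64 8) (n (r 67 8) (c 2) (c 3))) (c 1)))) (c 1)))) (c
  13)) (c 1) (c 13)) (n (c 3) (c 13) (n (r 51 3) (n (n (n (c 1) (n (n (n (c 1) (n (n (c 3) (c 2) (c 20)) (n
  (c 2) (c 1) (c 22)) (c 22)) (r 63 6)) (c 2) (c 20)) (n (c 2) (c 1) (c 19)) (c 3)) (r 57 3)) (n (r 55 12) (n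
  (n (r 60 13) (n (c 2) (n (n (r 66 16) (c 3) (r 67 8)) (c 1) (r 65 7)) (c 4)) (c 19)) (c 1) (r 59 4)) (n (c
  3) (r 57 17) (n (r 61 3) (c 5) (c 1)))) (r 55 2)) (n (r 55 5) (c 1) (c 2)) (n (r 55 5) (c 2) (n (r 57 6) (n
  (n (r 60 13) (c 5) (r 61 2)) (n (c 5) (c 1) (c 2)) (n (r 61 8) (c 2) (c 3))) (c 1)))) (c 1)))) (r 45 2)) (n
  (r 45 5) (c 1) (c 2)) (n (r 45 5) (c 2) (n (r 47 6) (n (n (n (c 1) (n (n (c 9) (c 2) (r 57 5)) (n (c 2) (c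
  1) (r 57 5)) (n (r 57 2) (r 55 16) (n (r 59 3) (n (c 3) (n (r 63 5) (c 1) (c 2)) (n (r 63 5) (c 2) (n (c 4)
  (n (n (n (c 1) (n (n (n (c 1) (c 14) (r 77 6)) (c 2) (r 75 5)) (n (c 2) (c 1) (c 8)) (n (r 75 2) (c 8) (n
  (r 77 3) (n (c 3) (n (r 81 5) (c 1) (c 2)) (n (r 81 5) (c 2) (c 9))) (c 1)))) (c 7)) (c 5) (r 69 2)) (n (c
  5) (c 1) (c 2)) (n (r 69 8) (c 2) (c 3))) (c 1)))) (c 1)))) (r 53 3)) (r 49 24) (r 51 2)) (n (r 51 8) (c 1)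
  (c 2)) (n (r 51 8) (c 2) (c 3))) (c 1)))) (c 1)))

def t49 : T :=
  (n (n (n (c 1) (n (n (n (c 1) (n (n (c 3) (c 2) (c 6)) (n (c 2) (c 1) (r 45 8)) (n (c 6) (n (n (n (c 1) (n
  (n (n (c 1) (c 8) (r 57 6)) (c 2) (c 6)) (n (c 2) (c 1) (c 5)) (c 5)) (r 51 3)) (r 47 23) (r 49 2)) (n (r
  49 4) (c 1) (n (r 51 5) (n (n (c 5) (r 53 26) (r 55 2)) (n (r 55 7) (c 1) (n (r 57 8) (c 3) (r 56 22))) (c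
  2)) (r 50 19))) (r 45 18)) (n (r 47 3) (n (n (n (c 1) (c 5) (r 53 3)) (r 49 24) (r 51 2)) (n (r 51 5) (c 1)
  (c 2)) (n (r 51 5) (c 2) (n (r 53 6) (n (n (n (c 1) (n (n (c 9) (c 2) (r 63 5)) (n (c 2) (c 1) (c 16)) (n
  (r 63 2) (c 16) (n (r 65 3) (n (c 3) (n (r 69 5) (c 1) (c 2)) (c 23)) (c 1)))) (r 59 3)) (n (r 57 10) (n (n
  (r 62 11) (n (c 2) (n (n (r 68 14) (c 3) (r 69 8)) (c 1) (r 67 7)) (n (r 67 2) (r 65 18) (c 5))) (c 16)) (c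
  1) (c 16)) (n (r 61 2) (c 16) (n (r 63 3) (n (n (r 66 13) (c 5) (c 23)) (n (c 5) (c 1) (c 2)) (n (c 23) (c
  2) (n (r 69 6) (n (n (n (c 1) (n (n (n (c 1) (n (n (c 3) (c 2) (c 26)) (n (c 2) (c 1) (c 28)) (c 28)) (r 81
  6)) (c 2) (c 26)) (n (c 2) (c 1) (c 25)) (c 25)) (r 75 3)) (n (r 73 18) (n (n (r 78 19) (n (c 2) (n (n (r
  84 22) (c 3) (r 85 8)) (c 1) (r 83 7)) (n (r 83 2) (r 81 26) (c 5))) (c 25)) (c 1) (r 77 4)) (n (c 25) (r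
  75 23) (n (r 79 3) (n (c 5) (n (c 5) (c 1) (c 2)) (n (c 6) (c 2) (n (r 85 6) (c 8) (c 1)))) (c 1)))) (c 6))
  (n (r 73 8) (c 1) (c 2)) (n (c 6) (c 2) (c 3))) (c 1)))) (c 1)))) (r 57 2)) (n (r 57 8) (c 1) (c 2)) (n (r
  57 8) (c 2) (c 3))) (c 1)))) (c 1)))) (r 41 6)) (c 2) (r 39 5)) (n (c 2) (c 1) (c 5)) (n (r 39 2) (c 5) (r
  38 13))) (r 35 3)) (r 31 15) (r 33 2)) (n (r 33 4) (c 1) (n (r 35 5) (n (n (c 5) (r 37 18) (r 39 2)) (n (r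
  39 7) (c 1) (n (r 41 8) (c 3) (r 40 14))) (c 2)) (r 34 11))) (r 29 10))

def t50 : T :=
  (n (n (n (c 1) (n (n (c 3) (c 2) (r 45 8)) (r 42 8) (c 5)) (r 41 6)) (c 2) (r 39 5)) (r 36 5) (n (r 39 2)
  (c 4) (n (r 41 3) (n (c 3) (r 42 8) (n (r 45 5) (c 2) (n (r 47 6) (n (n (n (c 1) (n (n (n (c 1) (n (n (c 3)
  (c 2) (r 63 8)) (r 60 17) (n (r 63 2) (r 61 16) (c 6))) (r 59 6)) (c 2) (r 57 5)) (c 7) (c 8)) (r 53 3)) (n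
  (n (r 54 10) (c 7) (c 8)) (r 52 13) (n (c 8) (r 53 12) (n (r 57 3) (n (c 10) (r 58 16) (n (r 61 5) (c 2) (n
  (r 63 6) (n (n (n (c 1) (n (n (n (c 1) (n (n (c 3) (c 2) (r 79 8)) (c 22) (n (r 79 2) (c 23) (n (r 81 3) (n
  (n (n (c 1) (n (n (n (c 1) (n (n (c 3) (c 2) (r 97 8)) (r 94 34) (n (r 97 2) (c 5) (n (c 7) (n (n (n (c 1)
  (n (n (c 9) (c 2) (r 109 5)) (r 106 40) (c 3)) (r 105 3)) (c 8) (r 103 2)) (r 100 37) (n (r 103 5) (c 2) (n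
  (r 105 6) (n (n (c 6) (n (c 6) (r 110 42) (n (r 113 2) (r 111 41) (n (r 115 3) (n (r 112 16) (c 21) (n (r
  119 5) (c 2) (n (r 121 6) (n (n (n (c 1) (n (c 12) (c 28) (n (r 131 2) (n (c 14) (n (r 135 4) (c 1) (n (r
  137 5) (n (n (c 27) (r 139 15) (r 141 2)) (n (r 141 7) (c 1) (c 30)) (c 2)) (c 29))) (c 5)) (n (r 133 3) (c
  5) (c 1)))) (r 127 3)) (n (r 125 18) (r 126 50) (n (r 129 2) (r 127 49) (n (r 131 3) (n (c 5) (r 132 53) (n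
  (c 6) (c 2) (n (r 137 6) (c 8) (c 1)))) (c 1)))) (c 6)) (c 21) (n (c 6) (c 2) (c 3))) (c 1)))) (c 1)))) (r
  109 2)) (r 106 40) (n (r 109 8) (c 2) (c 3))) (c 1)))) (c 1)))) (c 4)) (c 2) (r 91 5)) (c 28) (c 3)) (r 87
  3)) (c 26) (r 85 2)) (c 25) (n (r 85 5) (c 2) (c 9))) (c 1)))) (r 75 6)) (c 2) (r 73 5)) (c 20) (n (r 73 2)
  (c 25) (n (r 75 3) (c 5) (c 1)))) (r 69 3)) (c 10) (c 6)) (r 64 19) (n (c 6) (c 2) (c 3))) (c 1)))) (c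
  1)))) (r 51 2)) (r 48 11) (n (r 51 8) (c 2) (c 3))) (c 1)))) (c 1))))

def t51 : T :=
  (n (n (n (c 1) (n (n (c 3) (c 2) (r 29 8)) (n (c 2) (c 1) (r 29 8)) (n (r 29 2) t49 (n (r 31 3) (n (n (n (c
  1) (n (n (n (c 1) (n (n (c 3) (c 2) (r 47 8)) (n (c 2) (c 1) (c 5)) (n (r 47 2) (c 5) (c 12))) (c 4)) (c 2)
  (r 41 5)) (n (c 2) (c 1) (r 41 5)) (c 3)) (r 37 3)) (r 33 16) (r 35 2)) (n (r 35 5) (c 1) (c 2)) (n (r 35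
  5) (c 2) (c 9))) (c 1)))) (r 25 6)) (c 2) (r 23 5)) (n (c 2) (c 1) (r 23 5)) (n (r 23 2) (n (n (n (c 1) (n
  (n (n (c 1) (n (n (c 3) (c 2) (r 39 8)) (n (c 2) (c 1) (c 5)) (n (r 39 2) (c 5) (r 38 13))) (r 35 6)) (c 2)
  (r 33 5)) (n (c 2) (c 1) (r 33 5)) (n (r 33 2) (n (n (n (c 1) (c 5) (r 39 3)) (r 35 17) (c 3)) (n (r 37 4)
  (c 1) (n (r 39 5) (n (c 4) (n (r 43 7) (c 1) (n (r 45 8) (c 3) (r 44 16))) (c 2)) (r 38 13))) (r 33 12)) (n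
  (r 35 3) (n (c 3) (n (r 39 5) (c 1) (c 2)) (n (r 39 5) (c 2) (n (r 41 6) (n (n (c 6) (n (n (r 48 10) (n (c
  2) (n (c 2) (c 1) (r 53 6)) (c 8)) (r 49 4)) (n (n (r 50 11) (n (c 2) (n (n (r 56 14) (c 3) (r 57 8)) (c 1)
  (r 55 7)) (n (r 55 2) (r 53 15) (c 5))) (c 8)) (c 1) (c 13)) (n (r 49 2) (c 13) (n (r 51 3) (n (c 8) (n (c
  5) (c 1) (c 2)) (n (c 9) (c 2) (n (c 9) (n (n (n (c 1) (n (n (c 20) (c 2) (r 67 5)) (n (c 2) (c 1) (c 22))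
  (c 22)) (r 63 3)) (n (n (r 64 18) (n (c 2) (n (c 2) (c 1) (c 23)) (n (c 22) (c 23) (c 5))) (c 22)) (n (n (c
  16) (n (c 2) (n (n (r 72 22) (c 3) (r 73 8)) (c 1) (r 71 7)) (c 23)) (r 67 5)) (c 1) (c 21)) (n (r 65 2) (c
  21) (n (c 23) (n (c 5) (n (c 5) (c 1) (c 2)) (n (c 6) (c 2) (n (r 73 6) (c 8) (c 1)))) (c 1)))) (c 6)) (n
  (r 61 8) (c 1) (c 2)) (n (c 6) (c 2) (c 3))) (c 1)))) (c 1)))) (r 45 2)) (n (r 45 8) (c 1) (c 2)) (n (r 45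
  8) (c 2) (c 3))) (c 1)))) (c 1)))) (r 29 3)) (r 25 12) (c 3)) (n (r 27 4) (c 1) (n (r 29 5) (n (n (n (c 1)
  t50 (r 35 3)) (r 31 15) (r 33 2)) (n (r 33 7) (c 1) (n (r 35 8) (c 3) (r 34 11))) (c 2)) (r 28 8))) (c 5))
  (n (r 25 3) (c 5) (c 1))))

def t52 : T :=
  (n (r 41 2) (n (n (n (c 1) (n (n (n (c 1) (n (n (c 3) (c 2) (r 57 8)) (r 54 10) (n (r 57 2) (n (n (n (c 1)
  (n (n (n (c 1) (n (n (c 3) (c 2) (c 6)) (r 70 18) (n (c 6) (c 7) (r 72 30))) (r 69 6)) (c 2) (r 67 5)) (r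
  64 15) (c 5)) (r 63 3)) (c 8) (r 61 2)) (c 6) (r 57 24)) (r 56 22))) (r 53 6)) (c 2) (r 51 5)) (r 48 7) (n
  (r 51 2) (n (n (n (c 1) (n (n (n (c 1) (n (n (c 3) (c 2) (r 67 8)) (r 64 15) (c 5)) (r 63 6)) (c 2) (r 61
  5)) (c 6) (n (r 61 2) (n (c 5) (c 6) (r 61 26)) (r 60 24))) (r 57 3)) (c 6) (c 3)) (c 7) (r 51 21)) (r 50
  19))) (r 47 3)) (n (n (n (c 1) (c 2) (r 51 5)) (n (c 2) (c 7) (n (r 53 2) (c 7) (r 52 20))) (r 49 4)) (n (n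
  (n (c 1) (c 2) (r 53 6)) (c 7) (r 51 5)) (c 1) (r 49 4)) (c 4)) (r 45 2)) (r 42 4) (r 41 16)) (n (r 43 3)
  (n (n (n (c 1) (n (n (n (c 1) (n (n (c 3) (c 2) (r 59 8)) (r 56 11) (n (r 59 2) (r 57 15) (n (r 61 3) (n (n
  (n (c 1) (n (n (n (c 1) (n (n (c 3) (c 2) (r 77 8)) (r 74 20) (n (r 77 2) (c 5) (n (c 7) (c 8) (c 1)))) (c
  4)) (c 2) (r 71 5)) (r 68 17) (c 3)) (r 67 3)) (n (r 65 7) (n (n (r 70 8) (n (c 2) (n (n (r 76 11) (c 3) (r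
  77 8)) (c 1) (r 75 7)) (n (r 75 2) (n (n (r 78 12) (n (r 79 14) (n (n (r 84 15) (n (c 2) (n (n (r 90 18) (c
  3) (r 91 8)) (c 1) (r 89 7)) (n (r 89 2) (n (n (c 11) (n (r 93 21) (n (n (r 98 22) (c 7) (r 99 5)) (c 1) (r
  97 4)) (c 4)) (r 93 2)) (r 90 4) (r 89 40)) (n (r 91 3) (n (n (n (c 1) (n (n (n (c 1) (n (n (c 3) (c 2) (r
  107 8)) (r 104 11) (n (r 107 2) (c 15) (c 27))) (r 103 6)) (c 2) (r 101 5)) (r 98 8) (c 3)) (r 97 3)) (c 4)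
  (r 95 2)) (r 92 5) (n (r 95 5) (c 2) (c 24))) (c 1)))) (c 9)) (c 1) (r 83 4)) (c 4)) (r 79 2)) (r 76 4) (r
  75 33)) (n (r 77 3) (n (n (c 8) (c 4) (r 81 2)) (r 78 5) (r 77 34)) (c 1)))) (r 71 5)) (c 1) (r 69 4)) (r
  63 31)) (r 65 2)) (r 62 14) (r 61 26)) (c 1)))) (r 55 6)) (c 2) (r 53 5)) (r 50 8) (c 3)) (r 49 3)) (c 4)
  (r 47 2)) (r 44 5) (c 11)) (c 1)))

def t53 : T :=
  (n (n (n (c 1) (c 2) (r 23 5)) (n (c 2) (n (c 2) (c 1) (r 25 6)) (n (r 25 2) (n (n (n (c 1) (n (r 31 6) (n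
  (c 2) (c 1) (r 35 5)) (n (r 35 2) (n (n (c 5) (n (n (r 42 6) (n (c 2) (n (c 2) (c 1) (c 6)) (n (c 5) (c 6)
  (c 7))) (c 5)) (n (n (r 44 7) (n (c 2) (n (n (r 50 10) (c 3) (c 6)) (c 1) (r 49 7)) (c 6)) (r 45 5)) (c 1)
  (c 4)) (r 37 18)) (c 3)) (n (r 39 4) (c 1) (n (r 41 5) (n (c 4) (n (r 45 7) (c 1) (n (r 47 8) (c 3) (r 46
  17))) (c 2)) (c 10))) (r 35 13)) (r 34 11))) (r 31 3)) (n (n (n (c 1) (c 2) (r 35 5)) (n (c 2) (n (c 2) (c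
  1) (r 37 6)) (n (r 37 2) (n (n (n (c 1) (n (r 43 6) (c 6) (n (r 47 2) (c 6) (r 46 17))) (r 43 3)) (n (n (n
  (c 1) (c 2) (r 47 5)) (c 6) (r 45 4)) (n (c 6) (c 1) (c 4)) (c 4)) (r 41 2)) (n (r 41 4) (c 1) (n (c 4) (n
  (c 4) (n (r 47 7) (c 1) (n (r 49 8) (c 3) (r 48 18))) (c 2)) (r 42 15))) (r 37 14)) (n (r 39 3) (n (n (n (c
  1) (n (r 45 7) (c 6) (c 3)) (r 45 3)) (c 4) (r 43 2)) (n (c 4) (c 1) (c 2)) (c 10)) (c 1)))) (r 33 4)) (n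
  (n (n (c 1) (c 2) (r 37 6)) (n (c 2) (n (n (n (c 1) (c 2) (r 43 9)) (c 3) (r 41 8)) (c 1) (r 39 7)) (n (r
  39 2) (n (n (n (c 1) (c 6) (r 45 3)) (n (c 6) (n (n (n (c 1) (c 2) (r 51 6)) (n (c 2) (n (n (n (c 1) (c 2)
  (r 57 9)) (c 3) (r 55 8)) (c 1) (c 7)) (n (c 6) (c 7) (c 8))) (c 6)) (c 1) (r 47 4)) (c 4)) (r 43 2)) (r 40
  4) (r 39 15)) (r 38 13))) (r 35 5)) (c 1) (c 4)) (r 27 13)) (r 29 2)) (n (r 29 4) (c 1) (n (r 31 5) (n (c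
  4) (n (r 35 7) (c 1) (n (r 37 8) (c 3) (r 36 12))) (c 2)) (c 7))) (c 5)) (c 5))) (r 21 4)) (n (n (n (c 1)
  (c 2) (r 25 6)) (n (c 2) (n (n (n (c 1) (c 2) (r 31 9)) (c 3) (r 29 8)) (c 1) (r 27 7)) (n (r 27 2) (n (n
  (n (c 1) (n (n (n (c 1) (n (n (c 3) (c 2) (r 43 8)) (r 40 10) (n (r 43 2) (n (n (n (c 1) (n (n (n (c 1) (n
  (n (c 3) (c 2) (c 6)) (r 56 18) (n (c 6) (c 7) (r 58 23))) (r 55 6)) (c 2) (r 53 5)) (r 50 15) (c 5)) (r 49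
  3)) (n (r 47 6) (n (n (r 52 7) (n (c 2) (n (n (r 58 10) (c 3) (r 59 8)) (c 1) (r 57 7)) (n (r 57 2) (n (n
  (c 7) (n (c 8) (n (c 8) (c 1) (r 65 4)) (c 4)) (r 61 2)) (r 58 4) (r 57 24)) (n (r 59 3) (n (n (r 62 12) (c
  4) (r 63 2)) (r 60 5) (n (r 63 5) (c 2) (c 16))) (c 1)))) (c 5)) (c 1) (r 51 4)) (r 45 22)) (r 47 2)) (c 6)
  (r 43 17)) (r 42 15))) (r 39 6)) (c 2) (r 37 5)) (r 34 7) (n (r 37 2) (n (n (n (c 1) (n (n (n (c 1) (n (n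
  (c 3) (c 2) (r 53 8)) (r 50 15) (c 5)) (r 49 6)) (c 2) (r 47 5)) (c 6) (n (r 47 2) (n (c 5) (c 6) (c 7)) (r
  46 17))) (r 43 3)) (n (n (r 44 6) (c 6) (r 45 4)) (n (c 6) (c 1) (c 4)) (r 39 19)) (c 3)) (r 38 9) (r 37
  14)) (r 36 12))) (r 33 3)) (n (n (n (c 1) (c 2) (r 37 5)) (n (c 2) (r 36 8) (n (r 39 2) (n (n (n (c 1) (c
  6) (r 45 3)) (n (c 6) (n (n (n (c 1) (c 2) (r 51 6)) (n (c 2) (n (n (n (c 1) (c 2) (r 57 9)) (c 3) (c 6))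
  (c 1) (c 7)) (n (c 6) (c 7) (c 8))) (c 6)) (c 1) (c 4)) (c 4)) (r 43 2)) (r 40 10) (r 39 15)) (r 38 13)))
  (r 35 4)) (n (n (n (c 1) (c 2) (r 39 6)) (n (c 2) (n (n (n (c 1) (c 2) (r 45 9)) (c 3) (r 43 8)) (c 1) (r
  41 7)) t52) (r 37 5)) (c 1) (r 35 4)) (c 4)) (r 31 2)) (r 28 4) (r 27 9)) (c 5))) (r 23 5)) (c 1) (c 7)) (n
  (r 21 2) (c 7) (n (r 23 3) (c 8) (c 1))))

def tO1 : T :=
  (n t13 t39 (n (r 5 2) t47 (n (r 7 3) (n (n (n (c 1) (n (n (n (c 1) (n (n (c 3) (c 2) (r 23 8)) (n (c 2) (c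
  1) (r 23 8)) (n (r 23 2) (n (n (n (c 1) (n (n (n (c 1) (n (n (c 3) (c 2) (c 6)) (n (c 2) (c 1) (r 39 8))
  t48) (c 9)) (c 2) (c 9)) (n (c 2) (c 1) (c 5)) (c 8)) (r 29 3)) (r 25 12) (r 27 2)) (n (r 27 4) (c 1) (n (c
  8) (n (n (c 5) (r 31 15) (r 33 2)) (n (r 33 7) (c 1) (n (r 35 8) (c 3) (r 34 14))) (c 2)) (r 28 11))) (n (r
  27 4) (n (c 8) (n (r 31 6) (c 1) (c 2)) (c 2)) (r 26 10))) (c 6))) (r 19 6)) (c 2) (r 17 5)) (n (c 2) (c 1)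
  (r 17 5)) (c 3)) (r 13 3)) (n (n (n (c 1) (c 2) (r 17 5)) (n (c 2) (n (c 2) (c 1) (c 4)) (n (r 19 2) (c 4)
  (c 5))) (c 3)) (n (n (n (c 1) (c 2) (r 19 6)) (n (c 2) (n (n (n (c 1) (c 2) (r 25 9)) (c 3) (r 23 8)) (c 1)
  (r 21 7)) (c 4)) (r 17 5)) (c 1) (r 15 4)) (c 5)) (r 11 2)) (n (r 11 5) (c 1) (c 2)) (n (r 11 5) (c 2) (n
  (r 13 6) (n (n (n (c 1) t51 (r 19 3)) t53 (c 6)) (n (r 17 8) (c 1) (c 2)) (n (r 17 8) (c 2) (c 3))) (c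
  1)))) (c 1))))

end Pool.Agent.T2h10.E25
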