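import Mathlib

/-!
# Certificates for the finite tree of palindromes

Words over the letters `0, 1, 1024` are coded as natural numbers in base `K = 2 ^ 20`. Owner helper10.
-/

set_option autoImplicit false

namespace Pool.Agent.T2h10.E25

/-- Certificates: `c L` an abelian cube with blocks of length `L` at the start, `r J p` not rich: the longest
palindromic suffix of `w a` starts at position `J` and occurs also at position `p`; `n` the certificates for the three
next letters. -/
inductive T
  | e : T
  | c (L : ℕ) : T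
  | r (J p : ℕ) : T
  | n (t0 t1 t2 : T) : T

/-- The base. -/
def K : ℕ := 1048576

/-- Powers of the base. -/
def P (j : ℕ) : ℕ := Nat.pow 1048576 j

/-- The suffixes of `Y` of length `m - j`, `j < J`, are not palindromes (`X` is the reversal of `Y`). -/
def noPal (X Y m : ℕ) : ℕ → Bool
  | 0 => true
  | j + 1 => cond (Nat.beq (Nat.div Y (P j)) (Nat.mod X (P (Nat.sub m j)))) false (noPal X Y m j)

/-- The first three blocks of length `L` have the same sum. -/
def cubeOK (L V : ℕ) : Bool :=
  cond (Nat.beq (Nat.mod (Nat.mod V (P L)) 1048575) (Nat.mod (Nat.mod (Nat.div V (P L)) (P L)) 1048575))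
    (Nat.beq (Nat.mod (Nat.mod (Nat.div V (P L)) (P L)) 1048575)
      (Nat.mod (Nat.mod (Nat.div V (P (Nat.mul 2 L))) (P L)) 1048575)) false

/-- The longest palindromic suffix of `w a` occurs in `w`. -/
def richOK (J p m W X Y : ℕ) : Bool :=
  cond (noPal X Y m J)
    (cond (Nat.beq (Nat.div Y (P J)) (Nat.mod X (P (Nat.sub m J))))
      (Nat.beq (Nat.mod (Nat.div W (P p)) (P (Nat.sub m J))) (Nat.mod X (P (Nat.sub m J)))) false) false

/-- The certificate refutes the child `a` of the palindrome `W` of length `n`; `k` letters are used in `a w a`. -/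
def chk : T → ℕ → ℕ → ℕ → ℕ → Bool
  | .e, _, _, _, _ => false
  | .c L, _, n, W, a =>
      cond (Nat.ble 1 L && Nat.ble (Nat.mul 3 L) (Nat.add n 2) && Nat.ble (Nat.add n 2) 900)
        (cubeOK L (Nat.add a (Nat.mul 1048576 (Nat.add W (Nat.mul (P n) a))))) false
  | .r J p, _, n, W, a =>
      cond (Nat.ble J n && Nat.ble (Nat.add p (Nat.sub (Nat.succ n) J)) n)
        (richOK J p (Nat.succ n) W (Nat.add a (Nat.mul 1048576 W)) (Nat.add W (Nat.mul (P n) a))) false
  | .n t0 t1 t2, k, n, W, a =>
      chk t0 k (Nat.add n 2) (Nat.add a (Nat.mul 1048576 (Nat.add W (Nat.mul (P n) a)))) 0 &&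
      (chk t1 (cond (Nat.beq k 1) 2 k) (Nat.add n 2) (Nat.add a (Nat.mul 1048576 (Nat.add W (Nat.mul (P n) a)))) 1 &&
      (cond (Nat.beq k 1) true
        (chk t2 3 (Nat.add n 2) (Nat.add a (Nat.mul 1048576 (Nat.add W (Nat.mul (P n) a)))) 1024)))

end Pool.Agent.T2h10.E25
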