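import Pool.Agent.T2h10.E25.Cert

/-!
# The kernel computation

Owner helper10.
-/

set_option autoImplicit false
set_option maxRecDepth 100000

namespace Pool.Agent.T2h10.E25

theorem runE : chk tE 1 0 0 0 = true := by decide +kernel

theorem runO0 : chk tO0 1 1 0 0 = true := by decide +kernel

theorem runO1 : chk tO1 2 1 0 1 = true := by decide +kernel

end Pool.Agent.T2h10.E25
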