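import Pool.Agent.T2h10.E25.Tree
import Pool.Agent.T2h10.E25.Run

/-!
# Rich words over three letters contain abelian cubes

Owner helper10.
-/

set_option autoImplicit false

namespace Pool.Agent.T2h10.E25

theorem map_swap_swap (b c : ℕ) (s : List ℕ) : (s.map (Equiv.swap b c)).map (Equiv.swap b c) = s := by
  rw [List.map_map]
  conv_rhs => rw [← List.map_id s]
  apply List.map_congr_left
  intro y _
  simp

/-- A palindrome is `s.reverse ++ m ++ s` with `m` empty or a letter. -/
theorem pal_split {α : Type} : ∀ (n : ℕ) (q : List α), q.length ≤ n → q.reverse = q →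
    ∃ s, q = s.reverse ++ s ∨ ∃ x, q = s.reverse ++ [x] ++ s := by
  intro n
  induction n with
  | zero =>
    intro q hq _
    have : q = [] := List.eq_nil_of_length_eq_zero (by omega)
    exact ⟨[], Or.inl (by simp [this])⟩
  | succ n ih =>
    intro q hq hrev
    rcases q with _ | ⟨a, q⟩
    · exact ⟨[], Or.inl rfl⟩
    · rcases List.eq_nil_or_concat q with h | ⟨q', b, h⟩
      · subst h
        exact ⟨[], Or.inr ⟨a, rfl⟩⟩
      · rw [List.concat_eq_append] at h
        subst h
        have h1 : b :: (q'.reverse ++ [a]) = a :: (q' ++ [b]) := by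
          rw [← hrev]; simp
        have h2 := List.cons.inj h1
        obtain ⟨h3, h4⟩ := List.append_inj' h2.2 rfl
        have hab : b = a := h2.1
        subst hab
        have hl : q'.length ≤ n := by simp at hq; omega
        obtain ⟨s, hs⟩ := ih q' hl h3
        rcases hs with hs | ⟨x, hs⟩
        · exact ⟨s ++ [b], Or.inl (by rw [hs]; simp)⟩
        · exact ⟨s ++ [b], Or.inr ⟨x, by rw [hs]; simp⟩⟩

theorem boundE : ∃ N : ℕ, ∀ F : Set (List ℕ), Good F → ∀ s : List ℕ, s.reverse ++ s ∈ F → s.length < N := by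
  obtain ⟨N, H⟩ := chk_sound tE 1 0 [] 0 runE rfl rfl
    ⟨fun a ha => by simp at ha; exact Or.inl ha, fun _ a ha => by simp at ha; exact ha, fun h => by simp at h⟩
  refine ⟨N + 1, fun F hF s hs => ?_⟩
  rcases s with _ | ⟨x, s'⟩
  · simp
  · have hx := hF.letters _ hs x (by simp)
    have h := H (ren (Equiv.swap 0 x) F) (hF.ren _ (swap_letters (Or.inl rfl) hx)) (s'.map (Equiv.swap 0 x)) (by
      show List.map _ _ ∈ F
      rw [List.map_append, List.map_append, List.map_reverse, map_swap_swap]
      have e : (x :: s').reverse ++ (x :: s') = s'.reverse ++ (x :: ([] ++ [x])) ++ s' := by simp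
      rw [e] at hs
      simpa using hs)
    rw [List.length_map] at h
    rw [List.length_cons]
    omega

theorem boundO0 : ∃ N : ℕ, ∀ F : Set (List ℕ), Good F → ∀ s : List ℕ, s.reverse ++ [0] ++ s ∈ F →
    s.length < N := by
  obtain ⟨N0, H0⟩ := chk_sound tO0 1 1 [0] 0 runO0 rfl rfl
    ⟨fun a ha => by simp at ha; exact Or.inl ha, fun _ a ha => by simp at ha; exact ha, fun h => by simp at h⟩
  obtain ⟨N1, H1⟩ := chk_sound tO1 2 1 [0] 1 runO1 rfl rfl
    ⟨fun a ha => by simp at ha; tauto, fun h => by simp at h, fun _ a ha => by simp at ha; tauto⟩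
  refine ⟨max N0 N1 + 1, fun F hF s hs => ?_⟩
  rcases s with _ | ⟨x, s'⟩
  · simp
  · have hx := hF.letters _ hs x (by simp)
    have e : (x :: s').reverse ++ [0] ++ (x :: s') = s'.reverse ++ (x :: ([0] ++ [x])) ++ s' := by simp
    rw [e] at hs
    rw [List.length_cons]
    rcases hx with hx | hx | hx
    · subst hx
      have := H0 F hF s' hs
      omega
    · subst hx
      have := H1 F hF s' hs
      omega
    · subst hx
      have := H1 (ren (Equiv.swap 1 1024) F)
        (hF.ren _ (swap_letters (Or.inr (Or.inl rfl)) (Or.inr (Or.inr rfl)))) (s'.map (Equiv.swap 1 1024)) (by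
          show List.map _ _ ∈ F
          rw [List.map_append, List.map_append, List.map_reverse, map_swap_swap]
          have h0 : Equiv.swap 1 1024 0 = 0 := Equiv.swap_apply_of_ne_of_ne (by norm_num) (by norm_num)
          simpa [h0] using hs)
      rw [List.length_map] at this
      omega

/-- The palindromes of a good set are bounded. -/
theorem bound : ∃ M : ℕ, ∀ F : Set (List ℕ), Good F → ∀ q ∈ F, q.reverse = q → q.length < M := by
  obtain ⟨NE, HE⟩ := boundE
  obtain ⟨NO, HO⟩ := boundO0
  refine ⟨2 * NE + 2 * NO + 2, fun F hF q hq hrev => ?_⟩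
  obtain ⟨s, hs | ⟨x, hs⟩⟩ := pal_split q.length q le_rfl hrev
  · subst hs
    have := HE F hF s hq
    simp only [List.length_append, List.length_reverse]
    omega
  · subst hs
    have hx := hF.letters _ hq x (by simp)
    have := HO (ren (Equiv.swap 0 x) F) (hF.ren _ (swap_letters (Or.inl rfl) hx)) (s.map (Equiv.swap 0 x)) (by
      show List.map _ _ ∈ F
      rw [List.map_append, List.map_append, List.map_reverse, map_swap_swap]
      simpa using hq)
    rw [List.length_map] at this
    simp only [List.length_append, List.length_reverse, List.length_cons, List.length_nil]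
    omega

/-- The coding of three letters. -/
def emb (i : Fin 3) : ℕ := if i = 0 then 0 else if i = 1 then 1 else 1024

theorem emb_inj : Function.Injective emb := by
  intro i j h
  fin_cases i <;> fin_cases j <;> simp_all [emb]

theorem emb_letters (i : Fin 3) : emb i = 0 ∨ emb i = 1 ∨ emb i = 1024 := by
  fin_cases i <;> simp [emb]

/-- A factor of an image is an image. -/
theorem infix_map {α β : Type} (g : α → β) {v : List β} {w : List α} (h : v <:+: w.map g) :
    ∃ v', v' <:+: w ∧ v'.map g = v := by
  obtain ⟨s, t, h1⟩ := h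
  obtain ⟨w1, t', hw, h3, h4⟩ := List.map_eq_append_iff.1 h1.symm
  obtain ⟨s', p', hw', h5, h6⟩ := List.map_eq_append_iff.1 h3
  exact ⟨p', ⟨s', t', by rw [hw, hw']⟩, h6⟩

/-- Rich words over `Fin 3` without abelian cubes are bounded. -/
theorem fin3 : ∃ N : ℕ, ∀ w : List (Fin 3), Rich w → N ≤ w.length →
    ∃ x y z : List (Fin 3), x ≠ [] ∧ x ++ y ++ z <:+: w ∧ x.Perm y ∧ y.Perm z := by
  obtain ⟨M, HM⟩ := bound
  have hfin : {l : List (Fin 3) | l.length < M}.Finite := List.finite_length_lt (Fin 3) M
  refine ⟨{l : List (Fin 3) | l.length < M}.ncard, fun w hw hN => ?_⟩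
  by_contra hcon
  push Not at hcon
  have hgood : Good {v | v <:+: w.map emb} := by
    refine ⟨fun v hv v' hv' => hv'.trans hv, fun v hv a ha => ?_, fun v hv => ?_, fun x y z hx hxy hyz hmem => ?_⟩
    · have hv1 : v <:+: w.map emb := hv
      have : a ∈ w.map emb := hv1.subset ha
      obtain ⟨i, _, rfl⟩ := List.mem_map.1 this
      exact emb_letters i
    · exact ((rich_map emb emb_inj w).2 hw).part hv
    · obtain ⟨v', hv', hm⟩ := infix_map emb (show x ++ y ++ z <:+: w.map emb from hmem)
      obtain ⟨xy, z', h1, h2, h3⟩ := List.map_eq_append_iff.1 hm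
      obtain ⟨x', y', h4, h5, h6⟩ := List.map_eq_append_iff.1 h2
      subst h1 h4 h5 h6 h3
      refine hcon x' y' z' ?_ hv' ?_ ?_
      · simpa using hx
      · exact (List.map_perm_map_iff emb_inj).1 hxy
      · exact (List.map_perm_map_iff emb_inj).1 hyz
  have hsub : palFactors w ⊆ {l : List (Fin 3) | l.length < M} := by
    intro p hp
    have h1 : p.map emb ∈ {v | v <:+: w.map emb} := hp.1.map emb
    have h2 := HM _ hgood (p.map emb) h1 (by rw [← List.map_reverse, hp.2])
    rw [List.length_map] at h2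
    exact h2
  have h1 := Set.ncard_le_ncard hsub hfin
  unfold Rich at hw
  omega

/-- Every long rich word over an alphabet of at most three letters contains an abelian cube. -/
theorem abelian_cube : ∃ N : ℕ, ∀ (α : Type) (A : Finset α), A.card ≤ 3 → ∀ w : List α, (∀ a ∈ w, a ∈ A) →
    Rich w → N ≤ w.length → ∃ x y z : List α, x ≠ [] ∧ x ++ y ++ z <:+: w ∧ x.Perm y ∧ y.Perm z := by
  obtain ⟨N, HN⟩ := fin3
  refine ⟨N, fun α A hA w hw hr hlen => ?_⟩
  obtain ⟨w₀, rfl⟩ : ∃ w₀ : List A, w₀.map Subtype.val = w := CanLift.prf w hw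
  have hcard : Fintype.card A ≤ Fintype.card (Fin 3) := by simpa using hA
  obtain ⟨g⟩ := Function.Embedding.nonempty_of_card_le hcard
  have h1 : Rich w₀ := (rich_map _ Subtype.val_injective w₀).1 hr
  have h2 : Rich (w₀.map g) := (rich_map g g.injective w₀).2 h1
  obtain ⟨x, y, z, hx, hxyz, hxy, hyz⟩ := HN (w₀.map g) h2 (by simpa using hlen)
  obtain ⟨v', hv', hm⟩ := infix_map g hxyz
  obtain ⟨xy, z', e1, e2, e3⟩ := List.map_eq_append_iff.1 hm
  obtain ⟨x', y', e4, e5, e6⟩ := List.map_eq_append_iff.1 e2
  subst e1 e4 e5 e6 e3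
  refine ⟨x'.map Subtype.val, y'.map Subtype.val, z'.map Subtype.val, ?_, ?_, ?_, ?_⟩
  · intro h
    apply hx
    rw [List.map_eq_nil_iff] at h ⊢
    exact h
  · have := hv'.map Subtype.val
    simpa using this
  · exact ((List.map_perm_map_iff g.injective).1 hxy).map _
  · exact ((List.map_perm_map_iff g.injective).1 hyz).map _

end Pool.Agent.T2h10.E25
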