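import Mathlib

/-!
# Rich words (finite words over any alphabet)

Owner helper10.
-/

set_option autoImplicit false

namespace Pool.Agent.T2h10.E25

variable {α β : Type}

/-- The set of the palindromic factors of a finite word (the empty word included). -/
def palFactors (w : List α) : Set (List α) := {p | p <:+: w ∧ p.reverse = p}

/-- A finite word is rich if it has `|w| + 1` different palindromic factors (the largest possible number). -/
def Rich (w : List α) : Prop := (palFactors w).ncard = w.length + 1

theorem palFactors_finite (w : List α) : (palFactors w).Finite := by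
  refine (List.finite_toSet w.sublists).subset ?_
  intro p hp
  simp only [Set.mem_setOf_eq, List.mem_sublists]
  exact hp.1.sublist

/-- The only new palindromic factor after a new letter is the longest palindromic suffix. -/
theorem pal_concat (w : List α) (a : α) (t : List α) (ht : t <:+ w ++ [a]) (htp : t.reverse = t)
    (hmax : ∀ s, s <:+ w ++ [a] → s.reverse = s → s.length ≤ t.length) :
    palFactors (w ++ [a]) ⊆ insert t (palFactors w) := by
  intro p hp
  obtain ⟨hp1, hp2⟩ := hp
  rcases List.infix_concat_iff.1 hp1 with h | h
  · by_cases hpt : p = t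
    · left; exact hpt
    · right
      refine ⟨?_, hp2⟩
      have hlen := hmax p h hp2
      have hst : p <:+ t := List.suffix_of_suffix_length_le h ht hlen
      have hpre : p <+: t := by
        have h1 := List.reverse_prefix.2 hst
        rwa [hp2, htp] at h1
      have hlt : p.length < t.length := by
        rcases Nat.lt_or_ge p.length t.length with h2 | h2
        · exact h2
        · exact absurd (hst.eq_of_length (by omega)) hpt
      obtain ⟨r, hr⟩ := ht
      rcases List.eq_nil_or_concat t with h3 | ⟨t', b, h3⟩
      · subst h3; simp at hlt
      · rw [List.concat_eq_append] at h3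
        subst h3
        have h4 : r ++ t' ++ [b] = w ++ [a] := by rw [← hr]; simp
        obtain ⟨h5, h6⟩ := List.append_inj' h4 rfl
        have h7 : p <+: t' := by
          have : p.length ≤ t'.length := by simp at hlt; omega
          exact List.prefix_of_prefix_length_le hpre (List.prefix_append _ _) this
        exact h7.isInfix.trans ⟨r, [], by simp [h5]⟩
  · right; exact ⟨h, hp2⟩

theorem exists_lps (w : List α) (a : α) : ∃ t, t <:+ w ++ [a] ∧ t.reverse = t ∧
    ∀ s, s <:+ w ++ [a] → s.reverse = s → s.length ≤ t.length := by
  classical
  have hfin : {s | s <:+ w ++ [a] ∧ s.reverse = s}.Finite :=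
    (palFactors_finite (w ++ [a])).subset (fun s hs => ⟨hs.1.isInfix, hs.2⟩)
  obtain ⟨t, ht, hmax⟩ := hfin.exists_maximalFor List.length _ ⟨[a], by simp, by simp⟩
  refine ⟨t, ht.1, ht.2, fun s hs hs2 => ?_⟩
  by_contra hcon
  push Not at hcon
  have := hmax ⟨hs, hs2⟩ hcon.le
  omega

theorem ncard_concat_le (w : List α) (a : α) : (palFactors (w ++ [a])).ncard ≤ (palFactors w).ncard + 1 := by
  obtain ⟨t, h1, h2, h3⟩ := exists_lps w a
  refine (Set.ncard_le_ncard (pal_concat w a t h1 h2 h3) ((palFactors_finite w).insert t)).trans ?_
  exact Set.ncard_insert_le t (palFactors w)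

theorem ncard_le (w : List α) : (palFactors w).ncard ≤ w.length + 1 := by
  induction w using List.reverseRecOn with
  | nil =>
    have : palFactors ([] : List α) ⊆ {[]} := by
      intro p hp
      have := hp.1
      simp at this
      simp [this]
    exact (Set.ncard_le_ncard this (Set.finite_singleton _)).trans (by simp)
  | append_singleton w a ih =>
    have := ncard_concat_le w a
    simp only [List.length_append, List.length_cons, List.length_nil]
    omega

theorem Rich.of_concat {w : List α} {a : α} (h : Rich (w ++ [a])) : Rich w := by
  unfold Rich at h ⊢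
  have h1 := ncard_concat_le w a
  have h2 := ncard_le w
  simp only [List.length_append, List.length_cons, List.length_nil] at h
  omega

theorem Rich.not_mem {w : List α} {a : α} (h : Rich (w ++ [a])) (t : List α) (ht : t <:+ w ++ [a])
    (htp : t.reverse = t) (hmax : ∀ s, s <:+ w ++ [a] → s.reverse = s → s.length ≤ t.length) : ¬ t <:+: w := by
  intro h1
  have h2 : palFactors (w ++ [a]) ⊆ palFactors w := by
    intro p hp
    rcases pal_concat w a t ht htp hmax hp with h3 | h3
    · rw [h3]; exact ⟨h1, htp⟩
    · exact h3
  have h3 := Set.ncard_le_ncard h2 (palFactors_finite w)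
  have h4 := ncard_le w
  unfold Rich at h
  simp only [List.length_append, List.length_cons, List.length_nil] at h
  omega

theorem palFactors_reverse (w : List α) : palFactors w.reverse = palFactors w := by
  ext p
  constructor
  · rintro ⟨h1, h2⟩
    refine ⟨?_, h2⟩
    rw [← List.reverse_infix, h2]; exact h1
  · rintro ⟨h1, h2⟩
    refine ⟨?_, h2⟩
    rw [← h2, List.reverse_infix]; exact h1

theorem Rich.reverse {w : List α} (h : Rich w) : Rich w.reverse := by
  unfold Rich at *
  rw [palFactors_reverse, List.length_reverse]; exact h

theorem Rich.pre_part {w v : List α} (h : Rich (v ++ w)) : Rich v := by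
  induction w using List.reverseRecOn with
  | nil => simpa using h
  | append_singleton w a ih =>
    apply ih
    rw [← List.append_assoc] at h
    exact h.of_concat

theorem Rich.part {w v : List α} (h : Rich w) (hv : v <:+: w) : Rich v := by
  obtain ⟨s, t, rfl⟩ := hv
  have h1 : Rich (s ++ v) := h.pre_part
  have h2 := h1.reverse
  rw [List.reverse_append] at h2
  have h3 := h2.pre_part.reverse
  rwa [List.reverse_reverse] at h3

theorem palFactors_map (g : α → β) (hg : Function.Injective g) (w : List α) :
    palFactors (w.map g) = List.map g '' palFactors w := by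
  have hinj : Function.Injective (List.map g) := List.map_injective_iff.2 hg
  ext p
  constructor
  · rintro ⟨⟨s, t, h1⟩, h2⟩
    obtain ⟨w1, t', hw, h3, h4⟩ := List.map_eq_append_iff.1 h1.symm
    obtain ⟨s', p', hw', h5, h6⟩ := List.map_eq_append_iff.1 h3
    refine ⟨p', ⟨⟨s', t', by rw [hw, hw']⟩, ?_⟩, h6⟩
    apply hinj
    rw [List.map_reverse, h6, h2]
  · rintro ⟨q, ⟨⟨s, t, h1⟩, h2⟩, rfl⟩
    refine ⟨⟨s.map g, t.map g, by rw [← h1]; simp⟩, ?_⟩
    rw [← List.map_reverse, h2]

theorem rich_map (g : α → β) (hg : Function.Injective g) (w : List α) : Rich (w.map g) ↔ Rich w := by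
  unfold Rich
  rw [palFactors_map g hg, Set.ncard_image_of_injective _ (List.map_injective_iff.2 hg), List.length_map]

end Pool.Agent.T2h10.E25
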