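import Pool.Agent.T2h10.E25.Rich
import Pool.Agent.T2h10.E25.Chk

/-!
# Soundness of the certificates

Owner helper10.
-/

set_option autoImplicit false

namespace Pool.Agent.T2h10.E25

/-- The properties of the set of the factors of a rich word over `0, 1, 1024` without abelian cubes. -/
structure Good (F : Set (List ℕ)) : Prop where
  inf : ∀ v ∈ F, ∀ v', v' <:+: v → v' ∈ F
  letters : ∀ v ∈ F, ∀ a ∈ v, a = 0 ∨ a = 1 ∨ a = 1024
  rich : ∀ v ∈ F, Rich v
  cube : ∀ x y z : List ℕ, x ≠ [] → x.Perm y → y.Perm z → x ++ y ++ z ∉ F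

/-- The code of a word. -/
def code (w : List ℕ) : ℕ := Nat.ofDigits 1048576 w

def Let (w : List ℕ) : Prop := ∀ a ∈ w, a = 0 ∨ a = 1 ∨ a = 1024

theorem Let.lt {w : List ℕ} (h : Let w) : ∀ a ∈ w, a < 1048576 := by
  intro a ha
  rcases h a ha with h | h | h <;> omega

theorem Let.sub {w v : List ℕ} (h : Let w) (hv : ∀ a ∈ v, a ∈ w) : Let v := fun a ha => h a (hv a ha)

theorem code_cons (a : ℕ) (w : List ℕ) : code (a :: w) = Nat.add a (Nat.mul 1048576 (code w)) := by
  unfold code
  rw [Nat.ofDigits_cons]; rfl

theorem code_concat (a : ℕ) (w : List ℕ) :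
    code (w ++ [a]) = Nat.add (code w) (Nat.mul (P w.length) a) := by
  unfold code
  rw [Nat.ofDigits_append]
  simp only [Nat.ofDigits_singleton]
  rfl

theorem code_div {w : List ℕ} (hw : Let w) (j : ℕ) : Nat.div (code w) (P j) = code (w.drop j) := by
  have := Nat.ofDigits_div_pow_eq_ofDigits_drop j (by norm_num : 0 < 1048576) w hw.lt
  exact this

theorem code_mod {w : List ℕ} (hw : Let w) (j : ℕ) : Nat.mod (code w) (P j) = code (w.take j) := by
  have := Nat.ofDigits_mod_pow_eq_ofDigits_take j (by norm_num : 0 < 1048576) w hw.lt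
  exact this

theorem code_inj {v w : List ℕ} (hv : Let v) (hw : Let w) (hl : v.length = w.length)
    (h : code v = code w) : v = w :=
  Nat.ofDigits_inj_of_len_eq (by norm_num) hl hv.lt hw.lt h

theorem code_sum (w : List ℕ) : code w % 1048575 = w.sum % 1048575 := by
  induction w with
  | nil => rfl
  | cons a w ih =>
    have h : code (a :: w) = a + 1048576 * code w := code_cons a w
    rw [h, List.sum_cons]
    omega

theorem sum_eq {w : List ℕ} (hw : Let w) : w.sum = w.count 1 + 1024 * w.count 1024 ∧
    w.length = w.count 0 + w.count 1 + w.count 1024 := by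
  induction w with
  | nil => simp
  | cons a w ih =>
    have h := ih (hw.sub (fun x hx => List.mem_cons_of_mem _ hx))
    rcases hw a (by simp) with h1 | h1 | h1 <;> subst h1 <;> simp [List.count_cons] <;> omega

theorem perm_of_sum {x y : List ℕ} (hx : Let x) (hy : Let y) (hl : x.length = y.length) (hL : x.length ≤ 900)
    (h : Nat.mod (code x) 1048575 = Nat.mod (code y) 1048575) : x.Perm y := by
  have h0 : code x % 1048575 = code y % 1048575 := h
  rw [code_sum, code_sum] at h0
  obtain ⟨hx1, hx2⟩ := sum_eq hx
  obtain ⟨hy1, hy2⟩ := sum_eq hy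
  have hsum : x.sum = y.sum := by
    rw [Nat.mod_eq_of_lt (by omega), Nat.mod_eq_of_lt (by omega)] at h0
    exact h0
  rw [List.perm_iff_count]
  intro a
  by_cases ha : a = 0 ∨ a = 1 ∨ a = 1024
  · rcases ha with ha | ha | ha <;> subst ha <;> omega
  · rw [List.count_eq_zero_of_not_mem (fun h => ha (hx a h)), List.count_eq_zero_of_not_mem (fun h => ha (hy a h))]

theorem cond_false_iff (a b : Bool) : cond a b false = true ↔ a = true ∧ b = true := by
  cases a <;> simp

theorem cond_neg_iff (a b : Bool) : cond a false b = true ↔ a = false ∧ b = true := by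
  cases a <;> simp

theorem cube_sound {L : ℕ} {v : List ℕ} (hv : Let v) (hL : 1 ≤ L) (h3 : 3 * L ≤ v.length) (h9 : v.length ≤ 900)
    (h : cubeOK L (code v) = true) {F : Set (List ℕ)} (hF : Good F) : v ∉ F := by
  intro hmem
  have hd1 : Let (v.drop L) := hv.sub (fun a ha => List.mem_of_mem_drop ha)
  have hd2 : Let (v.drop (2 * L)) := hv.sub (fun a ha => List.mem_of_mem_drop ha)
  have hx : Let (v.take L) := hv.sub (fun a ha => List.mem_of_mem_take ha)
  have hy : Let ((v.drop L).take L) := hd1.sub (fun a ha => List.mem_of_mem_take ha)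
  have hz : Let ((v.drop (2 * L)).take L) := hd2.sub (fun a ha => List.mem_of_mem_take ha)
  have e2 : Nat.mul 2 L = 2 * L := rfl
  unfold cubeOK at h
  rw [e2, code_div hv, code_div hv, code_mod hv, code_mod hd1, code_mod hd2, cond_false_iff] at h
  obtain ⟨h1, h2⟩ := h
  have h1' := Nat.eq_of_beq_eq_true h1
  have h2' := Nat.eq_of_beq_eq_true h2
  have lx : (v.take L).length = L := by rw [List.length_take]; omega
  have ly : ((v.drop L).take L).length = L := by rw [List.length_take, List.length_drop]; omega
  have lz : ((v.drop (2 * L)).take L).length = L := by rw [List.length_take, List.length_drop]; omega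
  have p1 := perm_of_sum hx hy (by rw [lx, ly]) (by rw [lx]; omega) h1'
  have p2 := perm_of_sum hy hz (by rw [ly, lz]) (by rw [ly]; omega) h2'
  have hne : v.take L ≠ [] := by
    intro h0
    rw [h0] at lx
    simp at lx
    omega
  refine hF.cube _ _ _ hne p1 p2 (hF.inf v hmem _ ?_)
  have e : v.take L ++ (v.drop L).take L ++ (v.drop (2 * L)).take L = v.take (L + L + L) := by
    rw [List.take_add (i := L + L), List.take_add (i := L)]
    rw [show L + L = 2 * L by ring]
  rw [e]
  exact (List.take_prefix _ _).isInfix

theorem noPal_sound {X Y m : ℕ} : ∀ {J : ℕ}, noPal X Y m J = true → ∀ j, j < J →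
    Nat.div Y (P j) ≠ Nat.mod X (P (Nat.sub m j)) := by
  intro J
  induction J with
  | zero => intro _ j hj; omega
  | succ J ih =>
    intro h j hj
    unfold noPal at h
    rw [cond_neg_iff] at h
    obtain ⟨h1, h2⟩ := h
    rcases Nat.lt_or_ge j J with h3 | h3
    · exact ih h2 j h3
    · have : j = J := by omega
      subst this
      intro h4
      rw [h4] at h1
      simp at h1

theorem rich_sound {J p : ℕ} {w : List ℕ} {a : ℕ} (hv : Let (a :: w)) (hw : w.reverse = w) (hJ : J ≤ w.length)
    (hp : p + (w.length + 1 - J) ≤ w.length)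
    (h : richOK J p (w.length + 1) (code w) (code (a :: w)) (code (w ++ [a])) = true)
    (hr : Rich (w ++ [a])) : False := by
  have hY : Let (w ++ [a]) := hv.sub (fun x hx => by simp at hx ⊢; tauto)
  have hW : Let w := hv.sub (fun x hx => List.mem_cons_of_mem _ hx)
  have hrev : (w ++ [a]).reverse = a :: w := by simp [hw]
  have hlen : (w ++ [a]).length = w.length + 1 := by simp
  unfold richOK at h
  rw [cond_false_iff, cond_false_iff] at h
  obtain ⟨h1, h2, h3⟩ := h
  have h2' := Nat.eq_of_beq_eq_true h2
  have h3' := Nat.eq_of_beq_eq_true h3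
  have hs : Nat.sub (w.length + 1) J = w.length + 1 - J := rfl
  have hWd : Let (w.drop p) := hW.sub (fun x hx => List.mem_of_mem_drop hx)
  rw [hs, code_div hY, code_mod hv] at h2'
  rw [hs, code_div hW, code_mod hWd, code_mod hv] at h3'
  have key : ∀ j, j ≤ w.length + 1 → (a :: w).take (w.length + 1 - j) = ((w ++ [a]).drop j).reverse := by
    intro j hj
    rw [← hrev, List.reverse_drop, hlen]
  have hLd : ∀ j, Let ((w ++ [a]).drop j) := fun j => hY.sub (fun x hx => List.mem_of_mem_drop hx)
  have hLt : ∀ j, Let ((a :: w).take j) := fun j => hv.sub (fun x hx => List.mem_of_mem_take hx)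
  have e2 : (w ++ [a]).drop J = (a :: w).take (w.length + 1 - J) := by
    refine code_inj (hLd J) (hLt _) ?_ h2'
    rw [List.length_drop, List.length_take, hlen, List.length_cons]; omega
  have e3 : (w.drop p).take (w.length + 1 - J) = (a :: w).take (w.length + 1 - J) := by
    refine code_inj (hWd.sub (fun x hx => List.mem_of_mem_take hx)) (hLt _) ?_ h3'
    rw [List.length_take, List.length_take, List.length_drop, List.length_cons]; omega
  have htp : ((w ++ [a]).drop J).reverse = (w ++ [a]).drop J := by
    rw [← key J (by omega), ← e2]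
  refine hr.not_mem ((w ++ [a]).drop J) (List.drop_suffix _ _) htp ?_ ?_
  · intro s hs1 hs2
    by_contra hcon
    push Not at hcon
    obtain ⟨r, hr1⟩ := hs1
    have hsd : s = (w ++ [a]).drop r.length := by rw [← hr1]; simp
    have hl1 : r.length + s.length = w.length + 1 := by rw [← hlen, ← hr1]; simp
    rw [List.length_drop, hlen] at hcon
    have hlt : r.length < J := by omega
    refine noPal_sound h1 r.length hlt ?_
    have hs' : Nat.sub (w.length + 1) r.length = w.length + 1 - r.length := rfl
    rw [hs', code_div hY, code_mod hv, key r.length (by omega), ← hsd, hs2]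
  · rw [e2, ← e3]
    exact (List.take_prefix _ _).isInfix.trans (List.drop_suffix _ _).isInfix

end Pool.Agent.T2h10.E25
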