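import Pool.Agent.T2h10.E25.Sound

/-!
# Soundness of the tree

Owner helper10.
-/

set_option autoImplicit false

namespace Pool.Agent.T2h10.E25

/-- Only the first `k` letters are used. -/
def Used (k : ℕ) (w : List ℕ) : Prop := Let w ∧ (k = 1 → ∀ a ∈ w, a = 0) ∧ (k = 2 → ∀ a ∈ w, a = 0 ∨ a = 1)

/-- The image of `F` under a renaming of the letters. -/
def ren (σ : Equiv.Perm ℕ) (F : Set (List ℕ)) : Set (List ℕ) := {v | v.map σ ∈ F}

theorem Good.ren {F : Set (List ℕ)} (hF : Good F) (σ : Equiv.Perm ℕ)
    (hσ : ∀ a, (σ a = 0 ∨ σ a = 1 ∨ σ a = 1024) → (a = 0 ∨ a = 1 ∨ a = 1024)) : Good (ren σ F) where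
  inf := by
    intro v hv v' hv'
    exact hF.inf _ hv _ (hv'.map σ)
  letters := by
    intro v hv a ha
    exact hσ a (hF.letters _ hv (σ a) (List.mem_map_of_mem ha))
  rich := by
    intro v hv
    exact (rich_map σ σ.injective v).1 (hF.rich _ hv)
  cube := by
    intro x y z hx hxy hyz hmem
    have h : (x ++ y ++ z).map σ ∈ F := hmem
    rw [List.map_append, List.map_append] at h
    refine hF.cube _ _ _ ?_ (hxy.map σ) (hyz.map σ) h
    simpa using hx

theorem swap_letters {b c : ℕ} (hb : b = 0 ∨ b = 1 ∨ b = 1024) (hc : c = 0 ∨ c = 1 ∨ c = 1024) (a : ℕ)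
    (h : Equiv.swap b c a = 0 ∨ Equiv.swap b c a = 1 ∨ Equiv.swap b c a = 1024) : a = 0 ∨ a = 1 ∨ a = 1024 := by
  by_cases h1 : a = b
  · rw [h1]; exact hb
  · by_cases h2 : a = c
    · rw [h2]; exact hc
    · rwa [Equiv.swap_apply_of_ne_of_ne h1 h2] at h

theorem beq_false {k j : ℕ} (h : k ≠ j) : Nat.beq k j = false := by
  cases hb : Nat.beq k j
  · rfl
  · exact absurd (Nat.eq_of_beq_eq_true hb) h

theorem chk_sound : ∀ (t : T) (k n : ℕ) (w : List ℕ) (a : ℕ), chk t k n (code w) a = true → w.reverse = w →
    w.length = n → Used k (a :: w) → ∃ N : ℕ, ∀ F : Set (List ℕ), Good F → ∀ s : List ℕ,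
    s.reverse ++ (a :: (w ++ [a])) ++ s ∈ F → s.length < N := by
  intro t
  induction t with
  | e => intro k n w a h; simp [chk] at h
  | c L =>
    intro k n w a h hw hn hu
    refine ⟨0, fun F hF s hs => ?_⟩
    exfalso
    unfold chk at h
    rw [cond_false_iff] at h
    obtain ⟨h1, h2⟩ := h
    rw [Bool.and_eq_true, Bool.and_eq_true] at h1
    obtain ⟨⟨h1, h3⟩, h4⟩ := h1
    have h1' := Nat.le_of_ble_eq_true h1
    have h3' : 3 * L ≤ n + 2 := Nat.le_of_ble_eq_true h3
    have h4' : n + 2 ≤ 900 := Nat.le_of_ble_eq_true h4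
    rw [← hn, ← code_concat, ← code_cons] at h2
    have hlen : (a :: (w ++ [a])).length = n + 2 := by simp [hn]
    refine cube_sound ?_ h1' (by rw [hlen]; exact h3') (by rw [hlen]; exact h4') h2 hF (hF.inf _ hs _ ?_)
    · exact hu.1.sub (fun x hx => by simp at hx ⊢; tauto)
    · exact ⟨s.reverse, s, rfl⟩
  | r J p =>
    intro k n w a h hw hn hu
    refine ⟨0, fun F hF s hs => ?_⟩
    exfalso
    unfold chk at h
    rw [cond_false_iff, Bool.and_eq_true] at h
    obtain ⟨⟨h1, h3⟩, h2⟩ := h
    have h1' : J ≤ n := Nat.le_of_ble_eq_true h1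
    have h3' : p + (n + 1 - J) ≤ n := Nat.le_of_ble_eq_true h3
    have e1 : Nat.add a (Nat.mul 1048576 (code w)) = code (a :: w) := (code_cons a w).symm
    have e2 : Nat.add (code w) (Nat.mul (P n) a) = code (w ++ [a]) := by rw [code_concat, hn]
    rw [e1, e2] at h2
    subst hn
    refine rich_sound hu.1 hw h1' h3' h2 (hF.rich _ (hF.inf _ hs _ ?_))
    exact ⟨s.reverse ++ [a], s, by simp⟩
  | n t0 t1 t2 ih0 ih1 ih2 =>
    intro k n w a h hw hn hu
    unfold chk at h
    rw [Bool.and_eq_true, Bool.and_eq_true] at h
    have e1 : Nat.add a (Nat.mul 1048576 (Nat.add (code w) (Nat.mul (P n) a))) = code (a :: (w ++ [a])) := by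
      rw [code_cons, code_concat, hn]
    rw [e1] at h
    obtain ⟨h0, h1, h2⟩ := h
    have hrev : (a :: (w ++ [a])).reverse = a :: (w ++ [a]) := by simp [hw]
    have hlen : (a :: (w ++ [a])).length = Nat.add n 2 := by simp [hn]
    have hLet : Let (a :: (w ++ [a])) := hu.1.sub (fun x hx => by simp at hx ⊢; tauto)
    have hcons : ∀ b : ℕ, (b = 0 ∨ b = 1 ∨ b = 1024) → Let (b :: a :: (w ++ [a])) := by
      intro b hb x hx
      rcases List.mem_cons.1 hx with h | h
      · rw [h]; exact hb
      · exact hLet x h
    have hmem : ∀ x, x ∈ a :: (w ++ [a]) → x ∈ a :: w := fun x hx => by simp at hx ⊢; tauto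
    have u0 : Used k (0 :: a :: (w ++ [a])) := by
      refine ⟨hcons 0 (Or.inl rfl), fun hk x hx => ?_, fun hk x hx => ?_⟩
      · rcases List.mem_cons.1 hx with h | h
        · exact h
        · exact hu.2.1 hk x (hmem x h)
      · rcases List.mem_cons.1 hx with h | h
        · exact Or.inl h
        · exact hu.2.2 hk x (hmem x h)
    have u1 : Used (cond (Nat.beq k 1) 2 k) (1 :: a :: (w ++ [a])) := by
      by_cases hk : k = 1
      · subst hk
        refine ⟨hcons 1 (Or.inr (Or.inl rfl)), fun hk x hx => ?_, fun _ x hx => ?_⟩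
        · simp at hk
        · rcases List.mem_cons.1 hx with h | h
          · exact Or.inr h
          · exact Or.inl (hu.2.1 rfl x (hmem x h))
      · have : Nat.beq k 1 = false := beq_false hk
        rw [this]
        refine ⟨hcons 1 (Or.inr (Or.inl rfl)), fun hk' => absurd hk' hk, fun hk' x hx => ?_⟩
        rcases List.mem_cons.1 hx with h | h
        · exact Or.inr h
        · exact hu.2.2 hk' x (hmem x h)
    obtain ⟨N0, H0⟩ := ih0 _ _ _ _ h0 hrev hlen u0
    obtain ⟨N1, H1⟩ := ih1 _ _ _ _ h1 hrev hlen u1
    have split : ∀ (x : ℕ) (s' : List ℕ), (x :: s').reverse ++ (a :: (w ++ [a])) ++ (x :: s') =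
        s'.reverse ++ (x :: ((a :: (w ++ [a])) ++ [x])) ++ s' := by intro x s'; simp
    by_cases hk : k = 1
    · subst hk
      have hz : ∀ x ∈ a :: (w ++ [a]), x = 0 := fun x hx => hu.2.1 rfl x (hmem x hx)
      refine ⟨max N0 N1 + 1, fun F hF s hs => ?_⟩
      rcases s with _ | ⟨x, s'⟩
      · simp
      · have hx := hF.letters _ hs x (by simp)
        rw [split] at hs
        rw [List.length_cons]
        rcases hx with hx | hx | hx
        · subst hx
          have := H0 F hF s' hs
          omega
        · subst hx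
          have := H1 F hF s' hs
          omega
        · subst hx
          have hmap : (a :: (w ++ [a])).map (Equiv.swap 1 1024) = a :: (w ++ [a]) := by
            conv_rhs => rw [← List.map_id (a :: (w ++ [a]))]
            apply List.map_congr_left
            intro y hy
            rw [hz y hy]
            exact Equiv.swap_apply_of_ne_of_ne (by norm_num) (by norm_num)
          have := H1 (ren (Equiv.swap 1 1024) F)
            (hF.ren _ (swap_letters (Or.inr (Or.inl rfl)) (Or.inr (Or.inr rfl)))) (s'.map (Equiv.swap 1 1024)) (by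
              show List.map _ _ ∈ F
              have hss : (s'.map (Equiv.swap 1 1024)).map (Equiv.swap 1 1024) = s' := by
                rw [List.map_map]
                conv_rhs => rw [← List.map_id s']
                apply List.map_congr_left
                intro y _
                simp
              rw [List.map_append, List.map_append, List.map_reverse, hss, List.map_cons, List.map_append, hmap,
                List.map_cons, List.map_nil, Equiv.swap_apply_left]
              exact hs)
          rw [List.length_map] at this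
          omega
    · have hk1 : Nat.beq k 1 = false := beq_false hk
      rw [hk1] at h2
      have u2 : Used 3 (1024 :: a :: (w ++ [a])) :=
        ⟨hcons 1024 (Or.inr (Or.inr rfl)), fun h => by simp at h, fun h => by simp at h⟩
      obtain ⟨N2, H2⟩ := ih2 _ _ _ _ h2 hrev hlen u2
      refine ⟨max N0 (max N1 N2) + 1, fun F hF s hs => ?_⟩
      rcases s with _ | ⟨x, s'⟩
      · simp
      · have hx := hF.letters _ hs x (by simp)
        rw [split] at hs
        rw [List.length_cons]
        rcases hx with hx | hx | hx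
        · subst hx
          have := H0 F hF s' hs
          omega
        · subst hx
          have := H1 F hF s' hs
          omega
        · subst hx
          have := H2 F hF s' hs
          omega

end Pool.Agent.T2h10.E25
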